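/-
MP_051437_ag, area CN, module ADF (helper89).
-/
import Pool.Agent.CRD.Cnc.Stmts

set_option linter.style.longLine false

open CategoryTheory Opposite Limits

namespace Pool.CRD.Cn

namespace ADF_

/-- the common value on simple torsion modules -/
theorem two_mul_simple (hPTS : Stmt_PTS) (hTWP : Stmt_TWP) (K : Type) [Field K] [IsAlgClosed K]
    (a b : Kˣ) (h2 : (2 : K) ≠ 0) [(Cnc a b K).Good] (f : Coh (Cnc a b K) → ℤ) (hf : IsAdd f)
    (T : Coh (Cnc a b K)) (hT : Simple T) (hr : rkC T.obj = 0) :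
    2 * f T = f (Oc a b 0) - f (Oc a b (-1)) := by
  obtain ⟨T', T'', hT', hT'', hr', hr'', e1, e2, e3⟩ := hPTS K a b h2 T hT hr
  have h3 := hTWP K a b h2 f hf T T' hT hT' hr hr' e1
  have h4 := hTWP K a b h2 f hf T T'' hT hT'' hr hr'' e2
  have h5 := hTWP K a b h2 f hf T' T'' hT' hT'' hr' hr'' e3
  linarith

end ADF_

theorem adf_proof (hDEV : Stmt_DEV) (hPTS : Stmt_PTS) (hTWP : Stmt_TWP) (_hSIM : Stmt_SIM)
    (hCHA : Stmt_CHA) (hRKA : Stmt_RKA) (hOJN : Stmt_OJN) : Stmt_ADF := by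
  intro K _ _ a b h2 _ f hf M
  have hchi : IsAdd (fun M : Coh (Cnc a b K) => chiC M.obj) := fun S hS => hCHA K a b S hS
  have hrk : IsAdd (fun M : Coh (Cnc a b K) => rkC M.obj) := fun S hS => hRKA K a b h2 S hS
  have hdeg : IsAdd (fun M : Coh (Cnc a b K) => degC M.obj) := by
    intro S hS
    have e1 := hCHA K a b S hS
    have e2 := hRKA K a b h2 S hS
    change chiC S.X₂.obj - rkC S.X₂.obj =
      (chiC S.X₁.obj - rkC S.X₁.obj) + (chiC S.X₃.obj - rkC S.X₃.obj)
    rw [e1, e2]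
    ring
  have hdO : ∀ i : ℤ, degC (Oc a b i).obj = 2 * i := by
    intro i
    obtain ⟨e1, e2⟩ := hOJN K a b i
    change chiC (OO a b K i) - rkC (OO a b K i) = 2 * i
    rw [e1, e2]
    ring
  have hrO : ∀ i : ℤ, rkC (Oc a b i).obj = 1 := fun i => (hOJN K a b i).2
  have hdT : ∀ T : Coh (Cnc a b K), Simple T → rkC T.obj = 0 → degC T.obj = 1 := by
    intro T hT hr
    have h := ADF_.two_mul_simple hPTS hTWP K a b h2 (fun M => degC M.obj) hdeg T hT hr
    change 2 * degC T.obj = degC (Oc a b 0).obj - degC (Oc a b (-1)).obj at h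
    rw [hdO, hdO] at h
    linarith
  have hg : IsAdd (fun M : Coh (Cnc a b K) => 2 * f M - (2 * rkC M.obj * f (Oc a b 0) +
      degC M.obj * (f (Oc a b 0) - f (Oc a b (-1))))) := by
    intro S hS
    have e1 := hf S hS
    have e2 := hRKA K a b h2 S hS
    have e3 : degC S.X₂.obj = degC S.X₁.obj + degC S.X₃.obj := hdeg S hS
    dsimp only
    rw [e1, e2, e3]
    ring
  have h := hDEV K a b h2 ℤ _ hg ?_ ?_ M
  · linarith
  · rw [hdO, hrO]
    ring
  · intro T hT hr
    have e := ADF_.two_mul_simple hPTS hTWP K a b h2 f hf T hT hr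
    rw [hdT T hT hr, hr, e]
    ring

end Pool.CRD.Cn
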