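import Pool.Agent.CRD.Cnc.Stmts

/-!
# CRD / Cnc: module CDD (the charts of the conic over a field are Dedekind domains)
-/

set_option autoImplicit false

open CategoryTheory Opposite Limits

namespace Pool.CRD.Cn

namespace CDD_


lemma dvd_of_integral {A F : Type} [CommRing A] [IsDomain A] [IsIntegrallyClosed A] [Field F]
    [Algebra A F] (hinj : Function.Injective (algebraMap A F)) (y : F) (hy : IsIntegral A y)
    (n d : A) (hd : d ≠ 0) (h : algebraMap A F d * y = algebraMap A F n) : d ∣ n := by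
  let g : FractionRing A →ₐ[A] F := IsFractionRing.liftAlgHom (g := Algebra.ofId A F) hinj
  have hginj : Function.Injective g := g.toRingHom.injective
  have hd' : algebraMap A F d ≠ 0 := by
    intro h0
    exact hd (hinj (by rw [h0, map_zero]))
  have hdK : algebraMap A (FractionRing A) d ≠ 0 := by
    intro h0
    exact hd (IsFractionRing.injective A (FractionRing A) (by rw [h0, map_zero]))
  have h1 : g (algebraMap A (FractionRing A) n / algebraMap A (FractionRing A) d) = y := by
    rw [map_div₀, AlgHom.commutes, AlgHom.commutes, ← h, mul_comm, mul_div_assoc, div_self hd', mul_one]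
  rw [← h1, isIntegral_algHom_iff g hginj] at hy
  obtain ⟨a, ha⟩ := IsIntegrallyClosed.isIntegral_iff.1 hy
  refine ⟨a, IsFractionRing.injective A (FractionRing A) ?_⟩
  rw [map_mul, ha, mul_div_cancel₀ _ hdK]

lemma dvd_of_sq {A : Type} [CommRing A] [IsDomain A] [IsPrincipalIdealRing A] {p : A}
    (hp : Squarefree p) (d v : A) (hd : d ≠ 0) (h : d * d ∣ v * v * p) : d ∣ v := by
  classical
  obtain ⟨_⟩ : Nonempty (GCDMonoid A) := ⟨IsBezout.toGCDDomain A⟩
  obtain ⟨d', v', h1, h2, h3⟩ := extract_gcd d v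
  set g := gcd d v with hg
  have hg0 : g ≠ 0 := by
    intro h0
    rw [h0, zero_mul] at h1
    exact hd h1
  have hcop : IsCoprime d' v' := (gcd_isUnit_iff d' v').1 h3
  have h4 : d' * d' ∣ v' * v' * p := by
    rw [h1, h2] at h
    obtain ⟨c, hc⟩ := h
    refine ⟨c, mul_left_cancel₀ (mul_ne_zero hg0 hg0) ?_⟩
    linear_combination hc
  have h5 : d' * d' ∣ p := (IsCoprime.mul_left (hcop.mul_right hcop) (hcop.mul_right hcop)).dvd_of_dvd_mul_left h4
  have h6 : IsUnit d' := hp _ h5
  rw [h1, h2]
  exact mul_dvd_mul_left _ (h6.dvd)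

lemma fld {F : Type} [Field F] {a : F} (b e : F) (ha : a ≠ 0) : a * b * (e / a) = e * b := by
  field_simp

section Qid
variable {A : Type} [CommRing A] (p : A)

lemma e1 (u v : A) : ((⟨u, v⟩ : QuadraticAlgebra A p 0) + star (⟨u, v⟩ : QuadraticAlgebra A p 0)) =
    algebraMap A (QuadraticAlgebra A p 0) (2 * u) := by
  rw [QuadraticAlgebra.star_mk, QuadraticAlgebra.algebraMap_eq]
  ext
  · rw [QuadraticAlgebra.re_add]
    ring
  · rw [QuadraticAlgebra.im_add]
    ring

lemma e2 (u v : A) : ((⟨u, v⟩ : QuadraticAlgebra A p 0) - star (⟨u, v⟩ : QuadraticAlgebra A p 0)) *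
    ((⟨u, v⟩ : QuadraticAlgebra A p 0) - star (⟨u, v⟩ : QuadraticAlgebra A p 0)) =
    algebraMap A (QuadraticAlgebra A p 0) ((2 * v) * (2 * v) * p) := by
  rw [QuadraticAlgebra.star_mk, QuadraticAlgebra.algebraMap_eq, QuadraticAlgebra.mk_sub_mk,
    QuadraticAlgebra.mk_mul_mk]
  ext
  · simp only
    ring
  · simp only
    ring

lemma e3 (x : A) : star (algebraMap A (QuadraticAlgebra A p 0) x) =
    algebraMap A (QuadraticAlgebra A p 0) x := by
  rw [QuadraticAlgebra.algebraMap_eq, QuadraticAlgebra.star_mk]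
  ext
  · simp only
    ring
  · simp only
    ring

lemma e4 (d u v : A) : (⟨d * u, d * v⟩ : QuadraticAlgebra A p 0) =
    algebraMap A (QuadraticAlgebra A p 0) d * ⟨u, v⟩ := by
  rw [QuadraticAlgebra.algebraMap_eq, QuadraticAlgebra.mk_mul_mk]
  ext
  · simp only
    ring
  · simp only
    ring

end Qid

/-- the ring of an affine conic is a Dedekind domain -/
theorem ded {A : Type} [CommRing A] [IsDomain A] [IsPrincipalIdealRing A] (p : A)
    (hp : Squarefree p) (h2 : IsUnit (2 : A)) [IsDomain (QuadraticAlgebra A p 0)] :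
    IsDedekindDomain (QuadraticAlgebra A p 0) := by
  set C := QuadraticAlgebra A p 0 with hC
  have hAC : Function.Injective (algebraMap A C) := QuadraticAlgebra.algebraMap_injective
  rw [isDedekindDomain_iff C (FractionRing C)]
  refine ⟨inferInstance, IsNoetherianRing.of_finite A C, Ring.DimensionLEOne.of_isIntegral A C, ?_⟩
  intro z hz
  have hCF : Function.Injective (algebraMap C (FractionRing C)) := IsFractionRing.injective _ _
  have hAF : Function.Injective (algebraMap A (FractionRing C)) := by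
    rw [IsScalarTower.algebraMap_eq A C (FractionRing C)]
    exact hCF.comp hAC
  have hzA : IsIntegral A z := isIntegral_trans (A := C) z hz
  -- write `z = c / d`
  obtain ⟨c1, c2, hc2, hzc⟩ := IsFractionRing.div_surjective (A := C) z
  have hc20 : c2 ≠ 0 := nonZeroDivisors.ne_zero hc2
  obtain ⟨c, hc⟩ : ∃ c : C, c = c1 * star c2 := ⟨_, rfl⟩
  obtain ⟨d, hd⟩ : ∃ d : A, d = QuadraticAlgebra.norm c2 := ⟨_, rfl⟩
  have hdC : algebraMap A C d = c2 * star c2 := by
    rw [hd]
    exact QuadraticAlgebra.algebraMap_norm_eq_mul_star c2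
  have hs2 : star c2 ≠ 0 := fun h => hc20 (by rw [← star_star c2, h, star_zero])
  have hd0 : d ≠ 0 := by
    intro h0
    rw [h0, map_zero] at hdC
    exact mul_ne_zero hc20 hs2 hdC.symm
  have hAFe : ∀ x : A, algebraMap A (FractionRing C) x = algebraMap C (FractionRing C) (algebraMap A C x) :=
    fun x => IsScalarTower.algebraMap_apply A C (FractionRing C) x
  have hdz : algebraMap A (FractionRing C) d * z = algebraMap C (FractionRing C) c := by
    have h1 : algebraMap C (FractionRing C) c2 ≠ 0 := fun h => hc20 (hCF (by rw [h, map_zero]))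
    rw [hAFe, hdC, hc, ← hzc, map_mul, map_mul]
    exact fld _ _ h1
  -- the conjugation
  let τ : C →+* FractionRing C := (algebraMap C (FractionRing C)).comp (starRingEnd C)
  have hτ : Function.Injective τ := hCF.comp star_injective
  let σ : FractionRing C →+* FractionRing C := IsFractionRing.lift hτ
  have hσ : ∀ x : C, σ (algebraMap C (FractionRing C) x) = algebraMap C (FractionRing C) (star x) :=
    fun x => IsFractionRing.lift_algebraMap hτ x
  have hstarA : ∀ x : A, star (algebraMap A C x) = algebraMap A C x := e3 p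
  have hσA : ∀ x : A, σ (algebraMap A (FractionRing C) x) = algebraMap A (FractionRing C) x := by
    intro x
    rw [hAFe, hσ, hstarA]
  have hσz : IsIntegral A (σ z) := by
    refine IsIntegral.map_of_comp_eq (RingHom.id A) σ ?_ hzA
    ext x
    exact (hσA x).symm
  have hdσ : algebraMap A (FractionRing C) d * σ z = algebraMap C (FractionRing C) (star c) := by
    rw [← hσA d, ← map_mul, hdz, hσ]
  obtain ⟨u, v⟩ := c
  have hu : d ∣ 2 * u := by
    refine dvd_of_integral hAF (z + σ z) (hzA.add hσz) _ _ hd0 ?_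
    rw [mul_add, hdz, hdσ, ← map_add, hAFe]
    exact congrArg _ (e1 p u v)
  have hv : d * d ∣ (2 * v) * (2 * v) * p := by
    refine dvd_of_integral hAF ((z - σ z) * (z - σ z)) ((hzA.sub hσz).mul (hzA.sub hσz)) _ _
      (mul_ne_zero hd0 hd0) ?_
    have h1 : algebraMap A (FractionRing C) d * (z - σ z) =
        algebraMap C (FractionRing C) (⟨u, v⟩ - star ⟨u, v⟩) := by
      rw [mul_sub, hdz, hdσ, ← map_sub]
    have h2 : algebraMap A (FractionRing C) (d * d) * ((z - σ z) * (z - σ z)) =
        (algebraMap A (FractionRing C) d * (z - σ z)) *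
          (algebraMap A (FractionRing C) d * (z - σ z)) := by
      rw [map_mul]
      ring
    rw [h2, h1, ← map_mul, hAFe]
    exact congrArg _ (e2 p u v)
  have hu' : d ∣ u := (h2.dvd_mul_left).1 hu
  have hv' : d ∣ v := (h2.dvd_mul_left).1 (dvd_of_sq hp _ _ hd0 hv)
  obtain ⟨u', rfl⟩ := hu'
  obtain ⟨v', rfl⟩ := hv'
  refine ⟨⟨u', v'⟩, ?_⟩
  have hdF : algebraMap A (FractionRing C) d ≠ 0 := fun h => hd0 (hAF (by rw [h, map_zero]))
  apply mul_left_cancel₀ hdF
  rw [hdz, hAFe, ← map_mul]
  exact congrArg _ (e4 p d u' v').symm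

section Lp

variable {B : Type} [CommRing B]

lemma lp_decomp (f : LaurentPolynomial B) :
    f = ∑ n ∈ f.coeff.support, AddMonoidAlgebra.single n (f.coeff n) :=
  (AddMonoidAlgebra.sum_coeff_single f).symm

lemma toL_monomial (n : ℕ) (r : B) :
    Polynomial.toLaurent (Polynomial.C r * Polynomial.X ^ n) =
      (AddMonoidAlgebra.single (n : ℤ) r : LaurentPolynomial B) := by
  rw [Polynomial.toLaurent_C_mul_X_pow, LaurentPolynomial.single_eq_C_mul_T]

lemma toL_mem (p : Polynomial B) : Polynomial.toLaurent p ∈ LpIn (B := B) {n : ℤ | 0 ≤ n} := by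
  induction p using Polynomial.induction_on' with
  | add p q hp hq =>
    rw [map_add]
    exact add_mem hp hq
  | monomial n r =>
    rw [← Polynomial.C_mul_X_pow_eq_monomial, toL_monomial]
    exact single_mem_LpIn (s := {n : ℤ | 0 ≤ n}) (Int.natCast_nonneg n) r

lemma toL_surj (f : LaurentPolynomial B) (hf : f ∈ LpIn (B := B) {n : ℤ | 0 ≤ n}) :
    ∃ p, Polynomial.toLaurent p = f := by
  have h1 : ∀ s : Finset ℤ, (∀ n ∈ s, 0 ≤ n) →
      ∃ p, Polynomial.toLaurent p = ∑ n ∈ s, AddMonoidAlgebra.single n (f.coeff n) := by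
    classical
    intro s
    induction s using Finset.induction_on with
    | empty => exact fun _ => ⟨0, by rw [map_zero, Finset.sum_empty]⟩
    | insert n s hn ih =>
      intro hs
      obtain ⟨p, hp⟩ := ih (fun m hm => hs m (Finset.mem_insert_of_mem hm))
      have hn0 := hs n (Finset.mem_insert_self n s)
      obtain ⟨k, rfl⟩ := Int.eq_ofNat_of_zero_le hn0
      refine ⟨Polynomial.C (f.coeff k) * Polynomial.X ^ k + p, ?_⟩
      rw [map_add, toL_monomial, hp, Finset.sum_insert hn]
  obtain ⟨p, hp⟩ := h1 f.coeff.support (fun n hn => by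
    by_contra hcon
    exact (Finsupp.mem_support_iff.mp hn) (hf n hcon))
  exact ⟨p, by rw [hp, ← lp_decomp]⟩

lemma inv_mem {f : LaurentPolynomial B} {s t : Set ℤ} (h : ∀ n, -n ∈ s → n ∈ t)
    (hf : f ∈ LpIn s) : LaurentPolynomial.invert f ∈ LpIn t := by
  intro n hn
  rw [LaurentPolynomial.invert_apply]
  exact hf _ (fun h' => hn (h n h'))

lemma inv_inv (f : LaurentPolynomial B) :
    LaurentPolynomial.invert (LaurentPolynomial.invert f) = f :=
  LaurentPolynomial.involutive_invert f

end Lp

lemma mem_exR_ca (n : ℤ) : n ∈ exR ca ↔ 0 ≤ n := by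
  constructor
  · intro h
    exact h.1 (by simp [ca, Cov.one])
  · intro h
    exact ⟨fun _ => h, fun h' => absurd (Finset.mem_singleton_self false) h'⟩

lemma mem_exI_ca (n : ℤ) : n ∈ exI ca ↔ 0 ≤ n := by
  constructor
  · intro h
    exact h.1 (by simp [ca, Cov.one])
  · intro h
    exact ⟨fun _ => h, fun h' => absurd (Finset.mem_singleton_self false) h'⟩

lemma mem_exR_cb (n : ℤ) : n ∈ exR cb ↔ n ≤ 0 := by
  constructor
  · intro h
    exact h.2 (by simp [cb, Cov.one])
  · intro h
    exact ⟨fun h' => absurd (Finset.mem_singleton_self true) h', fun _ => h⟩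

lemma mem_exI_cb (n : ℤ) : n ∈ exI cb ↔ n ≤ -1 := by
  constructor
  · intro h
    exact h.2 (by simp [cb, Cov.one])
  · intro h
    exact ⟨fun h' => absurd (Finset.mem_singleton_self true) h', fun _ => h⟩


lemma sqf {L : Type} [Field L] (h2 : (2 : L) ≠ 0) {c0 : L} (c2 : L) (h0 : c0 ≠ 0) :
    Squarefree (Polynomial.C c0 + Polynomial.C c2 * Polynomial.X ^ 2 : Polynomial L) := by
  apply Polynomial.Separable.squarefree
  refine ⟨Polynomial.C c0⁻¹, - (Polynomial.C (c0⁻¹ * 2⁻¹) * Polynomial.X), ?_⟩
  have h1 : (Polynomial.C c0⁻¹ * Polynomial.C c0 : Polynomial L) = 1 := by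
    rw [← map_mul, inv_mul_cancel₀ h0, map_one]
  have h3 : (Polynomial.C (2⁻¹ : L) * 2 : Polynomial L) = 1 := by
    have h4 : (2 : Polynomial L) = Polynomial.C 2 := rfl
    rw [h4, ← map_mul, inv_mul_cancel₀ h2, map_one]
  rw [Polynomial.derivative_add, Polynomial.derivative_C, Polynomial.derivative_C_mul_X_pow,
    zero_add]
  simp only [map_mul, Nat.cast_ofNat, Polynomial.C_ofNat, Nat.add_one_sub_one, pow_one]
  linear_combination h1 - (Polynomial.C c0⁻¹ * Polynomial.C c2 * Polynomial.X ^ 2) * h3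

section Chart

variable {L : Type} [Field L] (a b : Lˣ)

/-- the comparison map -/
noncomputable def Fh (p : Polynomial L) (ψ : Polynomial L →+* LaurentPolynomial L)
    (g : LaurentPolynomial L) (h : ψ p = g * g * conQ a b) :
    QuadraticAlgebra (Polynomial L) p 0 →+* ConT a b where
  toFun z := ⟨ψ z.re, ψ z.im * g⟩
  map_one' := by
    apply QuadraticAlgebra.ext
    · change ψ 1 = 1
      rw [map_one]
    · change ψ 0 * g = 0
      rw [map_zero, zero_mul]
  map_zero' := by
    apply QuadraticAlgebra.ext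
    · change ψ 0 = 0
      rw [map_zero]
    · change ψ 0 * g = 0
      rw [map_zero, zero_mul]
  map_add' z w := by
    apply QuadraticAlgebra.ext
    · change ψ (z.re + w.re) = ψ z.re + ψ w.re
      rw [map_add]
    · change ψ (z.im + w.im) * g = ψ z.im * g + ψ w.im * g
      rw [map_add, add_mul]
  map_mul' z w := by
    apply QuadraticAlgebra.ext
    · rw [QuadraticAlgebra.re_mul, QuadraticAlgebra.re_mul]
      simp only [map_add, map_mul, h]
      ring
    · rw [QuadraticAlgebra.im_mul, QuadraticAlgebra.im_mul]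
      simp only [map_add, map_mul, map_zero]
      ring

lemma chart (h2 : (2 : L) ≠ 0) (k : Cov Bool) (c0 c2 : L) (h0 : c0 ≠ 0)
    (ψ : Polynomial L →+* LaurentPolynomial L) (g : LaurentPolynomial L)
    (h : ψ (Polynomial.C c0 + Polynomial.C c2 * Polynomial.X ^ 2) = g * g * conQ a b)
    (hinj : Function.Injective ψ) (hg : IsUnit g)
    (hre : ∀ f, f ∈ LpIn (B := L) (exR k) ↔ ∃ p, ψ p = f)
    (him : ∀ f, f ∈ LpIn (B := L) (exI k) ↔ ∃ p, ψ p * g = f)
    (hdom : IsDomain (conSub a b L k)) : IsDedekindDomain (conSub a b L k) := by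
  let F := Fh a b _ ψ g h
  have hF : Function.Injective F := by
    intro z w hzw
    have h1 : ψ z.re = ψ w.re := congrArg QuadraticAlgebra.re hzw
    have h3 : ψ z.im * g = ψ w.im * g := congrArg QuadraticAlgebra.im hzw
    exact QuadraticAlgebra.ext (hinj h1) (hinj (hg.mul_left_injective h3))
  let G : QuadraticAlgebra (Polynomial L) (Polynomial.C c0 + Polynomial.C c2 * Polynomial.X ^ 2) 0
      →+* conSub a b L k := F.codRestrict (conSub a b L k) (fun z =>
        ⟨(hre _).2 ⟨_, rfl⟩, (him _).2 ⟨_, rfl⟩⟩)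
  have hG : Function.Bijective G := by
    constructor
    · intro z w hzw
      exact hF (congrArg Subtype.val hzw)
    · rintro ⟨z, hz1, hz2⟩
      obtain ⟨p, hp⟩ := (hre _).1 hz1
      obtain ⟨q, hq⟩ := (him _).1 hz2
      refine ⟨⟨p, q⟩, ?_⟩
      apply Subtype.ext
      exact QuadraticAlgebra.ext hp hq
  let e := RingEquiv.ofBijective G hG
  have hD : IsDomain (QuadraticAlgebra (Polynomial L)
      (Polynomial.C c0 + Polynomial.C c2 * Polynomial.X ^ 2) 0) := e.toMulEquiv.isDomain _
  have h2' : IsUnit (2 : Polynomial L) := by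
    have h4 : (2 : Polynomial L) = Polynomial.C 2 := rfl
    rw [h4]
    exact (IsUnit.mk0 _ h2).map Polynomial.C
  have hded := ded (Polynomial.C c0 + Polynomial.C c2 * Polynomial.X ^ 2) (sqf h2 c2 h0) h2'
  have hic : IsIntegrallyClosed (conSub a b L k) := IsIntegrallyClosed.of_equiv e
  have hnt : IsNoetherianRing (conSub a b L k) := isNoetherianRing_of_ringEquiv _ e
  have hdim : Ring.DimensionLEOne (conSub a b L k) := Ring.DimensionLEOne.of_ringEquiv e.symm
  exact { hdom, hnt, hdim, hic with }

lemma ded_ca (h2 : (2 : L) ≠ 0) (hdom : IsDomain (conSub a b L ca)) :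
    IsDedekindDomain (conSub a b L ca) := by
  refine chart a b h2 ca (↑b⁻¹) (-(↑b⁻¹ * a)) b⁻¹.ne_zero Polynomial.toLaurent 1 ?_
    Polynomial.toLaurent_injective isUnit_one ?_ ?_ hdom
  · rw [map_add, map_mul, map_pow, Polynomial.toLaurent_C, Polynomial.toLaurent_C,
      Polynomial.toLaurent_X, LaurentPolynomial.T_pow, map_neg, map_mul]
    have e2 : (((2 : ℕ) : ℤ) * 1 : ℤ) = 2 := by norm_num
    rw [e2]
    ring
  · intro f
    have h : f ∈ LpIn (B := L) (exR ca) ↔ f ∈ LpIn (B := L) {n : ℤ | 0 ≤ n} := by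
      constructor
      · exact LpIn.mono (fun n hn => (mem_exR_ca n).mp hn)
      · exact LpIn.mono (fun n hn => (mem_exR_ca n).mpr hn)
    rw [h]
    constructor
    · exact toL_surj f
    · rintro ⟨p, rfl⟩
      exact toL_mem p
  · intro f
    have h : f ∈ LpIn (B := L) (exI ca) ↔ f ∈ LpIn (B := L) {n : ℤ | 0 ≤ n} := by
      constructor
      · exact LpIn.mono (fun n hn => (mem_exI_ca n).mp hn)
      · exact LpIn.mono (fun n hn => (mem_exI_ca n).mpr hn)
    rw [h]
    constructor
    · intro hf
      obtain ⟨p, hp⟩ := toL_surj f hf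
      exact ⟨p, by rw [mul_one]; exact hp⟩
    · rintro ⟨p, rfl⟩
      rw [mul_one]
      exact toL_mem p

lemma ded_cb (h2 : (2 : L) ≠ 0) (hdom : IsDomain (conSub a b L cb)) :
    IsDedekindDomain (conSub a b L cb) := by
  refine chart a b h2 cb (-(↑b⁻¹ * a)) (↑b⁻¹)
    (neg_ne_zero.2 (mul_ne_zero b⁻¹.ne_zero a.ne_zero))
    ((LaurentPolynomial.invert (R := L)).toRingEquiv.toRingHom.comp Polynomial.toLaurent)
    (LaurentPolynomial.T (-1)) ?_
    ((LaurentPolynomial.invert (R := L)).injective.comp Polynomial.toLaurent_injective)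
    (LaurentPolynomial.isUnit_T _) ?_ ?_ hdom
  · have hT : (LaurentPolynomial.T 2 : LaurentPolynomial L) * LaurentPolynomial.T (-2) = 1 := by
      rw [← LaurentPolynomial.T_add]
      norm_num
    have hTT : (LaurentPolynomial.T (-1) : LaurentPolynomial L) * LaurentPolynomial.T (-1) =
        LaurentPolynomial.T (-2) := by
      rw [← LaurentPolynomial.T_add]
      norm_num
    change LaurentPolynomial.invert (Polynomial.toLaurent _) = _
    rw [map_add, map_mul, map_pow, Polynomial.toLaurent_C, Polynomial.toLaurent_C,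
      Polynomial.toLaurent_X, LaurentPolynomial.T_pow, map_add, map_mul,
      LaurentPolynomial.invert_C, LaurentPolynomial.invert_C, LaurentPolynomial.invert_T, hTT,
      map_neg, map_mul]
    have e2 : (-(((2 : ℕ) : ℤ) * 1) : ℤ) = -2 := by norm_num
    rw [e2]
    linear_combination ((LaurentPolynomial.C (↑b⁻¹ : L)) * LaurentPolynomial.C (a : L)) * hT
  · intro f
    have h : f ∈ LpIn (B := L) (exR cb) ↔ f ∈ LpIn (B := L) {n : ℤ | n ≤ 0} := by
      constructor
      · exact LpIn.mono (fun n hn => (mem_exR_cb n).mp hn)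
      · exact LpIn.mono (fun n hn => (mem_exR_cb n).mpr hn)
    rw [h]
    constructor
    · intro hf
      obtain ⟨p, hp⟩ := toL_surj (LaurentPolynomial.invert f)
        (inv_mem (fun n hn => by
          have h1 : -n ≤ 0 := hn
          change 0 ≤ n
          omega) hf)
      refine ⟨p, ?_⟩
      change LaurentPolynomial.invert (Polynomial.toLaurent p) = f
      rw [hp, inv_inv]
    · rintro ⟨p, rfl⟩
      exact inv_mem (fun n hn => by
        have h1 : 0 ≤ -n := hn
        change n ≤ 0
        omega) (toL_mem p)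
  · intro f
    have h : f ∈ LpIn (B := L) (exI cb) ↔ f ∈ LpIn (B := L) {n : ℤ | n ≤ -1} := by
      constructor
      · exact LpIn.mono (fun n hn => (mem_exI_cb n).mp hn)
      · exact LpIn.mono (fun n hn => (mem_exI_cb n).mpr hn)
    rw [h]
    constructor
    · intro hf
      have hf1 : f * LaurentPolynomial.T 1 ∈ LpIn (B := L) {n : ℤ | n ≤ 0} :=
        LpIn.mul (s := {n : ℤ | n ≤ -1}) (t := {1}) (fun x hx y hy => by
          rw [Set.mem_singleton_iff] at hy
          have h1 : x ≤ -1 := hx
          change x + y ≤ 0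
          omega) hf (single_mem_LpIn (Set.mem_singleton 1) _)
      obtain ⟨p, hp⟩ := toL_surj (LaurentPolynomial.invert (f * LaurentPolynomial.T 1))
        (inv_mem (fun n hn => by
          have h1 : -n ≤ 0 := hn
          change 0 ≤ n
          omega) hf1)
      refine ⟨p, ?_⟩
      change LaurentPolynomial.invert (Polynomial.toLaurent p) * _ = f
      rw [hp, inv_inv, LaurentPolynomial.mul_T_assoc]
      norm_num
    · rintro ⟨p, rfl⟩
      refine LpIn.mul (s := {n : ℤ | n ≤ 0}) (t := {-1}) (fun x hx y hy => by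
          rw [Set.mem_singleton_iff] at hy
          have h1 : x ≤ 0 := hx
          change x + y ≤ -1
          omega) ?_ (single_mem_LpIn (Set.mem_singleton (-1)) _)
      exact inv_mem (fun n hn => by
        have h1 : 0 ≤ -n := hn
        change n ≤ 0
        omega) (toL_mem p)

end Chart

end CDD_

theorem cdd_proof (hCDM : Stmt_CDM) (hCLA : Stmt_CLA) : Stmt_CDD := by
  intro L _ a b h2 k
  obtain rfl | rfl | rfl := cov_cases k
  · exact CDD_.ded_ca a b h2 (hCDM L a b h2 ca)
  · exact CDD_.ded_cb a b h2 (hCDM L a b h2 cb)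
  · have hca : IsDedekindDomain ((Cnc a b L).ring ca) := CDD_.ded_ca a b h2 (hCDM L a b h2 ca)
    let _ : Algebra ((Cnc a b L).ring ca) ((Cnc a b L).ring cab) :=
      ((Cnc a b L).map (homOfLE cab_le_ca).op).hom.toRingHom.toAlgebra
    have hloc : IsLocalization.Away (TA (K := L) a b) ((Cnc a b L).ring cab) := hCLA L L a b
    have hdom : IsDomain ((Cnc a b L).ring cab) := hCDM L a b h2 cab
    have hT : TA (K := L) a b ≠ 0 := by
      intro h0
      have h1 : IsUnit (algebraMap ((Cnc a b L).ring ca) ((Cnc a b L).ring cab)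
          (TA (K := L) a b)) := IsLocalization.Away.algebraMap_isUnit _
      rw [h0, map_zero] at h1
      exact not_isUnit_zero h1
    exact IsLocalization.isDedekindDomain ((Cnc a b L).ring ca)
      (powers_le_nonZeroDivisors_of_noZeroDivisors hT) _

end Pool.CRD.Cn
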