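import Pool.Agent.CRD.Cnc.Stmts

/-!
# CRD / Cnc / CDM: the charts of the conic over a field are domains
-/

open CategoryTheory Opposite Limits

namespace Pool.CRD.Cn

namespace CDM_

open Polynomial

/-- the polynomial `b⁻¹ (1 - a X^2)` -/
noncomputable def qp {L : Type} [Field L] (a b : L) : L[X] := C b⁻¹ * (1 - C a * X ^ 2)

lemma qp_sqf {L : Type} [Field L] {a b : L} (hb : b ≠ 0) (h2 : (2 : L) ≠ 0) :
    Squarefree (qp a b) := by
  apply Polynomial.Separable.squarefree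
  refine ⟨C b, C (-b / 2) * X, ?_⟩
  have hd : derivative (qp a b) = C b⁻¹ * (-(C a * (C 2 * X))) := by
    rw [qp]
    simp
    left; left
    rw [← one_add_one_eq_two, C_add, C_1]
  rw [hd, qp]
  have e1 : (C b : L[X]) * C b⁻¹ = 1 := by rw [← C_mul, mul_inv_cancel₀ hb, C_1]
  have e2 : (C (-b / 2) : L[X]) * C 2 = - C b := by
    rw [← C_mul, div_mul_cancel₀ _ h2, C_neg]
  calc C b * (C b⁻¹ * (1 - C a * X ^ 2)) + C (-b / 2) * X * (C b⁻¹ * (-(C a * (C 2 * X))))
      = (C b * C b⁻¹) * (1 - C a * X ^ 2) - (C (-b / 2) * C 2) * C b⁻¹ * C a * X ^ 2 := by ring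
    _ = (C b * C b⁻¹) * (1 - C a * X ^ 2) + (C b * C b⁻¹) * C a * X ^ 2 := by rw [e2]; ring
    _ = 1 := by rw [e1]; ring

lemma qp_ne_unit {L : Type} [Field L] {a b : L} (ha : a ≠ 0) (hb : b ≠ 0) :
    (qp a b).natDegree = 2 := by
  have h : qp a b = C (-(b⁻¹ * a)) * X ^ 2 + C 0 * X + C b⁻¹ := by
    rw [qp]
    simp only [map_neg, map_mul, map_zero]
    ring
  rw [h]
  apply natDegree_quadratic
  exact neg_ne_zero.2 (mul_ne_zero (inv_ne_zero hb) ha)

lemma key {L : Type} [Field L] {a b : L} (ha : a ≠ 0) (hb : b ≠ 0) (h2 : (2 : L) ≠ 0) :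
    ∀ (n : ℕ) (x y : L[X]), y.natDegree ≤ n → x ^ 2 = qp a b * y ^ 2 → y = 0 := by
  have hsq := qp_sqf (a := a) hb h2
  have hrad : IsRadical (qp a b) := hsq.isRadical
  have hq0 : qp a b ≠ 0 := hsq.ne_zero
  have hdeg := qp_ne_unit ha hb
  intro n
  induction n with
  | zero =>
    intro x y hy h
    by_contra hy0
    have h1 : qp a b ∣ x := hrad 2 x ⟨_, h⟩
    obtain ⟨x', rfl⟩ := h1
    have h3 : qp a b * x' ^ 2 = y ^ 2 := by
      apply mul_left_cancel₀ hq0
      rw [← h]; ring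
    have h4 : qp a b ∣ y := hrad 2 y ⟨_, h3.symm⟩
    have := natDegree_le_of_dvd h4 hy0
    omega
  | succ n ih =>
    intro x y hy h
    by_contra hy0
    have h1 : qp a b ∣ x := hrad 2 x ⟨_, h⟩
    obtain ⟨x', rfl⟩ := h1
    have h3 : qp a b * x' ^ 2 = y ^ 2 := by
      apply mul_left_cancel₀ hq0
      rw [← h]; ring
    have h4 : qp a b ∣ y := hrad 2 y ⟨_, h3.symm⟩
    obtain ⟨y', rfl⟩ := h4
    have hy0' : y' ≠ 0 := right_ne_zero_of_mul hy0
    have h5 : x' ^ 2 = qp a b * y' ^ 2 := by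
      apply mul_left_cancel₀ hq0
      rw [h3]; ring
    have h6 : (qp a b * y').natDegree = 2 + y'.natDegree := by
      rw [natDegree_mul hq0 hy0', hdeg]
    exact hy0' (ih x' y' (by omega) h5)

lemma keyL {L : Type} [Field L] (a b : Lˣ) (h2 : (2 : L) ≠ 0) (x y : LaurentPolynomial L)
    (h : x * x = conQ a b * (y * y)) : y = 0 := by
  obtain ⟨n, x', hx⟩ := LaurentPolynomial.exists_T_pow x
  obtain ⟨m, y', hy⟩ := LaurentPolynomial.exists_T_pow y
  have hq : conQ a b = toLaurent (qp (a : L) (b : L)) := by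
    rw [conQ, qp]
    simp only [map_mul, map_sub, map_one, toLaurent_C, toLaurent_X_pow, Units.val_inv_eq_inv_val]
    norm_num
  have e1 : toLaurent (x' * X ^ m) = x * LaurentPolynomial.T ((n : ℤ) + m) := by
    rw [map_mul, hx, toLaurent_X_pow, mul_assoc, ← LaurentPolynomial.T_add]
  have e2 : toLaurent (y' * X ^ n) = y * LaurentPolynomial.T ((n : ℤ) + m) := by
    rw [map_mul, hy, toLaurent_X_pow, mul_assoc, ← LaurentPolynomial.T_add, add_comm (m : ℤ)]
  have e3 : toLaurent ((x' * X ^ m) ^ 2) =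
      toLaurent (qp (a : L) (b : L) * (y' * X ^ n) ^ 2) := by
    rw [map_mul, map_pow, map_pow, e1, e2, ← hq]
    calc (x * LaurentPolynomial.T ((n : ℤ) + m)) ^ 2
        = (x * x) * (LaurentPolynomial.T ((n : ℤ) + m)) ^ 2 := by ring
      _ = _ := by rw [h]; ring
  have e4 := key (Units.ne_zero a) (Units.ne_zero b) h2 _ _ _ le_rfl
    (toLaurent_injective e3)
  have e5 : y' = 0 := by
    rcases mul_eq_zero.1 e4 with h' | h'
    · exact h'
    · exact absurd h' (pow_ne_zero _ X_ne_zero)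
  rw [e5, map_zero] at hy
  have e6 : y * LaurentPolynomial.T (m : ℤ) * LaurentPolynomial.T (-(m : ℤ)) = 0 := by
    rw [← hy, zero_mul]
  rwa [mul_assoc, ← LaurentPolynomial.T_add, add_neg_cancel, LaurentPolynomial.T_zero,
    mul_one] at e6

lemma norm_zero {L : Type} [Field L] (a b : Lˣ) (h2 : (2 : L) ≠ 0) (z : ConT a b)
    (h : z.norm = 0) : z = 0 := by
  rw [QuadraticAlgebra.norm_def, zero_mul, zero_mul, add_zero, sub_eq_zero, mul_assoc] at h
  have h1 := keyL a b h2 _ _ h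
  rw [h1, mul_zero, mul_zero, mul_self_eq_zero] at h
  ext
  · rw [h]; rfl
  · rw [h1]; rfl

lemma conT_domain {L : Type} [Field L] (a b : Lˣ) (h2 : (2 : L) ≠ 0) : IsDomain (ConT a b) := by
  haveI : NoZeroDivisors (ConT a b) := ⟨fun {x y} h => by
    have h1 : x.norm * y.norm = 0 := by
      rw [← map_mul, h, QuadraticAlgebra.norm_zero]
    rcases mul_eq_zero.1 h1 with h' | h'
    · exact Or.inl (norm_zero a b h2 x h')
    · exact Or.inr (norm_zero a b h2 y h')⟩
  haveI : Nontrivial (ConT a b) := inferInstance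
  exact NoZeroDivisors.to_isDomain _

end CDM_

theorem cdm_proof : Stmt_CDM := by
  intro L _ a b h2 k
  haveI := CDM_.conT_domain a b h2
  exact inferInstanceAs (IsDomain (conSub a b L k))

end Pool.CRD.Cn
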