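import Pool.Agent.CRD.Cnc.Stmts

/-!
# CRD / Cnc / CFD: quotients of the chart rings of the conic by nonzero elements are finite
dimensional
-/

open CategoryTheory Opposite Limits

namespace Pool.CRD.Cn

open LaurentPolynomial

lemma CFD_exp {L : Type} [Field L] (f : LaurentPolynomial L) :
    f = ∑ i ∈ f.coeff.support, (f.coeff i) • (T i : LaurentPolynomial L) := by
  classical
  ext n
  simp only [AddMonoidAlgebra.coeff_sum, AddMonoidAlgebra.coeff_smul]
  rw [Finsupp.finsetSum_apply]
  simp only [Finsupp.smul_apply, smul_eq_mul, LaurentPolynomial.T]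
  by_cases hn : n ∈ f.coeff.support
  · rw [Finset.sum_eq_single n]
    · simp
    · intro b _ hb
      rw [AddMonoidAlgebra.coeff_single, Finsupp.single_eq_of_ne (Ne.symm hb), mul_zero]
    · intro h'; exact absurd hn h'
  · rw [Finset.sum_eq_zero, Finsupp.notMem_support_iff.1 hn]
    intro b hb
    rw [AddMonoidAlgebra.coeff_single, Finsupp.single_eq_of_ne, mul_zero]
    rintro rfl; exact hn hb

lemma CFD_step {L : Type} [Field L] (N : LaurentPolynomial L) (V : Submodule L (LaurentPolynomial L))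
    (h s : ℤ) (hh : h ∈ N.coeff.support)
    (h1 : N * T s ∈ V) (h2 : ∀ i ∈ N.coeff.support, i ≠ h → (T (i + s) : LaurentPolynomial L) ∈ V) :
    (T (h + s) : LaurentPolynomial L) ∈ V := by
  classical
  have e1 := CFD_exp N
  have e2 : N * T s = ∑ i ∈ N.coeff.support, (N.coeff i) • (T (i + s) : LaurentPolynomial L) := by
    conv_lhs => rw [e1]
    rw [Finset.sum_mul]
    refine Finset.sum_congr rfl (fun i _ => ?_)
    rw [smul_mul_assoc, ← T_add]
  rw [← Finset.add_sum_erase _ _ hh] at e2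
  have e3 : (N.coeff h) • (T (h + s) : LaurentPolynomial L) ∈ V := by
    have : (N.coeff h) • (T (h + s) : LaurentPolynomial L) =
        N * T s - ∑ i ∈ N.coeff.support.erase h, (N.coeff i) • (T (i + s) : LaurentPolynomial L) := by
      rw [e2]; abel
    rw [this]
    refine sub_mem h1 (sum_mem (fun i hi => V.smul_mem _ ?_))
    exact h2 i (Finset.mem_of_mem_erase hi) (Finset.ne_of_mem_erase hi)
  have hne : N.coeff h ≠ 0 := Finsupp.mem_support_iff.1 hh
  have := V.smul_mem (N.coeff h)⁻¹ e3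
  rwa [smul_smul, inv_mul_cancel₀ hne, one_smul] at this

lemma CFD_key {L : Type} [Field L] (N : LaurentPolynomial L) (hN : N ≠ 0) :
    ∃ B : ℕ, ∀ (E : Set ℤ), (∀ m ∈ E, 1 ≤ m → ∀ j : ℤ, 0 ≤ j → j ∈ E) →
      (∀ m ∈ E, m ≤ -1 → ∀ j : ℤ, j ≤ -1 → j ∈ E) →
      ∀ V : Submodule L (LaurentPolynomial L),
      (∀ s ∈ E, N * T s ∈ V) → (∀ m ∈ E, m.natAbs ≤ B → (T m : LaurentPolynomial L) ∈ V) →
      ∀ m ∈ E, (T m : LaurentPolynomial L) ∈ V := by
  classical
  have hne : N.coeff.support.Nonempty := by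
    rw [Finset.nonempty_iff_ne_empty]
    intro h
    apply hN
    have h' : N.coeff = 0 := Finsupp.support_eq_empty.1 h
    ext n
    rw [h']; rfl
  obtain ⟨h, hh, hmax⟩ := N.coeff.support.exists_max_image id hne
  obtain ⟨l, hl, hmin⟩ := N.coeff.support.exists_min_image id hne
  simp only [id] at hmax hmin
  refine ⟨h.natAbs + l.natAbs + 1, fun E hE1 hE2 V hV1 hV2 => ?_⟩
  have main : ∀ n : ℕ, ∀ m ∈ E, m.natAbs = n → (T m : LaurentPolynomial L) ∈ V := by
    intro n
    induction n using Nat.strong_induction_on with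
    | _ n ih =>
      intro m hm hmn
      by_cases hB : m.natAbs ≤ h.natAbs + l.natAbs + 1
      · exact hV2 m hm hB
      · rcases le_or_gt 0 m with h0 | h0
        · have e : m = h + (m - h) := by ring
          rw [e]
          refine CFD_step N V h (m - h) hh (hV1 _ (hE1 m hm (by omega) _ (by omega))) ?_
          intro i hi hih
          have h1 := hmax i hi
          have h2 := hmin i hi
          refine ih (i + (m - h)).natAbs (by omega) _ (hE1 m hm (by omega) _ (by omega)) rfl
        · have e : m = l + (m - l) := by ring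
          rw [e]
          refine CFD_step N V l (m - l) hl (hV1 _ (hE2 m hm (by omega) _ (by omega))) ?_
          intro i hi hih
          have h1 := hmax i hi
          have h2 := hmin i hi
          refine ih (i + (m - l)).natAbs (by omega) _ (hE2 m hm (by omega) _ (by omega)) rfl
  exact fun m hm => main _ m hm rfl

lemma CFD_LpIn {L : Type} [Field L] {E : Set ℤ} {V : Submodule L (LaurentPolynomial L)}
    (h : ∀ m ∈ E, (T m : LaurentPolynomial L) ∈ V) {f : LaurentPolynomial L} (hf : f ∈ LpIn E) :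
    f ∈ V := by
  classical
  rw [CFD_exp f]
  refine sum_mem (fun i hi => V.smul_mem _ (h i ?_))
  by_contra h'
  exact (Finsupp.mem_support_iff.1 hi) (hf i h')

/-- the inclusion of the real part -/
noncomputable def CFD_inl {L : Type} [Field L] (a b : Lˣ) : LaurentPolynomial L →ₗ[L] ConT a b where
  toFun f := ⟨f, 0⟩
  map_add' f g := by ext <;> simp
  map_smul' r f := by ext <;> simp

/-- the inclusion of the imaginary part -/
noncomputable def CFD_inr {L : Type} [Field L] (a b : Lˣ) : LaurentPolynomial L →ₗ[L] ConT a b where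
  toFun f := ⟨0, f⟩
  map_add' f g := by ext <;> simp
  map_smul' r f := by ext <;> simp

lemma CFD_exR (k : Cov Bool) : (∀ m ∈ exR k, 1 ≤ m → ∀ j : ℤ, 0 ≤ j → j ∈ exR k) ∧
    (∀ m ∈ exR k, m ≤ -1 → ∀ j : ℤ, j ≤ -1 → j ∈ exR k) := by
  refine ⟨fun m hm h1 j hj => ⟨fun _ => hj, fun h => ?_⟩,
    fun m hm h1 j hj => ⟨fun h => ?_, fun h => by omega⟩⟩
  · have := hm.2 h; omega
  · have := hm.1 h; omega

lemma CFD_exI (k : Cov Bool) : (∀ m ∈ exI k, 1 ≤ m → ∀ j : ℤ, 0 ≤ j → j ∈ exI k) ∧
    (∀ m ∈ exI k, m ≤ -1 → ∀ j : ℤ, j ≤ -1 → j ∈ exI k) := by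
  refine ⟨fun m hm h1 j hj => ⟨fun _ => hj, fun h => ?_⟩,
    fun m hm h1 j hj => ⟨fun h => ?_, fun h => by omega⟩⟩
  · have := hm.2 h; omega
  · have := hm.1 h; omega

lemma CFD_main {L : Type} [Field L] (a b : Lˣ) (k : Cov Bool) (hdom : IsDomain (conSub a b L k))
    (x : conSub a b L k) (hx : x ≠ 0) :
    Module.Finite L (conSub a b L k ⧸ Ideal.span {x}) := by
  classical
  -- the norm
  let y : conSub a b L k := ⟨⟨x.1.re, -x.1.im⟩, x.2.1, neg_mem x.2.2⟩
  have hy : y ≠ 0 := by
    intro h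
    apply hx
    have h1 := congrArg Subtype.val h
    apply Subtype.ext
    have h2 := congrArg QuadraticAlgebra.re h1
    have h3 := congrArg QuadraticAlgebra.im h1
    change x.1.re = 0 at h2
    change -x.1.im = 0 at h3
    ext1
    · exact h2
    · exact neg_eq_zero.1 h3
  have hxy : x * y ≠ 0 := mul_ne_zero hx hy
  set N : LaurentPolynomial L := (x * y).1.re with hNdef
  have him : (x * y).1.im = 0 := by
    change (x.1 * y.1).im = 0
    rw [QuadraticAlgebra.im_mul]
    change x.1.re * -x.1.im + x.1.im * x.1.re + 0 * x.1.im * -x.1.im = 0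
    ring
  have hval : (x * y).1 = CFD_inl a b N := by
    apply QuadraticAlgebra.ext
    · rfl
    · exact him
  have hN : N ≠ 0 := by
    intro h
    apply hxy
    apply Subtype.ext
    rw [hval, h, map_zero]; rfl
  obtain ⟨B, hB⟩ := CFD_key N hN
  let W₀ : Set (ConT a b) := ((fun m : ℤ => CFD_inl a b (T m)) '' (Set.Icc (-(B : ℤ)) B)) ∪
    ((fun m : ℤ => CFD_inr a b (T m)) '' (Set.Icc (-(B : ℤ)) B))
  have hW₀ : W₀.Finite := (Set.Finite.image _ (Set.finite_Icc _ _)).union
    (Set.Finite.image _ (Set.finite_Icc _ _))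
  let W : Set (conSub a b L k) := Subtype.val ⁻¹' W₀
  have hW : W.Finite := hW₀.preimage Subtype.val_injective.injOn
  let I : Ideal (conSub a b L k) := Ideal.span {x}
  let Z : Submodule L (conSub a b L k) := Submodule.restrictScalars L I ⊔ Submodule.span L W
  have hZI : ∀ z ∈ I, z ∈ Z := fun z hz => (le_sup_left : Submodule.restrictScalars L I ≤ Z) hz
  have hZW : ∀ z ∈ W, z ∈ Z := fun z hz =>
    (le_sup_right : Submodule.span L W ≤ Z) (Submodule.subset_span hz)
  let U : Submodule L (ConT a b) := Z.map (conSub a b L k).val.toLinearMap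
  have hxyI : x * y ∈ I := Ideal.mul_mem_right _ _ (Ideal.subset_span rfl)
  have hR : ∀ m ∈ exR k, (T m : LaurentPolynomial L) ∈ U.comap (CFD_inl a b) := by
    refine hB (exR k) (CFD_exR k).1 (CFD_exR k).2 _ (fun s hs => ?_) (fun m hm hmB => ?_)
    · refine ⟨x * y * ⟨CFD_inl a b (T s), single_mem_LpIn hs _, zero_mem _⟩,
        hZI _ (Ideal.mul_mem_right _ _ hxyI), ?_⟩
      change (x * y).1 * CFD_inl a b (T s) = CFD_inl a b (N * T s)
      rw [hval]
      apply QuadraticAlgebra.ext
      · rw [QuadraticAlgebra.re_mul]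
        change N * T s + _ * 0 * 0 = N * T s
        ring
      · rw [QuadraticAlgebra.im_mul]
        change N * 0 + 0 * T s + 0 * 0 * 0 = 0
        ring
    · refine ⟨⟨CFD_inl a b (T m), single_mem_LpIn hm _, zero_mem _⟩, hZW _ ?_, rfl⟩
      exact Or.inl ⟨m, ⟨by omega, by omega⟩, rfl⟩
  have hI : ∀ m ∈ exI k, (T m : LaurentPolynomial L) ∈ U.comap (CFD_inr a b) := by
    refine hB (exI k) (CFD_exI k).1 (CFD_exI k).2 _ (fun s hs => ?_) (fun m hm hmB => ?_)
    · refine ⟨x * y * ⟨CFD_inr a b (T s), zero_mem _, single_mem_LpIn hs _⟩,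
        hZI _ (Ideal.mul_mem_right _ _ hxyI), ?_⟩
      change (x * y).1 * CFD_inr a b (T s) = CFD_inr a b (N * T s)
      rw [hval]
      apply QuadraticAlgebra.ext
      · rw [QuadraticAlgebra.re_mul]
        change N * 0 + _ * 0 * T s = 0
        ring
      · rw [QuadraticAlgebra.im_mul]
        change N * T s + 0 * 0 + 0 * 0 * T s = N * T s
        ring
    · refine ⟨⟨CFD_inr a b (T m), zero_mem _, single_mem_LpIn hm _⟩, hZW _ ?_, rfl⟩
      exact Or.inr ⟨m, ⟨by omega, by omega⟩, rfl⟩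
  have htop : ∀ z : conSub a b L k, z ∈ Z := by
    intro z
    have h1 : CFD_inl a b z.1.re ∈ U := CFD_LpIn (V := U.comap (CFD_inl a b)) hR z.2.1
    have h2 : CFD_inr a b z.1.im ∈ U := CFD_LpIn (V := U.comap (CFD_inr a b)) hI z.2.2
    have h3 : z.1 ∈ U := by
      have : z.1 = CFD_inl a b z.1.re + CFD_inr a b z.1.im := by
        apply QuadraticAlgebra.ext
        · change _ = z.1.re + 0; rw [add_zero]
        · change _ = 0 + z.1.im; rw [zero_add]
      rw [this]; exact add_mem h1 h2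
    obtain ⟨w, hw, hwz⟩ := h3
    have : w = z := Subtype.ext hwz
    exact this ▸ hw
  let π : conSub a b L k →ₗ[L] (conSub a b L k ⧸ I) := (Ideal.Quotient.mkₐ L I).toLinearMap
  have hπ : Function.Surjective π := Ideal.Quotient.mkₐ_surjective L I
  refine ⟨⟨(hW.image π).toFinset, ?_⟩⟩
  rw [Set.Finite.coe_toFinset, eq_top_iff]
  rintro q -
  obtain ⟨z, rfl⟩ := hπ q
  obtain ⟨u, hu, w, hw, rfl⟩ := Submodule.mem_sup.1 (htop z)
  have hu0 : π u = 0 := Ideal.Quotient.eq_zero_iff_mem.2 hu
  rw [map_add, hu0, zero_add, ← Submodule.map_span]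
  exact ⟨w, hw, rfl⟩

theorem cfd_proof (_hCDM : Stmt_CDM) : Stmt_CFD := by
  intro L _ a b h2 k x hx
  exact CFD_main a b k (_hCDM L a b h2 k) x hx

end Pool.CRD.Cn
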