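import Pool.Agent.CRD.Cnc.Stmts

open CategoryTheory Opposite Limits

namespace Pool.CRD.Cn

namespace CHA_

/-- additivity of `dim ker - dim coker` (from the snake lemma) -/
theorem euler {L A₁ A₂ A₃ B₁ B₂ B₃ : Type} [Field L]
    [AddCommGroup A₁] [Module L A₁] [AddCommGroup A₂] [Module L A₂] [AddCommGroup A₃] [Module L A₃]
    [AddCommGroup B₁] [Module L B₁] [AddCommGroup B₂] [Module L B₂] [AddCommGroup B₃] [Module L B₃]
    (i₁ : A₁ →ₗ[L] B₁) (i₂ : A₂ →ₗ[L] B₂) (i₃ : A₃ →ₗ[L] B₃)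
    (f₁ : A₁ →ₗ[L] A₂) (f₂ : A₂ →ₗ[L] A₃) (g₁ : B₁ →ₗ[L] B₂) (g₂ : B₂ →ₗ[L] B₃)
    (hf : Function.Exact f₁ f₂) (hg : Function.Exact g₁ g₂)
    (h₁ : g₁.comp i₁ = i₂.comp f₁) (h₂ : g₂.comp i₂ = i₃.comp f₂)
    (hf₁ : Function.Injective f₁) (hf₂ : Function.Surjective f₂)
    (hg₁ : Function.Injective g₁) (hg₂ : Function.Surjective g₂)
    [Module.Finite L (LinearMap.ker i₁)] [Module.Finite L (LinearMap.ker i₂)]
    [Module.Finite L (LinearMap.ker i₃)] [Module.Finite L (B₁ ⧸ LinearMap.range i₁)]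
    [Module.Finite L (B₂ ⧸ LinearMap.range i₂)] [Module.Finite L (B₃ ⧸ LinearMap.range i₃)] :
    (Module.finrank L (LinearMap.ker i₂) : ℤ) - Module.finrank L (B₂ ⧸ LinearMap.range i₂) =
      ((Module.finrank L (LinearMap.ker i₁) : ℤ) - Module.finrank L (B₁ ⧸ LinearMap.range i₁)) +
      ((Module.finrank L (LinearMap.ker i₃) : ℤ) - Module.finrank L (B₃ ⧸ LinearMap.range i₃)) := by
  have e₁ : ∀ x, g₁ (i₁ x) = i₂ (f₁ x) := fun x => LinearMap.congr_fun h₁ x
  have e₂ : ∀ x, g₂ (i₂ x) = i₃ (f₂ x) := fun x => LinearMap.congr_fun h₂ x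
  -- the maps between kernels
  let F₁ : LinearMap.ker i₁ →ₗ[L] LinearMap.ker i₂ := f₁.restrict fun x hx => by
    rw [LinearMap.mem_ker, ← e₁, LinearMap.mem_ker.1 hx, map_zero]
  let F₂ : LinearMap.ker i₂ →ₗ[L] LinearMap.ker i₃ := f₂.restrict fun x hx => by
    rw [LinearMap.mem_ker, ← e₂, LinearMap.mem_ker.1 hx, map_zero]
  let G₁ : (B₁ ⧸ LinearMap.range i₁) →ₗ[L] (B₂ ⧸ LinearMap.range i₂) :=
    Submodule.mapQ _ _ g₁ (by
      rintro _ ⟨x, rfl⟩
      exact ⟨f₁ x, (e₁ x).symm⟩)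
  let G₂ : (B₂ ⧸ LinearMap.range i₂) →ₗ[L] (B₃ ⧸ LinearMap.range i₃) :=
    Submodule.mapQ _ _ g₂ (by
      rintro _ ⟨x, rfl⟩
      exact ⟨f₂ x, (e₂ x).symm⟩)
  let δ := SnakeLemma.δ' i₁ i₂ i₃ f₁ f₂ hf g₁ g₂ hg h₁ h₂ (LinearMap.ker i₃).subtype
    (LinearMap.exact_subtype_ker_map i₃) (LinearMap.range i₁).mkQ
    (LinearMap.exact_map_mkQ_range i₁) hf₂ hg₁
  have x1 : LinearMap.ker F₁ = ⊥ := by
    rw [LinearMap.ker_eq_bot]
    intro x y hxy
    apply Subtype.ext
    apply hf₁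
    exact congrArg Subtype.val hxy
  have x2 : LinearMap.ker F₂ = LinearMap.range F₁ := by
    ext x
    rw [LinearMap.mem_ker, LinearMap.mem_range]
    constructor
    · intro hx
      have hx' : f₂ x = 0 := congrArg Subtype.val hx
      obtain ⟨y, hy⟩ := (hf x).1 hx'
      have hyk : y ∈ LinearMap.ker i₁ := by
        rw [LinearMap.mem_ker]
        apply hg₁
        rw [e₁, hy, map_zero]
        exact x.2
      exact ⟨⟨y, hyk⟩, Subtype.ext hy⟩
    · rintro ⟨y, rfl⟩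
      apply Subtype.ext
      exact (hf (f₁ y)).2 ⟨y, rfl⟩
  have x3 : LinearMap.ker δ = LinearMap.range F₂ := by
    have h := SnakeLemma.exact_δ'_right i₁ i₂ i₃ f₁ f₂ hf g₁ g₂ hg h₁ h₂
      (LinearMap.ker i₂).subtype (LinearMap.exact_subtype_ker_map i₂) (LinearMap.ker i₃).subtype
      (LinearMap.exact_subtype_ker_map i₃) (LinearMap.range i₁).mkQ
      (LinearMap.exact_map_mkQ_range i₁) hf₂ hg₁ F₂ rfl Subtype.val_injective
    exact h.linearMap_ker_eq
  have x4 : LinearMap.ker G₁ = LinearMap.range δ := by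
    have h := SnakeLemma.exact_δ'_left i₁ i₂ i₃ f₁ f₂ hf g₁ g₂ hg h₁ h₂
      (LinearMap.ker i₃).subtype
      (LinearMap.exact_subtype_ker_map i₃) (LinearMap.range i₁).mkQ
      (LinearMap.exact_map_mkQ_range i₁) (LinearMap.range i₂).mkQ
      (LinearMap.exact_map_mkQ_range i₂) hf₂ hg₁ G₁ rfl (Submodule.mkQ_surjective _)
    exact h.linearMap_ker_eq
  have x5 : LinearMap.ker G₂ = LinearMap.range G₁ := by
    ext y
    obtain ⟨y, rfl⟩ := Submodule.mkQ_surjective _ y
    rw [LinearMap.mem_ker, LinearMap.mem_range]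
    constructor
    · intro hy
      have hy' : g₂ y ∈ LinearMap.range i₃ := (Submodule.Quotient.mk_eq_zero _).1 hy
      obtain ⟨a, ha⟩ := hy'
      obtain ⟨b, rfl⟩ := hf₂ a
      rw [← e₂] at ha
      have h0 : g₂ (y - i₂ b) = 0 := by rw [map_sub, ha, sub_self]
      obtain ⟨z, hz⟩ := (hg _).1 h0
      refine ⟨(LinearMap.range i₁).mkQ z, ?_⟩
      change (LinearMap.range i₂).mkQ (g₁ z) = _
      rw [hz]
      rw [← sub_eq_zero, ← map_sub]
      apply (Submodule.Quotient.mk_eq_zero _).2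
      refine ⟨-b, ?_⟩
      rw [map_neg]
      abel
    · rintro ⟨z, hz⟩
      rw [← hz]
      obtain ⟨z, rfl⟩ := Submodule.mkQ_surjective _ z
      change (LinearMap.range i₃).mkQ (g₂ (g₁ z)) = 0
      rw [(hg (g₁ z)).2 ⟨z, rfl⟩, map_zero]
  have x6 : LinearMap.range G₂ = ⊤ := by
    rw [LinearMap.range_eq_top]
    intro y
    obtain ⟨y, rfl⟩ := Submodule.mkQ_surjective _ y
    obtain ⟨z, rfl⟩ := hg₂ y
    exact ⟨(LinearMap.range i₂).mkQ z, rfl⟩
  have r1 := LinearMap.finrank_range_add_finrank_ker F₁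
  have r2 := LinearMap.finrank_range_add_finrank_ker F₂
  have r3 := LinearMap.finrank_range_add_finrank_ker δ
  have r4 := LinearMap.finrank_range_add_finrank_ker G₁
  have r5 := LinearMap.finrank_range_add_finrank_ker G₂
  rw [x1, finrank_bot] at r1
  rw [x2] at r2
  rw [x3] at r3
  rw [x4] at r4
  rw [x5, x6, finrank_top] at r5
  omega

section

variable {K : Type} [CommRing K] {C : Type} [SmallCategory C] {R : PAlg K C}

/-- a morphism of modules on a chart, as a `K`-linear map -/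
noncomputable def appK {M N : PMod R} (φ : M ⟶ N) (U : C) : sec M U →ₗ[K] sec N U where
  toFun x := φ.app (op U) x
  map_add' x y := map_add (φ.app (op U)).hom x y
  map_smul' k x := (φ.app (op U)).hom.map_smul (cst R (op U) k) x

lemma appK_rs {M N : PMod R} (φ : M ⟶ N) {U V : C} (f : V ⟶ U) (x : sec M U) :
    appK φ V (resK M f x) = resK N f (appK φ U x) :=
  PresheafOfModules.naturality_apply φ f.op x

end

section

variable {K : Type} [CommRing K] {R : PAlg K (Cov Bool)}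

/-- the map on Čech cochains -/
noncomputable def app2 {M N : PMod R} (φ : M ⟶ N) :
    (sec M ca × sec M cb) →ₗ[K] (sec N ca × sec N cb) :=
  (appK φ ca).prodMap (appK φ cb)

lemma comm {M N : PMod R} (φ : M ⟶ N) :
    (appK φ cab).comp (dC M) = (dC N).comp (app2 φ) := by
  apply LinearMap.ext
  rintro ⟨x, y⟩
  change appK φ cab (rA M x - rB M y) = rA N (appK φ ca x) - rB N (appK φ cb y)
  rw [map_sub]
  congr 1
  · exact appK_rs φ _ x
  · exact appK_rs φ _ y

end

end CHA_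

open CHA_ in
theorem cha_proof (hHFD : Stmt_HFD) : Stmt_CHA := by
  intro L _ a b _ S hS
  have i1 := hHFD L a b S.X₁
  have i2 := hHFD L a b S.X₂
  have i3 := hHFD L a b S.X₃
  have := i1.1
  have := i1.2
  have := i2.1
  have := i2.2
  have := i3.1
  have := i3.2
  have inj : ∀ U, Function.Injective (appK S.f.hom U) := fun U => ses_inj hS (op U)
  have sur : ∀ U, Function.Surjective (appK S.g.hom U) := fun U => ses_surj hS (op U)
  have ex : ∀ U, Function.Exact (appK S.f.hom U) (appK S.g.hom U) := fun U => ses_exact hS (op U)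
  have hex : Function.Exact (app2 S.f.hom) (app2 S.g.hom) := by
    rintro ⟨x, y⟩
    constructor
    · intro h
      have hx : appK S.g.hom ca x = 0 := congrArg Prod.fst h
      have hy : appK S.g.hom cb y = 0 := congrArg Prod.snd h
      obtain ⟨x', hx'⟩ := (ex ca x).1 hx
      obtain ⟨y', hy'⟩ := (ex cb y).1 hy
      exact ⟨(x', y'), Prod.ext hx' hy'⟩
    · rintro ⟨⟨x', y'⟩, h⟩
      have hx : appK S.f.hom ca x' = x := congrArg Prod.fst h
      have hy : appK S.f.hom cb y' = y := congrArg Prod.snd h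
      exact Prod.ext ((ex ca x).2 ⟨x', hx⟩) ((ex cb y).2 ⟨y', hy⟩)
  exact euler (dC S.X₁.obj) (dC S.X₂.obj) (dC S.X₃.obj) (app2 S.f.hom) (app2 S.g.hom)
    (appK S.f.hom cab) (appK S.g.hom cab) hex (ex cab) (comm S.f.hom) (comm S.g.hom)
    (Function.Injective.prodMap (inj ca) (inj cb)) (Function.Surjective.prodMap (sur ca) (sur cb))
    (inj cab) (sur cab)

end Pool.CRD.Cn
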