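import Pool.Agent.CRD.Cnc.Stmts

/-!
# CRD / Cnc, module CLB: `R(U_ab) = R(U_b)[1/T⁻¹]`
-/

open CategoryTheory Opposite Limits

namespace Pool.CRD.Cn

namespace CLB_

variable {K B : Type} [CommRing K] [CommRing B] [Algebra K B] (a b : Bˣ)

lemma mapT (n : ℕ) :
    ((Cnc a b K).map (homOfLE cab_le_cb).op).hom ((TB (K := K) a b) ^ n) =
      Tn (K := K) a b (-n) := by
  rw [map_pow]
  induction n with
  | zero =>
    rw [pow_zero]
    exact (Tel_zero a b K (k := cab) (exR_all ⟨Finset.mem_univ _, Finset.mem_univ _⟩ 0)).symm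
  | succ n ih =>
    rw [pow_succ, ih]
    exact Tel_mul a b K (k := cab) (exR_all ⟨Finset.mem_univ _, Finset.mem_univ _⟩ _)
      (exR_all ⟨Finset.mem_univ _, Finset.mem_univ _⟩ (-1))
      (exR_all ⟨Finset.mem_univ _, Finset.mem_univ _⟩ _) (by push_cast; ring)

lemma bound (f g : LaurentPolynomial B) : ∃ N : ℕ, f ∈ LpIn (B := B) {m | m ≤ (N : ℤ)} ∧
    g ∈ LpIn (B := B) {m | m ≤ (N : ℤ)} := by
  classical
  obtain ⟨M, hM⟩ := (f.coeff.support ∪ g.coeff.support).exists_le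
  refine ⟨M.toNat, ?_, ?_⟩
  · intro n hn
    by_contra hne
    have h := hM n (Finset.mem_union_left _ (Finsupp.mem_support_iff.2 hne))
    exact hn (by
      show n ≤ (M.toNat : ℤ)
      omega)
  · intro n hn
    by_contra hne
    have h := hM n (Finset.mem_union_right _ (Finsupp.mem_support_iff.2 hne))
    exact hn (by
      show n ≤ (M.toNat : ℤ)
      omega)

lemma shift {f : LaurentPolynomial B} {N : ℕ} (hf : f ∈ LpIn (B := B) {m | m ≤ (N : ℤ)}) :
    LaurentPolynomial.T (-((N + 1 : ℕ) : ℤ)) * f ∈ LpIn (B := B) {m : ℤ | m ≤ -1} := by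
  refine LpIn.mul (s := {-((N + 1 : ℕ) : ℤ)}) (t := {m | m ≤ (N : ℤ)}) ?_
    (single_mem_LpIn (Set.mem_singleton _) _) hf
  intro x hx y hy
  rw [Set.mem_singleton_iff] at hx
  subst hx
  have hy' : y ≤ (N : ℤ) := hy
  show -((N + 1 : ℕ) : ℤ) + y ≤ -1
  push_cast
  omega

lemma exR_cb {n : ℤ} (h : n ≤ 0) : n ∈ exR cb :=
  ⟨fun h' => absurd (Finset.mem_singleton_self true) h', fun _ => h⟩

lemma exI_cb {n : ℤ} (h : n ≤ -1) : n ∈ exI cb :=
  ⟨fun h' => absurd (Finset.mem_singleton_self true) h', fun _ => h⟩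

lemma lift (z : conSub a b K cab) : ∃ (n : ℕ) (r : conSub a b K cb),
    (r : ConT a b) = (z : ConT a b) *
      algebraMap (LaurentPolynomial B) (ConT a b) (LaurentPolynomial.T (-(n : ℤ))) := by
  obtain ⟨N, h1, h2⟩ := bound (z : ConT a b).re (z : ConT a b).im
  refine ⟨N + 1, ⟨(z : ConT a b) * algebraMap (LaurentPolynomial B) (ConT a b)
    (LaurentPolynomial.T (-((N + 1 : ℕ) : ℤ))), ?_, ?_⟩, rfl⟩
  · have h3 : ((z : ConT a b) * algebraMap (LaurentPolynomial B) (ConT a b)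
        (LaurentPolynomial.T (-((N + 1 : ℕ) : ℤ)))).re =
        LaurentPolynomial.T (-((N + 1 : ℕ) : ℤ)) * (z : ConT a b).re := by
      rw [QuadraticAlgebra.re_mul]
      have h5 : (algebraMap (LaurentPolynomial B) (ConT a b)
        (LaurentPolynomial.T (-((N + 1 : ℕ) : ℤ)))).im = 0 := rfl
      have h6 : (algebraMap (LaurentPolynomial B) (ConT a b)
        (LaurentPolynomial.T (-((N + 1 : ℕ) : ℤ)))).re =
          LaurentPolynomial.T (-((N + 1 : ℕ) : ℤ)) := rfl
      rw [h5, h6]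
      ring
    rw [h3]
    refine LpIn.mono ?_ (shift h1)
    intro m hm
    exact exR_cb (by have : m ≤ -1 := hm; omega)
  · have h3 : ((z : ConT a b) * algebraMap (LaurentPolynomial B) (ConT a b)
        (LaurentPolynomial.T (-((N + 1 : ℕ) : ℤ)))).im =
        LaurentPolynomial.T (-((N + 1 : ℕ) : ℤ)) * (z : ConT a b).im := by
      rw [QuadraticAlgebra.im_mul]
      have h5 : (algebraMap (LaurentPolynomial B) (ConT a b)
        (LaurentPolynomial.T (-((N + 1 : ℕ) : ℤ)))).im = 0 := rfl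
      have h6 : (algebraMap (LaurentPolynomial B) (ConT a b)
        (LaurentPolynomial.T (-((N + 1 : ℕ) : ℤ)))).re =
          LaurentPolynomial.T (-((N + 1 : ℕ) : ℤ)) := rfl
      rw [h5, h6]
      ring
    rw [h3]
    refine LpIn.mono ?_ (shift h2)
    intro m hm
    exact exI_cb hm

end CLB_

open CLB_ in
theorem clb_proof : Stmt_CLB := by
  intro K B _ _ _ a b
  let i1 : Algebra ((Cnc a b K).ring cb) ((Cnc a b K).ring cab) :=
    ((Cnc a b K).map (homOfLE cab_le_cb).op).hom.toRingHom.toAlgebra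
  have hmap : ∀ n : ℕ, algebraMap ((Cnc a b K).ring cb) ((Cnc a b K).ring cab)
      ((TB (K := K) a b) ^ n) = Tn (K := K) a b (-n) := mapT a b
  refine ⟨?_, ?_, ?_⟩
  · rintro ⟨_, n, rfl⟩
    change IsUnit (algebraMap ((Cnc a b K).ring cb) ((Cnc a b K).ring cab)
      ((TB (K := K) a b) ^ n))
    rw [hmap]
    exact ⟨Tun a b K (k := cab) ⟨Finset.mem_univ _, Finset.mem_univ _⟩ (-n), rfl⟩
  · intro z
    obtain ⟨n, r, hr⟩ := lift (K := K) a b z
    refine ⟨(r, ⟨(TB (K := K) a b) ^ n, n, rfl⟩), ?_⟩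
    change z * algebraMap ((Cnc a b K).ring cb) ((Cnc a b K).ring cab)
      ((TB (K := K) a b) ^ n) = _
    rw [hmap]
    exact Subtype.ext hr.symm
  · intro x y hxy
    refine ⟨1, ?_⟩
    have h1 : x = y := Subalgebra.inclusion_injective (conSub_mono a b K cab_le_cb) hxy
    rw [h1]

end Pool.CRD.Cn
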