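/-
MP_051437_ag, area CN, module CND (helper89).
-/
import Pool.Agent.CRD.Cnc.Stmts

set_option linter.style.longLine false

open CategoryTheory Opposite Limits

namespace Pool.CRD.Cn

namespace CND_

variable {K B : Type} [CommRing K] [CommRing B] [Algebra K B] (a b : Bˣ)

/-- additive subgroups containing all the monomials contain the ring of the chart -/
theorem mem_of_mon (k : Cov Bool) (S : AddSubgroup (ConT a b))
    (hR : ∀ n ∈ exR k, ∀ r : B, (⟨AddMonoidAlgebra.single n r, 0⟩ : ConT a b) ∈ S)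
    (hI : ∀ n ∈ exI k, ∀ r : B, (⟨0, AddMonoidAlgebra.single n r⟩ : ConT a b) ∈ S)
    (z : ConT a b) (hz : z ∈ conSub a b K k) : z ∈ S := by
  classical
  have key : ∀ (s : Set ℤ) (F : LaurentPolynomial B →+ ConT a b),
      (∀ n ∈ s, ∀ r : B, F (AddMonoidAlgebra.single n r) ∈ S) →
      ∀ f ∈ LpIn s, F f ∈ S := by
    intro s F hF f hf
    have h1 : f = ∑ n ∈ f.coeff.support, (AddMonoidAlgebra.single n (f.coeff n) : LaurentPolynomial B) :=
      (AddMonoidAlgebra.sum_coeff_single f).symm
    rw [h1, map_sum]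
    refine sum_mem fun n hn => hF n ?_ _
    by_contra h2
    exact (Finsupp.mem_support_iff.1 hn) (hf n h2)
  have h1 := key (exR k) ⟨⟨fun f => (⟨f, 0⟩ : ConT a b), rfl⟩, fun f g => by
    ext <;> simp⟩ hR z.re hz.1
  have h2 := key (exI k) ⟨⟨fun f => (⟨0, f⟩ : ConT a b), rfl⟩, fun f g => by
    ext <;> simp⟩ hI z.im hz.2
  have h3 : z = (⟨z.re, 0⟩ : ConT a b) + (⟨0, z.im⟩ : ConT a b) := by
    ext <;> simp
  rw [h3]
  exact add_mem h1 h2

/-- constants -/
noncomputable def iB (k : Cov Bool) : B →+* conSub a b K k :=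
  RingHom.codRestrict ((algebraMap (LaurentPolynomial B) (ConT a b)).comp
    (LaurentPolynomial.C : B →+* LaurentPolynomial B)) (conSub a b K k) (by
    intro r
    refine ⟨?_, ?_⟩
    · change (LaurentPolynomial.C r : LaurentPolynomial B) ∈ _
      exact single_mem_LpIn (s := exR k) ⟨fun _ => le_rfl, fun _ => le_rfl⟩ _
    · exact zero_mem _)

theorem mon_mul (n m : ℤ) (r s : B) :
    (⟨AddMonoidAlgebra.single n r, 0⟩ : ConT a b) * ⟨AddMonoidAlgebra.single m s, 0⟩ =
      ⟨AddMonoidAlgebra.single (n + m) (r * s), 0⟩ := by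
  apply QuadraticAlgebra.ext
  · rw [QuadraticAlgebra.re_mul, AddMonoidAlgebra.single_mul_single]
    rw [mul_zero, add_zero]
  · rw [QuadraticAlgebra.im_mul]
    simp only [mul_zero, zero_mul, add_zero]

theorem mon_mul_im (n m : ℤ) (r s : B) :
    (⟨AddMonoidAlgebra.single n r, 0⟩ : ConT a b) * ⟨0, AddMonoidAlgebra.single m s⟩ =
      ⟨0, AddMonoidAlgebra.single (n + m) (r * s)⟩ := by
  apply QuadraticAlgebra.ext
  · rw [QuadraticAlgebra.re_mul]
    simp only [mul_zero, zero_mul, add_zero]
  · rw [QuadraticAlgebra.im_mul, AddMonoidAlgebra.single_mul_single]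
    simp only [mul_zero, zero_mul, add_zero]

/-- general criterion: the chart is generated by constants, `T^e` and `T^c ω` -/
theorem noeth_of_gen [IsNoetherianRing B] (k : Cov Bool) (e c : ℤ) (he : e ∈ exR k) (hc : c ∈ exI k)
    (h1 : ∀ n ∈ exR k, ∃ m : ℕ, n = m * e) (h2 : ∀ n ∈ exI k, ∃ m : ℕ, n = m * e + c) :
    IsNoetherianRing (conSub a b K k) := by
  let t : conSub a b K k := ⟨(⟨AddMonoidAlgebra.single e 1, 0⟩ : ConT a b),
    single_mem_LpIn he _, zero_mem _⟩
  let w : conSub a b K k := ⟨(⟨0, AddMonoidAlgebra.single c 1⟩ : ConT a b),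
    zero_mem _, single_mem_LpIn hc _⟩
  let φ : Polynomial (Polynomial B) →+* conSub a b K k :=
    Polynomial.eval₂RingHom (Polynomial.eval₂RingHom (iB a b k) t) w
  have ht : ∀ m : ℕ, ((t ^ m : conSub a b K k) : ConT a b) =
      (⟨AddMonoidAlgebra.single (m * e) 1, 0⟩ : ConT a b) := by
    intro m
    induction m with
    | zero =>
      rw [pow_zero, Nat.cast_zero, zero_mul]
      rfl
    | succ m ih =>
      rw [pow_succ, Subalgebra.coe_mul, ih]
      change _ * (⟨AddMonoidAlgebra.single e 1, 0⟩ : ConT a b) = _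
      rw [mon_mul, mul_one, Nat.cast_succ, add_mul, one_mul]
  have hφ1 : ∀ (r : B) (m : ℕ),
      φ (Polynomial.C (Polynomial.C r * Polynomial.X ^ m)) = iB a b k r * t ^ m := by
    intro r m
    change Polynomial.eval₂ _ _ _ = _
    rw [Polynomial.eval₂_C]
    change Polynomial.eval₂ _ _ _ = _
    rw [Polynomial.eval₂_mul, Polynomial.eval₂_C, Polynomial.eval₂_pow, Polynomial.eval₂_X]
  have hsurj : Function.Surjective φ := by
    intro z
    have hz := mem_of_mon (K := K) a b k ((φ.range.toAddSubgroup).map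
      (conSub a b K k).toSubring.subtype.toAddMonoidHom) ?_ ?_ z.1 z.2
    · obtain ⟨y, ⟨p, rfl⟩, hy⟩ := hz
      exact ⟨p, Subtype.ext hy⟩
    · intro n hn r
      obtain ⟨m, rfl⟩ := h1 n hn
      refine ⟨φ (Polynomial.C (Polynomial.C r * Polynomial.X ^ m)), ⟨_, rfl⟩, ?_⟩
      rw [hφ1]
      change ((iB a b k r : conSub a b K k) : ConT a b) * ((t ^ m : conSub a b K k) : ConT a b) = _
      rw [ht]
      change (⟨AddMonoidAlgebra.single 0 r, 0⟩ : ConT a b) * _ = _
      rw [mon_mul, zero_add, mul_one]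
    · intro n hn r
      obtain ⟨m, rfl⟩ := h2 n hn
      refine ⟨φ (Polynomial.C (Polynomial.C r * Polynomial.X ^ m) * Polynomial.X), ⟨_, rfl⟩, ?_⟩
      have hX : φ Polynomial.X = w := Polynomial.eval₂_X _ _
      rw [map_mul, hφ1, hX]
      change ((iB a b k r : conSub a b K k) : ConT a b) * ((t ^ m : conSub a b K k) : ConT a b) *
        (w : ConT a b) = _
      rw [ht]
      change (⟨AddMonoidAlgebra.single 0 r, 0⟩ : ConT a b) * _ *
        (⟨0, AddMonoidAlgebra.single c 1⟩ : ConT a b) = _
      rw [mon_mul, mon_mul_im, zero_add, mul_one, mul_one]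
  exact isNoetherianRing_of_surjective _ _ φ hsurj

theorem noeth_ca [IsNoetherianRing B] : IsNoetherianRing (conSub a b K ca) := by
  have h1 : true ∉ (ca : Cov Bool).s := by
    intro h
    exact absurd (Finset.mem_singleton.1 h) (by decide)
  have h2 : false ∈ (ca : Cov Bool).s := Finset.mem_singleton_self _
  refine noeth_of_gen a b ca 1 0 ⟨fun _ => by norm_num, fun h => absurd h2 h⟩
    ⟨fun _ => le_rfl, fun h => absurd h2 h⟩ (fun n hn => ⟨n.toNat, ?_⟩) (fun n hn => ⟨n.toNat, ?_⟩)
  · rw [Int.toNat_of_nonneg (hn.1 h1), mul_one]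
  · rw [Int.toNat_of_nonneg (hn.1 h1), mul_one, add_zero]

theorem noeth_cb [IsNoetherianRing B] : IsNoetherianRing (conSub a b K cb) := by
  have h1 : false ∉ (cb : Cov Bool).s := by
    intro h
    exact absurd (Finset.mem_singleton.1 h) (by decide)
  have h2 : true ∈ (cb : Cov Bool).s := Finset.mem_singleton_self _
  refine noeth_of_gen a b cb (-1) (-1) ⟨fun h => absurd h2 h, fun _ => by norm_num⟩
    ⟨fun h => absurd h2 h, fun _ => le_rfl⟩ (fun n hn => ⟨(-n).toNat, ?_⟩)
    (fun n hn => ⟨(-n - 1).toNat, ?_⟩)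
  · rw [Int.toNat_of_nonneg (by have := hn.2 h1; omega)]
    ring
  · rw [Int.toNat_of_nonneg (by have := hn.2 h1; omega)]
    ring

end CND_

theorem cnd_proof (hCLA : Stmt_CLA) (hCLB : Stmt_CLB) : Stmt_CND := by
  intro K B _ _ _ _ a b
  have hA := hCLA K B a b
  have hB := hCLB K B a b
  have nA : IsNoetherianRing ((Cnc a b K).ring ca) := CND_.noeth_ca (K := K) a b
  have nB : IsNoetherianRing ((Cnc a b K).ring cb) := CND_.noeth_cb (K := K) a b
  refine ⟨?_, ?_⟩
  · rintro ⟨X⟩
    rcases cov_cases X with rfl | rfl | rfl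
    · exact nA
    · exact nB
    · letI := ((Cnc a b K).map (homOfLE cab_le_ca).op).hom.toRingHom.toAlgebra
      exact IsLocalization.isNoetherianRing (Submonoid.powers (TA (K := K) a b)) _ nA
  · rintro ⟨X⟩ ⟨Y⟩ f
    have hid : ∀ (X : (Cov Bool)ᵒᵖ) (f : X ⟶ X), ((Cnc a b K).map f).hom.toRingHom.Flat := by
      intro X f
      have : f = 𝟙 X := Subsingleton.elim _ _
      rw [this, CategoryTheory.Functor.map_id]
      exact RingHom.Flat.id _
    have hle := leOfHom f.unop
    rcases cov_cases X with rfl | rfl | rfl <;> rcases cov_cases Y with rfl | rfl | rfl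
    · exact hid _ f
    · exfalso
      have h := hle (Finset.mem_singleton_self false)
      exact absurd (Finset.mem_singleton.1 h) (by decide)
    · letI := ((Cnc a b K).map (homOfLE cab_le_ca).op).hom.toRingHom.toAlgebra
      have : f = (homOfLE cab_le_ca).op := Subsingleton.elim _ _
      rw [this]
      exact IsLocalization.flat _ (Submonoid.powers (TA (K := K) a b))
    · exfalso
      have h := hle (Finset.mem_singleton_self true)
      exact absurd (Finset.mem_singleton.1 h) (by decide)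
    · exact hid _ f
    · letI := ((Cnc a b K).map (homOfLE cab_le_cb).op).hom.toRingHom.toAlgebra
      have : f = (homOfLE cab_le_cb).op := Subsingleton.elim _ _
      rw [this]
      exact IsLocalization.flat _ (Submonoid.powers (TB (K := K) a b))
    · exfalso
      have h := hle (Finset.mem_univ true)
      exact absurd (Finset.mem_singleton.1 h) (by decide)
    · exfalso
      have h := hle (Finset.mem_univ false)
      exact absurd (Finset.mem_singleton.1 h) (by decide)
    · exact hid _ f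

end Pool.CRD.Cn
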