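import Pool.Agent.CRD.Cnc.Stmts

set_option autoImplicit false

open CategoryTheory Opposite Limits

namespace Pool.CRD.Cn

namespace CPC_

variable {K B : Type} [CommRing K] [CommRing B] [Algebra K B] (a b : Bˣ)

/-- the exponent of `x_true` -/
def fT : (Bool → ℤ) →+ ℤ := Pi.evalAddMonoidHom _ true

lemma fT_apply (e : Bool → ℤ) : fT e = e true := rfl

/-- `n ↦ n e_true - n e_false` -/
def gT : ℤ →+ (Bool → ℤ) where
  toFun n := fun b => if b = true then n else -n
  map_zero' := by funext b; simp
  map_add' n m := by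
    funext b
    cases b
    · simp; ring
    · simp

lemma fg (n : ℤ) : fT (gT n) = n := by simp [fT, gT]

variable (K) in
noncomputable def Phi : Laur B Bool →ₐ[K] ConT a b :=
  (IsScalarTower.toAlgHom K (LaurentPolynomial B) (ConT a b)).comp
    (AddMonoidAlgebra.mapDomainAlgHom K B fT)

lemma Phi_apply (f : Laur B Bool) : Phi K a b f =
    algebraMap (LaurentPolynomial B) (ConT a b) (AddMonoidAlgebra.mapDomain fT f) := rfl

lemma Phi_re (f : Laur B Bool) : (Phi K a b f).re = AddMonoidAlgebra.mapDomain fT f := rfl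

lemma Phi_im (f : Laur B Bool) : (Phi K a b f).im = 0 := rfl

lemma Phi_mem {s : Cov Bool} {f : Laur B Bool} (hf : f ∈ pnSub K B Bool s) :
    Phi K a b f ∈ conSub a b K s := by
  classical
  refine ⟨?_, ?_⟩
  · rw [Phi_re]
    intro n hn
    by_contra hne
    have h1 : n ∈ (Finsupp.mapDomain fT f.coeff).support := Finsupp.mem_support_iff.2 hne
    have h2 := Finsupp.mapDomain_support h1
    obtain ⟨e, he, rfl⟩ := Finset.mem_image.1 h2
    have h3 := hf e he
    apply hn
    obtain ⟨hsum, hpos⟩ := h3
    have hs : e true + e false = 0 := by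
      rw [Fintype.sum_bool] at hsum
      exact hsum
    refine ⟨fun h => hpos true h, fun h => ?_⟩
    have := hpos false h
    rw [fT_apply]
    omega
  · rw [Phi_im]
    exact zero_mem _

/-- lift of a Laurent polynomial -/
noncomputable def Psi (f : LaurentPolynomial B) : Laur B Bool := AddMonoidAlgebra.mapDomain gT f

lemma mapDomain_Psi (f : LaurentPolynomial B) : AddMonoidAlgebra.mapDomain fT (Psi f) = f := by
  unfold Psi
  rw [← AddMonoidAlgebra.coeff_inj]
  change Finsupp.mapDomain fT (Finsupp.mapDomain gT f.coeff) = f.coeff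
  rw [← Finsupp.mapDomain_comp]
  have : (fT ∘ gT : ℤ → ℤ) = id := funext fun n => fg n
  rw [this, Finsupp.mapDomain_id]

lemma Psi_mem {s : Cov Bool} {f : LaurentPolynomial B} (hf : f ∈ LpIn (exR s)) :
    Psi f ∈ pnSub K B Bool s := by
  classical
  intro e he
  have h1 : e ∈ (Finsupp.mapDomain gT f.coeff).support := he
  obtain ⟨n, hn, rfl⟩ := Finset.mem_image.1 (Finsupp.mapDomain_support h1)
  have hn' : n ∈ exR s := by
    by_contra h2
    exact (Finsupp.mem_support_iff.1 hn) (hf n h2)
  refine ⟨?_, fun i hi => ?_⟩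
  · rw [Fintype.sum_bool]
    simp [gT]
  · cases i
    · have := hn'.2 hi
      simp [gT]
      omega
    · have := hn'.1 hi
      simp [gT]
      omega

/-- the morphism to the projective line -/
noncomputable def piH : Pn K B Bool ⟶ Cnc a b K where
  app s := CommAlgCat.ofHom
    (((Phi K a b).comp (pnSub K B Bool s.unop).val).codRestrict (conSub a b K s.unop)
      (fun f => Phi_mem a b f.2))
  naturality {s t} f := by
    ext x
    rfl

lemma piH_val (s : Cov Bool) (f : pnSub K B Bool s) :
    (((piH (K := K) a b).app (op s)).hom f : conSub a b K s).1 = Phi K a b f.1 := rfl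

lemma algMap_T (n : ℤ) : algebraMap (LaurentPolynomial B) (ConT a b) (AddMonoidAlgebra.single n 1) =
    algebraMap (LaurentPolynomial B) (ConT a b) (LaurentPolynomial.T n) := rfl

lemma Phi_single (e : Bool → ℤ) : Phi K a b (AddMonoidAlgebra.single e 1) =
    algebraMap (LaurentPolynomial B) (ConT a b) (LaurentPolynomial.T (e true)) := by
  rw [Phi_apply, AddMonoidAlgebra.mapDomain_single]
  rfl

lemma ratio_a : ((piH (K := K) a b).app (op ca)).hom
    (ratio K B ca false true (Finset.mem_singleton_self _)) = TA a b := by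
  apply Subtype.ext
  refine (piH_val a b ca _).trans ?_
  refine (Phi_single (K := K) a b _).trans ?_
  rfl

lemma ratio_b : ((piH (K := K) a b).app (op cb)).hom
    (ratio K B cb true false (Finset.mem_singleton_self _)) = TB a b := by
  apply Subtype.ext
  refine (piH_val a b cb _).trans ?_
  refine (Phi_single (K := K) a b _).trans ?_
  rfl

/-- the second generator `ω T^{-pe s}` -/
lemma w_mem (s : Cov Bool) :
    (⟨0, LaurentPolynomial.T (-pe s)⟩ : ConT a b) ∈ conSub a b K s := by
  refine ⟨zero_mem _, ?_⟩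
  refine single_mem_LpIn (s := exI s) ?_ _
  unfold pe
  by_cases h : false ∈ s.s
  · rw [if_pos h]
    exact ⟨fun _ => by simp, fun h' => absurd h h'⟩
  · rw [if_neg h]
    have ht : true ∈ s.s := by
      obtain ⟨x, hx⟩ := s.ne
      cases x
      · exact absurd hx h
      · exact hx
    exact ⟨fun h' => absurd ht h', fun _ => by simp⟩

lemma shift_mem {s : Cov Bool} {f : LaurentPolynomial B} (hf : f ∈ LpIn (exI s)) :
    f * LaurentPolynomial.T (pe s) ∈ LpIn (exR s) := by
  have hT : (LaurentPolynomial.T (pe s) : LaurentPolynomial B) ∈ LpIn ({pe s} : Set ℤ) :=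
    single_mem_LpIn (Set.mem_singleton _) _
  refine LpIn.mul (s := exI s) (t := {pe s}) (fun x hx y hy => ?_) hf hT
  rw [Set.mem_singleton_iff] at hy
  subst hy
  unfold pe
  by_cases h : false ∈ s.s
  · rw [if_pos h]
    exact ⟨fun h' => by have := hx.1 h'; omega, fun h' => absurd h h'⟩
  · rw [if_neg h]
    have ht : true ∈ s.s := by
      obtain ⟨z, hz⟩ := s.ne
      cases z
      · exact absurd hz h
      · exact hz
    exact ⟨fun h' => absurd ht h', fun h' => by have := hx.2 h'; omega⟩

lemma decomp (z : ConT a b) (s : Cov Bool) :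
    z = Phi K a b (Psi z.re) * 1 + Phi K a b (Psi (z.im * LaurentPolynomial.T (pe s))) *
      (⟨0, LaurentPolynomial.T (-pe s)⟩ : ConT a b) := by
  have h1 : Phi K a b (Psi z.re) = ⟨z.re, 0⟩ := by
    rw [Phi_apply, mapDomain_Psi]; rfl
  have h2 : Phi K a b (Psi (z.im * LaurentPolynomial.T (pe s))) =
      ⟨z.im * LaurentPolynomial.T (pe s), 0⟩ := by
    rw [Phi_apply, mapDomain_Psi]; rfl
  have h3 : (LaurentPolynomial.T (pe s) : LaurentPolynomial B) * LaurentPolynomial.T (-pe s) = 1 := by
    rw [← LaurentPolynomial.T_add, add_neg_cancel, LaurentPolynomial.T_zero]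
  rw [h1, h2, mul_one]
  apply QuadraticAlgebra.ext
  · rw [QuadraticAlgebra.re_add, QuadraticAlgebra.re_mul]
    ring
  · rw [QuadraticAlgebra.im_add, QuadraticAlgebra.im_mul]
    simp only [zero_mul, add_zero, zero_add, mul_zero]
    rw [mul_assoc, h3, mul_one]

lemma finH (s : (Cov Bool)ᵒᵖ) : ((piH (K := K) a b).app s).hom.toRingHom.Finite := by
  classical
  let φ : pnSub K B Bool s.unop →+* conSub a b K s.unop :=
    ((piH (K := K) a b).app s).hom.toRingHom
  change φ.Finite
  letI := φ.toAlgebra
  change Module.Finite (pnSub K B Bool s.unop) (conSub a b K s.unop)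
  let w : conSub a b K s.unop := ⟨_, w_mem a b s.unop⟩
  refine ⟨⟨{1, w}, ?_⟩⟩
  rw [eq_top_iff]
  intro z _
  let p : pnSub K B Bool s.unop := ⟨Psi z.1.re, Psi_mem z.2.1⟩
  let q : pnSub K B Bool s.unop := ⟨Psi (z.1.im * LaurentPolynomial.T (pe s.unop)),
    Psi_mem (shift_mem z.2.2)⟩
  have hz : z = p • (1 : conSub a b K s.unop) + q • w := by
    apply Subtype.ext
    exact decomp (K := K) a b z.1 s.unop
  rw [hz]
  refine add_mem (Submodule.smul_mem _ _ (Submodule.subset_span ?_))
    (Submodule.smul_mem _ _ (Submodule.subset_span ?_))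
  · simp
  · simp

/-- the ratio `x_j / x_i` is a unit on charts containing `i` and `j` -/
lemma ratio_unit (s : Cov Bool) (i j : Bool) (hi : i ∈ s.s) (hj : j ∈ s.s) :
    IsUnit (((piH (K := K) a b).app (op s)).hom (ratio K B s i j hi)) := by
  have h1 : (ratio K B s i j hi) * (ratio K B s j i hj) = 1 := by
    apply Subtype.ext
    change (AddMonoidAlgebra.single (Pi.single j 1 - Pi.single i 1) 1 : Laur B Bool) *
      AddMonoidAlgebra.single (Pi.single i 1 - Pi.single j 1) 1 = 1
    rw [AddMonoidAlgebra.single_mul_single, mul_one, sub_add_sub_cancel, sub_self]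
    rfl
  have h2 : (((piH (K := K) a b).app (op s)).hom (ratio K B s i j hi)) *
      (((piH (K := K) a b).app (op s)).hom (ratio K B s j i hj)) = 1 := by
    rw [← map_mul, h1, map_one]
  exact IsUnit.of_mul_eq_one _ h2

lemma locIn (s : Cov Bool) (i j : Bool) (hi : i ∈ s.s) (hj : j ∈ s.s) :
    letI := ((Cnc a b K).map (homOfLE (Cov.ins_le j s)).op).hom.toRingHom.toAlgebra
    IsLocalization.Away (((piH (K := K) a b).app (op s)).hom (ratio K B s i j hi))
      ((Cnc a b K).ring (Cov.ins j s)) := by
  letI := ((Cnc a b K).map (homOfLE (Cov.ins_le j s)).op).hom.toRingHom.toAlgebra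
  have hs : Cov.ins j s = s := Cov.ext' (Finset.insert_eq_of_mem hj)
  refine IsLocalization.away_of_isUnit_of_bijective _ (ratio_unit a b s i j hi hj) ⟨?_, ?_⟩
  · intro x y hxy
    apply Subtype.ext
    exact congrArg (fun t : conSub a b K (Cov.ins j s) => t.1) hxy
  · intro z
    have hgen : ∀ z' : ConT a b, z' ∈ conSub a b K (Cov.ins j s) → z' ∈ conSub a b K s := by
      rw [hs]
      exact fun _ h => h
    have hz : (show conSub a b K (Cov.ins j s) from z).1 ∈ conSub a b K s :=
      hgen _ (show conSub a b K (Cov.ins j s) from z).2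
    exact ⟨(⟨_, hz⟩ : conSub a b K s), Subtype.ext rfl⟩

lemma locGen {R : PAlg K (Cov Bool)} (s t u : Cov Bool) (ht : t ≤ s) (hu : u ≤ s) (h : t = u)
    (x : R.ring s)
    (hx : letI := (R.map (homOfLE ht).op).hom.toRingHom.toAlgebra
      IsLocalization.Away x (R.ring t)) :
    letI := (R.map (homOfLE hu).op).hom.toRingHom.toAlgebra
    IsLocalization.Away x (R.ring u) := by
  subst h
  exact hx

lemma locOut (hCLA : Stmt_CLA) (hCLB : Stmt_CLB) (s : Cov Bool) (i j : Bool) (hi : i ∈ s.s)
    (hj : j ∉ s.s) :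
    letI := ((Cnc a b K).map (homOfLE (Cov.ins_le j s)).op).hom.toRingHom.toAlgebra
    IsLocalization.Away (((piH (K := K) a b).app (op s)).hom (ratio K B s i j hi))
      ((Cnc a b K).ring (Cov.ins j s)) := by
  have hall : cab = Cov.ins j s := by
    apply Cov.ext'
    ext x
    have h1 : x ∈ (Cov.ins j s).s := by
      have h2 : i ≠ j := fun h => hj (h ▸ hi)
      rcases eq_or_ne x j with h | h
      · rw [h]; exact Finset.mem_insert_self _ _
      · have : x = i := by
          revert h h2
          cases x <;> cases i <;> cases j <;> simp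
        rw [this]; exact Finset.mem_insert_of_mem hi
    exact ⟨fun _ => h1, fun _ => Finset.mem_univ _⟩
  rcases cov_cases s with rfl | rfl | rfl
  · have hi' : i = false := Finset.mem_singleton.1 hi
    subst hi'
    have hj' : j = true := by
      cases j
      · exact absurd hi hj
      · rfl
    subst hj'
    refine locGen ca cab _ cab_le_ca _ hall _ ?_
    have h := hCLA K B a b
    rw [← ratio_a (K := K) a b] at h
    exact h
  · have hi' : i = true := Finset.mem_singleton.1 hi
    subst hi'
    have hj' : j = false := by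
      cases j
      · rfl
      · exact absurd hi hj
    subst hj'
    refine locGen cb cab _ cab_le_cb _ hall _ ?_
    have h := hCLB K B a b
    rw [← ratio_b (K := K) a b] at h
    exact h
  · exact absurd (Finset.mem_univ j) hj

end CPC_

open CPC_ in
theorem cpc_proof (hCLA : Stmt_CLA) (hCLB : Stmt_CLB) : Stmt_CPC := by
  intro K B _ _ _ a b
  refine ⟨{ π := piH a b, fin := finH a b, loc := fun s i j hi => ?_ }, ratio_a a b, ratio_b a b⟩
  by_cases hj : j ∈ s.s
  · exact locIn a b s i j hi hj
  · exact locOut a b hCLA hCLB s i j hi hj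

end Pool.CRD.Cn
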