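import Pool.Agent.CRD.Cnc.Stmts

/-!
# CRD / Cnc, module CSM: the charts of the conic are smooth
-/

open CategoryTheory Opposite Limits

namespace Pool.CRD.Cn

namespace CSM_

open Polynomial in
/-- the model `B[u] + B[u] s`, `s² = c0 + c2 u²` -/
abbrev QQ {B : Type} [CommRing B] (c0 c2 : B) : Type :=
  QuadraticAlgebra B[X] (Polynomial.C c0 + Polynomial.C c2 * Polynomial.X ^ 2) 0

section Model

variable {B : Type} [CommRing B] (c0 c2 : B)

/-- the element `u` -/
noncomputable def uu : QQ c0 c2 := ⟨Polynomial.X, 0⟩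

/-- the element `s` -/
noncomputable def ss : QQ c0 c2 := ⟨0, 1⟩

variable {c0 c2}

/-- the universal property -/
noncomputable def liftA {C : Type} [CommRing C] [Algebra B C] (u s : C)
    (h : s * s = algebraMap B C c0 + algebraMap B C c2 * u ^ 2) : QQ c0 c2 →ₐ[B] C where
  toFun z := Polynomial.aeval u z.re + Polynomial.aeval u z.im * s
  map_one' := by
    change Polynomial.aeval u 1 + Polynomial.aeval u 0 * s = 1
    simp
  map_mul' x y := by
    rw [QuadraticAlgebra.re_mul, QuadraticAlgebra.im_mul]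
    simp only [map_add, map_mul, Polynomial.aeval_C, Polynomial.aeval_X, map_pow,
      zero_mul, add_zero]
    linear_combination -(Polynomial.aeval u x.im * Polynomial.aeval u y.im) * h
  map_zero' := by
    change Polynomial.aeval u 0 + Polynomial.aeval u 0 * s = 0
    simp
  map_add' x y := by
    simp only [QuadraticAlgebra.re_add, QuadraticAlgebra.im_add, map_add]
    ring
  commutes' r := by
    change Polynomial.aeval u (algebraMap B (Polynomial B) r) + Polynomial.aeval u 0 * s = _
    simp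

lemma liftA_uu {C : Type} [CommRing C] [Algebra B C] (u s : C)
    (h : s * s = algebraMap B C c0 + algebraMap B C c2 * u ^ 2) :
    liftA u s h (uu c0 c2) = u := by
  change Polynomial.aeval u Polynomial.X + Polynomial.aeval u 0 * s = u
  simp

lemma liftA_ss {C : Type} [CommRing C] [Algebra B C] (u s : C)
    (h : s * s = algebraMap B C c0 + algebraMap B C c2 * u ^ 2) :
    liftA u s h (ss c0 c2) = s := by
  change Polynomial.aeval u 0 + Polynomial.aeval u 1 * s = s
  simp

lemma ss_sq : ss c0 c2 * ss c0 c2 = algebraMap B (QQ c0 c2) c0 +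
    algebraMap B (QQ c0 c2) c2 * (uu c0 c2) ^ 2 := by
  have hp : (uu c0 c2) ^ 2 = uu c0 c2 * uu c0 c2 := pow_two _
  rw [hp]
  apply QuadraticAlgebra.ext
  · change (0 : Polynomial B) * 0 + _ * 1 * 1 = algebraMap B (Polynomial B) c0 +
      (algebraMap B (Polynomial B) c2 * (Polynomial.X * Polynomial.X + _ * 0 * 0) + _ * 0 *
        (Polynomial.X * 0 + 0 * Polynomial.X + 0 * 0 * 0))
    simp only [Polynomial.algebraMap_eq]
    ring
  · change (0 : Polynomial B) * 1 + 1 * 0 + 0 * 1 * 1 = 0 +
      (algebraMap B (Polynomial B) c2 * (Polynomial.X * 0 + 0 * Polynomial.X + 0 * 0 * 0) +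
        0 * (Polynomial.X * Polynomial.X + _ * 0 * 0) +
        0 * 0 * (Polynomial.X * 0 + 0 * Polynomial.X + 0 * 0 * 0))
    ring

lemma homExt {C : Type} [CommRing C] [Algebra B C] (f g : QQ c0 c2 →ₐ[B] C)
    (h1 : f (uu c0 c2) = g (uu c0 c2)) (h2 : f (ss c0 c2) = g (ss c0 c2)) : f = g := by
  let ι : Polynomial B →ₐ[B] QQ c0 c2 :=
    IsScalarTower.toAlgHom B (Polynomial B) (QQ c0 c2)
  have hfg : f.comp ι = g.comp ι := by
    apply Polynomial.algHom_ext
    exact h1
  have hfg' : ∀ p, f (ι p) = g (ι p) := fun p => DFunLike.congr_fun hfg p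
  apply AlgHom.ext
  intro z
  have hz : z = ι z.re + ι z.im * ss c0 c2 := by
    apply QuadraticAlgebra.ext
    · change z.re = z.re + (z.im * 0 + _ * 0 * 1)
      ring
    · change z.im = 0 + (z.im * 1 + 0 * 0 + 0 * 0 * 1)
      ring
  rw [hz, map_add, map_add, map_mul, map_mul, hfg', hfg', h2]

/-- the equation of the conic -/
noncomputable def FF (c0 c2 : B) : MvPolynomial (Fin 2) B :=
  MvPolynomial.X 1 * MvPolynomial.X 1 -
    (MvPolynomial.C c0 + MvPolynomial.C c2 * MvPolynomial.X 0 ^ 2)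

lemma fp (c0 c2 : B) : Algebra.FinitePresentation B (QQ c0 c2) := by
  let I : Ideal (MvPolynomial (Fin 2) B) := Ideal.span {FF c0 c2}
  have hI : I.FG := ⟨{FF c0 c2}, by simp [I]⟩
  have h0 : Algebra.FinitePresentation B (MvPolynomial (Fin 2) B ⧸ I) :=
    Algebra.FinitePresentation.quotient hI
  have h1 : (Ideal.Quotient.mk I (MvPolynomial.X 1)) * (Ideal.Quotient.mk I (MvPolynomial.X 1)) =
      algebraMap B _ c0 + algebraMap B _ c2 * (Ideal.Quotient.mk I (MvPolynomial.X 0)) ^ 2 := by
    rw [← map_mul, ← sub_eq_zero]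
    change Ideal.Quotient.mk I (FF c0 c2) = 0
    exact Ideal.Quotient.eq_zero_iff_mem.mpr (Ideal.subset_span rfl)
  let f : MvPolynomial (Fin 2) B →ₐ[B] QQ c0 c2 := MvPolynomial.aeval ![uu c0 c2, ss c0 c2]
  have hf0 : f (MvPolynomial.X 0) = uu c0 c2 := by simp [f]
  have hf1 : f (MvPolynomial.X 1) = ss c0 c2 := by simp [f]
  have hF : f (FF c0 c2) = 0 := by
    rw [FF, map_sub, map_add, map_mul, map_mul, map_pow, hf0, hf1, sub_eq_zero, ss_sq]
    simp [f]
  let g : (MvPolynomial (Fin 2) B ⧸ I) →ₐ[B] QQ c0 c2 := Ideal.Quotient.liftₐ I f (by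
    intro x hx
    obtain ⟨y, rfl⟩ := Ideal.mem_span_singleton.mp hx
    rw [map_mul, hF, zero_mul])
  have hg : ∀ x, g (Ideal.Quotient.mk I x) = f x := fun x => rfl
  let e : (MvPolynomial (Fin 2) B ⧸ I) ≃ₐ[B] QQ c0 c2 :=
    AlgEquiv.ofAlgHom g (liftA _ _ h1) (by
      apply homExt
      · rw [AlgHom.comp_apply, liftA_uu, hg, hf0]
        rfl
      · rw [AlgHom.comp_apply, liftA_ss, hg, hf1]
        rfl) (by
      apply Ideal.Quotient.algHom_ext
      apply MvPolynomial.algHom_ext
      intro i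
      fin_cases i
      · change liftA _ _ h1 (g (Ideal.Quotient.mk I (MvPolynomial.X 0))) =
          Ideal.Quotient.mk I (MvPolynomial.X 0)
        rw [hg, hf0, liftA_uu]
      · change liftA _ _ h1 (g (Ideal.Quotient.mk I (MvPolynomial.X 1))) =
          Ideal.Quotient.mk I (MvPolynomial.X 1)
        rw [hg, hf1, liftA_ss])
  exact Algebra.FinitePresentation.equiv e

lemma fsm (c0 c2 : B) (h2 : IsUnit (2 : B)) (h0 : IsUnit c0) :
    Algebra.FormallySmooth B (QQ c0 c2) := by
  apply Algebra.FormallySmooth.of_comp_surjective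
  intro C _ _ I hI g
  obtain ⟨d0, hd0⟩ := (h2.mul h0).exists_right_inv
  obtain ⟨u1, hu1⟩ := Ideal.Quotient.mk_surjective (g (uu c0 c2))
  obtain ⟨s1, hs1⟩ := Ideal.Quotient.mk_surjective (g (ss c0 c2))
  have hsq : ∀ x ∈ I, ∀ y ∈ I, x * y = 0 := by
    intro x hx y hy
    have : x * y ∈ I ^ 2 := by
      rw [pow_two]
      exact Ideal.mul_mem_mul hx hy
    rw [hI] at this
    exact this
  let e : C := s1 * s1 - (algebraMap B C c0 + algebraMap B C c2 * u1 ^ 2)
  have he : e ∈ I := by
    rw [← Ideal.Quotient.eq_zero_iff_mem]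
    have h3 := congrArg g (ss_sq (c0 := c0) (c2 := c2))
    rw [map_mul, map_add, map_mul, map_pow, AlgHom.commutes, AlgHom.commutes, ← hu1, ← hs1] at h3
    change Ideal.Quotient.mk I (s1 * s1 - (algebraMap B C c0 + algebraMap B C c2 * u1 ^ 2)) = 0
    rw [map_sub, map_mul, map_add, map_mul, map_pow, sub_eq_zero]
    exact h3
  have hee : e * e = 0 := hsq e he e he
  let d : C := algebraMap B C d0
  have hd : 2 * algebraMap B C c0 * d = 1 := by
    have := congrArg (algebraMap B C) hd0
    rw [map_mul, map_mul, map_ofNat, map_one] at this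
    exact this
  have hmk : Ideal.Quotient.mk I (1 - e * d) = 1 := by
    rw [map_sub, map_one, map_mul, Ideal.Quotient.eq_zero_iff_mem.mpr he, zero_mul, sub_zero]
  have hlift : (s1 * (1 - e * d)) * (s1 * (1 - e * d)) =
      algebraMap B C c0 + algebraMap B C c2 * (u1 * (1 - e * d)) ^ 2 := by
    have e1 : s1 * s1 = e + (algebraMap B C c0 + algebraMap B C c2 * u1 ^ 2) := by
      simp only [e]
      ring
    linear_combination (1 - e * d) ^ 2 * e1 + (d ^ 2 * algebraMap B C c0 - 2 * d + e * d ^ 2) * hee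
      - e * hd
  refine ⟨liftA _ _ hlift, ?_⟩
  apply homExt
  · rw [AlgHom.comp_apply, liftA_uu]
    change Ideal.Quotient.mk I (u1 * (1 - e * d)) = _
    rw [map_mul, hmk, mul_one, hu1]
  · rw [AlgHom.comp_apply, liftA_ss]
    change Ideal.Quotient.mk I (s1 * (1 - e * d)) = _
    rw [map_mul, hmk, mul_one, hs1]

lemma smooth_model (K : Type) [CommRing K] [Algebra K B] (c0 c2 : B) (h2 : IsUnit (2 : B))
    (h0 : IsUnit c0) (hK : Algebra.Smooth K B) : Algebra.Smooth K (QQ c0 c2) := by
  have h3 : Algebra.Smooth B (QQ c0 c2) :=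
    { formallySmooth := fsm c0 c2 h2 h0
      finitePresentation := fp c0 c2 }
  exact Algebra.Smooth.comp K B (QQ c0 c2)

end Model

section Lp

variable {B : Type} [CommRing B]

lemma lp_decomp (f : LaurentPolynomial B) :
    f = ∑ n ∈ f.coeff.support, AddMonoidAlgebra.single n (f.coeff n) :=
  (AddMonoidAlgebra.sum_coeff_single f).symm

lemma toL_monomial (n : ℕ) (r : B) :
    Polynomial.toLaurent (Polynomial.C r * Polynomial.X ^ n) =
      (AddMonoidAlgebra.single (n : ℤ) r : LaurentPolynomial B) := by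
  rw [Polynomial.toLaurent_C_mul_X_pow, LaurentPolynomial.single_eq_C_mul_T]

lemma toL_mem (p : Polynomial B) : Polynomial.toLaurent p ∈ LpIn (B := B) {n : ℤ | 0 ≤ n} := by
  induction p using Polynomial.induction_on' with
  | add p q hp hq =>
    rw [map_add]
    exact add_mem hp hq
  | monomial n r =>
    rw [← Polynomial.C_mul_X_pow_eq_monomial, toL_monomial]
    exact single_mem_LpIn (s := {n : ℤ | 0 ≤ n}) (Int.natCast_nonneg n) r

lemma toL_surj (f : LaurentPolynomial B) (hf : f ∈ LpIn (B := B) {n : ℤ | 0 ≤ n}) :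
    ∃ p, Polynomial.toLaurent p = f := by
  have h1 : ∀ s : Finset ℤ, (∀ n ∈ s, 0 ≤ n) →
      ∃ p, Polynomial.toLaurent p = ∑ n ∈ s, AddMonoidAlgebra.single n (f.coeff n) := by
    classical
    intro s
    induction s using Finset.induction_on with
    | empty => exact fun _ => ⟨0, by rw [map_zero, Finset.sum_empty]⟩
    | insert n s hn ih =>
      intro hs
      obtain ⟨p, hp⟩ := ih (fun m hm => hs m (Finset.mem_insert_of_mem hm))
      have hn0 := hs n (Finset.mem_insert_self n s)
      obtain ⟨k, rfl⟩ := Int.eq_ofNat_of_zero_le hn0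
      refine ⟨Polynomial.C (f.coeff k) * Polynomial.X ^ k + p, ?_⟩
      rw [map_add, toL_monomial, hp, Finset.sum_insert hn]
  obtain ⟨p, hp⟩ := h1 f.coeff.support (fun n hn => by
    by_contra hcon
    exact (Finsupp.mem_support_iff.mp hn) (hf n hcon))
  exact ⟨p, by rw [hp, ← lp_decomp]⟩

lemma inv_mem {f : LaurentPolynomial B} {s t : Set ℤ} (h : ∀ n, -n ∈ s → n ∈ t)
    (hf : f ∈ LpIn s) : LaurentPolynomial.invert f ∈ LpIn t := by
  intro n hn
  rw [LaurentPolynomial.invert_apply]
  exact hf _ (fun h' => hn (h n h'))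

lemma inv_inv (f : LaurentPolynomial B) :
    LaurentPolynomial.invert (LaurentPolynomial.invert f) = f :=
  LaurentPolynomial.involutive_invert f

end Lp

lemma mem_exR_ca (n : ℤ) : n ∈ exR ca ↔ 0 ≤ n := by
  constructor
  · intro h
    exact h.1 (by simp [ca, Cov.one])
  · intro h
    exact ⟨fun _ => h, fun h' => absurd (Finset.mem_singleton_self false) h'⟩

lemma mem_exI_ca (n : ℤ) : n ∈ exI ca ↔ 0 ≤ n := by
  constructor
  · intro h
    exact h.1 (by simp [ca, Cov.one])
  · intro h
    exact ⟨fun _ => h, fun h' => absurd (Finset.mem_singleton_self false) h'⟩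

lemma mem_exR_cb (n : ℤ) : n ∈ exR cb ↔ n ≤ 0 := by
  constructor
  · intro h
    exact h.2 (by simp [cb, Cov.one])
  · intro h
    exact ⟨fun h' => absurd (Finset.mem_singleton_self true) h', fun _ => h⟩

lemma mem_exI_cb (n : ℤ) : n ∈ exI cb ↔ n ≤ -1 := by
  constructor
  · intro h
    exact h.2 (by simp [cb, Cov.one])
  · intro h
    exact ⟨fun h' => absurd (Finset.mem_singleton_self true) h', fun _ => h⟩

section Charts

variable {B : Type} [CommRing B] (a b : Bˣ) (K : Type) [CommRing K] [Algebra K B]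

lemma aev (ψ : Polynomial B →ₐ[B] LaurentPolynomial B) (p : Polynomial B) :
    Polynomial.aeval (algebraMap (LaurentPolynomial B) (ConT a b) (ψ Polynomial.X)) p =
      algebraMap (LaurentPolynomial B) (ConT a b) (ψ p) := by
  have h : (Polynomial.aeval (algebraMap (LaurentPolynomial B) (ConT a b) (ψ Polynomial.X)) :
      Polynomial B →ₐ[B] ConT a b) =
      (IsScalarTower.toAlgHom B (LaurentPolynomial B) (ConT a b)).comp ψ := by
    apply Polynomial.algHom_ext
    rw [Polynomial.aeval_X]
    rfl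
  exact DFunLike.congr_fun h p

lemma chart (k : Cov Bool) (c0 c2 : B) (ψ : Polynomial B →ₐ[B] LaurentPolynomial B)
    (g : LaurentPolynomial B)
    (h : (⟨0, g⟩ : ConT a b) * ⟨0, g⟩ = algebraMap B (ConT a b) c0 +
      algebraMap B (ConT a b) c2 *
        (algebraMap (LaurentPolynomial B) (ConT a b) (ψ Polynomial.X)) ^ 2)
    (hinj : Function.Injective ψ) (hg : IsUnit g)
    (hre : ∀ f, f ∈ LpIn (B := B) (exR k) ↔ ∃ p, ψ p = f)
    (him : ∀ f, f ∈ LpIn (B := B) (exI k) ↔ ∃ p, ψ p * g = f)
    (h2 : IsUnit (2 : B)) (h0 : IsUnit c0) (hK : Algebra.Smooth K B) :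
    Algebra.Smooth K (conSub a b K k) := by
  let D : QQ c0 c2 →ₐ[B] ConT a b :=
    liftA (algebraMap (LaurentPolynomial B) (ConT a b) (ψ Polynomial.X)) ⟨0, g⟩ h
  have hD : ∀ z, D z = algebraMap (LaurentPolynomial B) (ConT a b) (ψ z.re) +
      algebraMap (LaurentPolynomial B) (ConT a b) (ψ z.im) * ⟨0, g⟩ := by
    intro z
    change (Polynomial.aeval (algebraMap (LaurentPolynomial B) (ConT a b) (ψ Polynomial.X)) z.re :
        ConT a b) +
      Polynomial.aeval (algebraMap (LaurentPolynomial B) (ConT a b) (ψ Polynomial.X)) z.im *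
        ⟨0, g⟩ = _
    rw [aev, aev]
  have hDre : ∀ z, (D z).re = ψ z.re := by
    intro z
    rw [hD]
    change ψ z.re + (ψ z.im * 0 + _ * 0 * g) = _
    ring
  have hDim : ∀ z, (D z).im = ψ z.im * g := by
    intro z
    rw [hD]
    change 0 + (ψ z.im * g + 0 * 0 + 0 * 0 * g) = _
    ring
  let DK : QQ c0 c2 →ₐ[K] ConT a b := D.restrictScalars K
  have hDK : ∀ z, DK z = D z := fun z => rfl
  have hDinj : Function.Injective DK := by
    intro z w hzw
    rw [hDK, hDK] at hzw
    have h1 := congrArg QuadraticAlgebra.re hzw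
    have h3 := congrArg QuadraticAlgebra.im hzw
    rw [hDre, hDre] at h1
    rw [hDim, hDim] at h3
    apply QuadraticAlgebra.ext
    · exact hinj h1
    · exact hinj (hg.mul_left_injective h3)
  have hrange : DK.range = conSub a b K k := by
    ext z
    rw [AlgHom.mem_range]
    constructor
    · rintro ⟨w, rfl⟩
      refine ⟨?_, ?_⟩
      · rw [hDK, hDre]
        exact (hre _).mpr ⟨_, rfl⟩
      · rw [hDK, hDim]
        exact (him _).mpr ⟨_, rfl⟩
    · rintro ⟨hz1, hz2⟩
      obtain ⟨p, hp⟩ := (hre _).mp hz1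
      obtain ⟨q, hq⟩ := (him _).mp hz2
      refine ⟨⟨p, q⟩, ?_⟩
      rw [hDK]
      apply QuadraticAlgebra.ext
      · rw [hDre, hp]
      · rw [hDim, hq]
  have hs := smooth_model K c0 c2 h2 h0 hK
  exact Algebra.Smooth.of_equiv ((AlgEquiv.ofInjective DK hDinj).trans
    (Subalgebra.equivOfEq _ _ hrange))

lemma smooth_ca (h2 : IsUnit (2 : B)) (hK : Algebra.Smooth K B) :
    Algebra.Smooth K (conSub a b K ca) := by
  refine chart a b K ca (↑b⁻¹) (-(↑b⁻¹ * a)) Polynomial.toLaurentAlg 1 ?_ ?_ isUnit_one ?_ ?_ h2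
    b⁻¹.isUnit hK
  · rw [Polynomial.toLaurentAlg_apply, Polynomial.toLaurent_X, ← map_pow,
      LaurentPolynomial.T_pow]
    apply QuadraticAlgebra.ext
    · change (0 : LaurentPolynomial B) * 0 + conQ a b * 1 * 1 =
        algebraMap B (LaurentPolynomial B) (↑b⁻¹) +
        (algebraMap B (LaurentPolynomial B) (-(↑b⁻¹ * a)) * LaurentPolynomial.T (2 * 1) +
          conQ a b * 0 * 0)
      rw [← LaurentPolynomial.C_eq_algebraMap, ← LaurentPolynomial.C_eq_algebraMap, map_neg,
        map_mul]
      norm_num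
      ring
    · change (0 : LaurentPolynomial B) * 1 + 1 * 0 + 0 * 1 * 1 = 0 +
        (algebraMap B (LaurentPolynomial B) (-(↑b⁻¹ * a)) * 0 + 0 * _ + 0 * 0 * 0)
      ring
  · exact Polynomial.toLaurent_injective
  · intro f
    have h : f ∈ LpIn (B := B) (exR ca) ↔ f ∈ LpIn (B := B) {n : ℤ | 0 ≤ n} := by
      constructor
      · exact LpIn.mono (fun n hn => (mem_exR_ca n).mp hn)
      · exact LpIn.mono (fun n hn => (mem_exR_ca n).mpr hn)
    rw [h]
    constructor
    · exact toL_surj f
    · rintro ⟨p, rfl⟩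
      exact toL_mem p
  · intro f
    have h : f ∈ LpIn (B := B) (exI ca) ↔ f ∈ LpIn (B := B) {n : ℤ | 0 ≤ n} := by
      constructor
      · exact LpIn.mono (fun n hn => (mem_exI_ca n).mp hn)
      · exact LpIn.mono (fun n hn => (mem_exI_ca n).mpr hn)
    rw [h]
    constructor
    · intro hf
      obtain ⟨p, hp⟩ := toL_surj f hf
      exact ⟨p, by rw [mul_one]; exact hp⟩
    · rintro ⟨p, rfl⟩
      rw [mul_one]
      exact toL_mem p

lemma smooth_cb (h2 : IsUnit (2 : B)) (hK : Algebra.Smooth K B) :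
    Algebra.Smooth K (conSub a b K cb) := by
  refine chart a b K cb (-(↑b⁻¹ * a)) (↑b⁻¹)
    ((LaurentPolynomial.invert (R := B)).toAlgHom.comp Polynomial.toLaurentAlg)
    (LaurentPolynomial.T (-1)) ?_ ?_ (LaurentPolynomial.isUnit_T _) ?_ ?_ h2
    ((b⁻¹.isUnit.mul a.isUnit).neg) hK
  · have hX : ((LaurentPolynomial.invert (R := B)).toAlgHom.comp Polynomial.toLaurentAlg)
        Polynomial.X = LaurentPolynomial.T (-1) := by
      change LaurentPolynomial.invert (Polynomial.toLaurent Polynomial.X) = _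
      rw [Polynomial.toLaurent_X, LaurentPolynomial.invert_T]
    rw [hX, ← map_pow, LaurentPolynomial.T_pow]
    have hT : (LaurentPolynomial.T 2 : LaurentPolynomial B) * LaurentPolynomial.T (-2) = 1 := by
      rw [← LaurentPolynomial.T_add]
      norm_num
    have hTT : (LaurentPolynomial.T (-1) : LaurentPolynomial B) * LaurentPolynomial.T (-1) =
        LaurentPolynomial.T (-2) := by
      rw [← LaurentPolynomial.T_add]
      norm_num
    apply QuadraticAlgebra.ext
    · change (0 : LaurentPolynomial B) * 0 + conQ a b * LaurentPolynomial.T (-1) *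
          LaurentPolynomial.T (-1) =
        algebraMap B (LaurentPolynomial B) (-(↑b⁻¹ * a)) +
        (algebraMap B (LaurentPolynomial B) (↑b⁻¹) * LaurentPolynomial.T (2 * (-1)) +
          conQ a b * 0 * 0)
      rw [← LaurentPolynomial.C_eq_algebraMap, ← LaurentPolynomial.C_eq_algebraMap, map_neg,
        map_mul]
      have e2 : (2 * (-1) : ℤ) = -2 := by norm_num
      rw [e2, mul_assoc, hTT]
      linear_combination (-(LaurentPolynomial.C (↑b⁻¹ : B)) * LaurentPolynomial.C (a : B)) * hT
    · change (0 : LaurentPolynomial B) * LaurentPolynomial.T (-1) + LaurentPolynomial.T (-1) * 0 +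
          0 * LaurentPolynomial.T (-1) * LaurentPolynomial.T (-1) = 0 +
        (algebraMap B (LaurentPolynomial B) (↑b⁻¹) * 0 + 0 * _ + 0 * 0 * 0)
      ring
  · exact (LaurentPolynomial.invert (R := B)).injective.comp Polynomial.toLaurent_injective
  · intro f
    have h : f ∈ LpIn (B := B) (exR cb) ↔ f ∈ LpIn (B := B) {n : ℤ | n ≤ 0} := by
      constructor
      · exact LpIn.mono (fun n hn => (mem_exR_cb n).mp hn)
      · exact LpIn.mono (fun n hn => (mem_exR_cb n).mpr hn)
    rw [h]
    constructor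
    · intro hf
      obtain ⟨p, hp⟩ := toL_surj (LaurentPolynomial.invert f)
        (inv_mem (fun n hn => by
          have h1 : -n ≤ 0 := hn
          change 0 ≤ n
          omega) hf)
      refine ⟨p, ?_⟩
      change LaurentPolynomial.invert (Polynomial.toLaurent p) = f
      rw [hp, inv_inv]
    · rintro ⟨p, rfl⟩
      exact inv_mem (fun n hn => by
        have h1 : 0 ≤ -n := hn
        change n ≤ 0
        omega) (toL_mem p)
  · intro f
    have h : f ∈ LpIn (B := B) (exI cb) ↔ f ∈ LpIn (B := B) {n : ℤ | n ≤ -1} := by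
      constructor
      · exact LpIn.mono (fun n hn => (mem_exI_cb n).mp hn)
      · exact LpIn.mono (fun n hn => (mem_exI_cb n).mpr hn)
    rw [h]
    constructor
    · intro hf
      have hf1 : f * LaurentPolynomial.T 1 ∈ LpIn (B := B) {n : ℤ | n ≤ 0} :=
        LpIn.mul (s := {n : ℤ | n ≤ -1}) (t := {1}) (fun x hx y hy => by
          rw [Set.mem_singleton_iff] at hy
          have h1 : x ≤ -1 := hx
          change x + y ≤ 0
          omega) hf (single_mem_LpIn (Set.mem_singleton 1) _)
      obtain ⟨p, hp⟩ := toL_surj (LaurentPolynomial.invert (f * LaurentPolynomial.T 1))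
        (inv_mem (fun n hn => by
          have h1 : -n ≤ 0 := hn
          change 0 ≤ n
          omega) hf1)
      refine ⟨p, ?_⟩
      change LaurentPolynomial.invert (Polynomial.toLaurent p) * _ = f
      rw [hp, inv_inv, LaurentPolynomial.mul_T_assoc]
      norm_num
    · rintro ⟨p, rfl⟩
      refine LpIn.mul (s := {n : ℤ | n ≤ 0}) (t := {-1}) (fun x hx y hy => by
          rw [Set.mem_singleton_iff] at hy
          have h1 : x ≤ 0 := hx
          change x + y ≤ -1
          omega) ?_ (single_mem_LpIn (Set.mem_singleton (-1)) _)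
      exact inv_mem (fun n hn => by
        have h1 : 0 ≤ -n := hn
        change n ≤ 0
        omega) (toL_mem p)

end Charts

end CSM_

theorem csm_proof (hCLA : Stmt_CLA) : Stmt_CSM := by
  intro K B _ _ _ a b h2 hK k
  rcases cov_cases k with rfl | rfl | rfl
  · exact CSM_.smooth_ca a b K h2 hK
  · exact CSM_.smooth_cb a b K h2 hK
  · have h1 : Algebra.Smooth K ((Cnc a b K).ring ca) := CSM_.smooth_ca a b K h2 hK
    let φ : (Cnc a b K).ring ca →ₐ[K] (Cnc a b K).ring cab :=
      ((Cnc a b K).map (homOfLE cab_le_ca).op).hom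
    letI : Algebra ((Cnc a b K).ring ca) ((Cnc a b K).ring cab) :=
      ((Cnc a b K).map (homOfLE cab_le_ca).op).hom.toRingHom.toAlgebra
    have h3 : IsLocalization.Away (TA (K := K) a b) ((Cnc a b K).ring cab) := hCLA K B a b
    have h4 : Algebra.Smooth ((Cnc a b K).ring ca) ((Cnc a b K).ring cab) :=
      Algebra.Smooth.of_isLocalization_Away (TA (K := K) a b)
    have h5 : IsScalarTower K ((Cnc a b K).ring ca) ((Cnc a b K).ring cab) :=
      IsScalarTower.of_algebraMap_eq (fun x => (φ.commutes x).symm)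
    exact Algebra.Smooth.comp K ((Cnc a b K).ring ca) ((Cnc a b K).ring cab)

end Pool.CRD.Cn
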