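import Pool.Agent.CRD.Cnc.Stmts

/-!
# CRD / Cnc, module CTT: the Euler characteristic of a torsion module
-/

open CategoryTheory Opposite Limits

namespace Pool.CRD.Cn

theorem ctt_proof (hTFD : Stmt_TFD) (hTSJ : Stmt_TSJ) : Stmt_CTT := by
  intro L _ a b h2 M hM
  have hfin := hTFD L a b h2 M hM
  obtain ⟨hA, hB⟩ := hTSJ L a b h2 M hM
  have := hfin ca
  have := hfin cb
  have := hfin cab
  have hdC : Function.Surjective (dC M.obj) := by
    intro z
    obtain ⟨x, hx⟩ := hA z
    refine ⟨(x, 0), ?_⟩
    rw [dC_apply, hx, map_zero, sub_zero]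
  have hH1 : Module.finrank L (H1c M.obj) = 0 := by
    have hr : LinearMap.range (dC M.obj) = ⊤ := LinearMap.range_eq_top.2 hdC
    have : Subsingleton (H1c M.obj) := by
      unfold H1c
      rw [Submodule.Quotient.subsingleton_iff]
      exact hr
    exact Module.finrank_zero_of_subsingleton
  have hrn : Module.finrank L (sec M.obj cab) + Module.finrank L (H0 M.obj) =
      Module.finrank L (sec M.obj ca) + Module.finrank L (sec M.obj cb) := by
    have h := LinearMap.finrank_range_add_finrank_ker (dC M.obj)
    rw [LinearMap.range_eq_top.2 hdC, finrank_top, Module.finrank_prod] at h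
    exact h
  have hle1 : Module.finrank L (sec M.obj cab) ≤ Module.finrank L (sec M.obj ca) :=
    (rA M.obj).finrank_le_finrank_of_surjective hA
  have hle2 : Module.finrank L (sec M.obj cab) ≤ Module.finrank L (sec M.obj cb) :=
    (rB M.obj).finrank_le_finrank_of_surjective hB
  have hchi : chiC M.obj = Module.finrank L (sec M.obj ca) + Module.finrank L (sec M.obj cb) -
      Module.finrank L (sec M.obj cab) := by
    unfold chiC
    rw [hH1]
    push_cast
    omega
  refine ⟨hchi, by rw [hchi]; omega, ?_⟩
  intro h0
  rw [hchi] at h0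
  have ha0 : Module.finrank L (sec M.obj ca) = 0 := by omega
  have hb0 : Module.finrank L (sec M.obj cb) = 0 := by omega
  have hab0 : Module.finrank L (sec M.obj cab) = 0 := by omega
  intro k
  rcases cov_cases k with rfl | rfl | rfl
  · exact Module.finrank_zero_iff.1 ha0
  · exact Module.finrank_zero_iff.1 hb0
  · exact Module.finrank_zero_iff.1 hab0

end Pool.CRD.Cn
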