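import Pool.Agent.CRD.Cnc.Stmts

/-!
# CRD / Cnc / DEE: on a conic without rational point all degrees are even
-/

open CategoryTheory Opposite Limits

namespace Pool.CRD.Cn

theorem dee_proof (hDEV : Stmt_DEV) (hSIM : Stmt_SIM) (hEVN : Stmt_EVN) (hCHA : Stmt_CHA)
    (hRKA : Stmt_RKA) (hOJN : Stmt_OJN) : Stmt_DEE := by
  intro L _ a b h2 hnr _ M
  have hf : IsAdd (fun M : Coh (Cnc a b L) => ((degC M.obj : ℤ) : ZMod 2)) := by
    intro S hS
    have h1 := hCHA L a b S hS
    have h3 := hRKA L a b h2 S hS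
    simp only [degC, h1, h3]
    push_cast
    ring
  have hO : ((degC (Oc a b 0 : Coh (Cnc a b L)).obj : ℤ) : ZMod 2) = 0 := by
    have h1 := hOJN L a b 0
    have h3 : degC (Oc a b 0 : Coh (Cnc a b L)).obj = 0 := by
      unfold degC
      have h4 : chiC (Oc a b 0 : Coh (Cnc a b L)).obj = 2 * 0 + 1 := h1.1
      have h5 : rkC (Oc a b 0 : Coh (Cnc a b L)).obj = 1 := h1.2
      rw [h4, h5]
      norm_num
    rw [h3]
    rfl
  have hT : ∀ T : Coh (Cnc a b L), Simple T → rkC T.obj = 0 →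
      ((degC T.obj : ℤ) : ZMod 2) = 0 := by
    intro T hs hr
    obtain ⟨k, m, hm, hfin, hchi⟩ := hSIM L a b h2 T hs hr
    have hev := hEVN L a b h2 hnr k m hm hfin
    have h3 : degC T.obj = Module.finrank L ((Cnc a b L).ring k ⧸ m) := by
      unfold degC
      rw [hr, hchi, sub_zero]
    rw [h3, Int.cast_natCast]
    exact (ZMod.natCast_eq_zero_iff_even).2 hev
  have h := hDEV L a b h2 (ZMod 2) (fun M : Coh (Cnc a b L) => ((degC M.obj : ℤ) : ZMod 2))
    hf hO hT M
  exact (ZMod.intCast_eq_zero_iff_even).1 h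

end Pool.CRD.Cn
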