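import Pool.Agent.CRD.Cnc.Stmts

/-!
# CRD / Cnc: dévissage on the conic
-/

open CategoryTheory Opposite Limits

namespace Pool.CRD.Cn

namespace DEV_

section gen
variable {L : Type} [Field L] {C : Type} [SmallCategory C] {R : PAlg L C}

/-- a morphism on sections, linear over the base field -/
noncomputable def secL {M N : PMod R} (φ : M ⟶ N) (U : C) : sec M U →ₗ[L] sec N U where
  toFun x := φ.app (op U) x
  map_add' x y := map_add (φ.app (op U)).hom x y
  map_smul' k x := map_smul (φ.app (op U)).hom (cst R (op U) k) x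

theorem fin_add [R.Good] {S : ShortComplex (Coh R)} (h : S.ShortExact) (U : C)
    (h2 : Module.Finite L (sec S.X₂.obj U)) :
    Module.finrank L (sec S.X₂.obj U) =
      Module.finrank L (sec S.X₁.obj U) + Module.finrank L (sec S.X₃.obj U) := by
  have hinj : Function.Injective (secL S.f.hom U) := ses_inj h (op U)
  have hsurj : Function.Surjective (secL S.g.hom U) := ses_surj h (op U)
  have hex : Function.Exact (secL S.f.hom U) (secL S.g.hom U) := ses_exact h (op U)
  have h3 := LinearMap.finrank_range_add_finrank_ker (secL S.g.hom U)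
  rw [LinearMap.range_eq_top.2 hsurj, finrank_top, LinearMap.exact_iff.1 hex,
    LinearMap.finrank_range_of_inj hinj] at h3
  omega

end gen

variable {L : Type} [Field L] {a b : Lˣ}

/-- the sum of the dimensions of the sections -/
noncomputable def dd (M : Coh (Cnc a b L)) : ℕ :=
  Module.finrank L (sec M.obj ca) + Module.finrank L (sec M.obj cb) +
    Module.finrank L (sec M.obj cab)

theorem rk_nonneg (M : PMod (Cnc a b L)) : 0 ≤ rkC M := by
  unfold rkC; positivity

theorem rank_zero (hRKA : Stmt_RKA) (hTFD : Stmt_TFD) (h2 : (2 : L) ≠ 0) [(Cnc a b L).Good]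
    {G : Type} [AddCommGroup G] {f : Coh (Cnc a b L) → G} (hf : IsAdd f)
    (hT : ∀ T : Coh (Cnc a b L), Simple T → rkC T.obj = 0 → f T = 0) :
    ∀ (n : ℕ) (M : Coh (Cnc a b L)), dd M = n → rkC M.obj = 0 → f M = 0 := by
  intro n
  induction n using Nat.strong_induction_on with
  | _ n ih =>
    intro M hn hM
    have hfin := hTFD L a b h2 M hM
    have hzero : ∀ N : Coh (Cnc a b L), rkC N.obj = 0 → (dd N = 0 ↔ IsZero N) := by
      intro N hN
      have hfinN := hTFD L a b h2 N hN
      constructor
      · intro h0
        rw [coh_isZero_iff]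
        intro U
        have := hfinN U
        unfold dd at h0
        have h1 : Module.finrank L (sec N.obj U) = 0 := by
          rcases cov_cases U with rfl | rfl | rfl <;> omega
        exact Module.finrank_zero_iff.1 h1
      · intro hz
        rw [coh_isZero_iff] at hz
        have h1 : ∀ U, Module.finrank L (sec N.obj U) = 0 := by
          intro U
          have := hfinN U
          have := hz U
          exact Module.finrank_zero_of_subsingleton
        unfold dd
        rw [h1, h1, h1]
    by_cases h0 : IsZero M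
    · exact hf.of_isZero h0
    by_cases hs : Simple M
    · exact hT M hs hM
    obtain ⟨Y, g, hg, hni, hg0⟩ : ∃ (Y : Coh (Cnc a b L)) (g : Y ⟶ M), Mono g ∧ ¬ IsIso g ∧
        g ≠ 0 := by
      by_contra hcon
      apply hs
      refine ⟨fun {Y} g => ?_⟩
      intro hg
      constructor
      · intro hiso hg0
        apply h0
        rw [IsZero.iff_id_eq_zero]
        rw [← IsIso.inv_hom_id g]
        exact (congrArg (fun t => inv g ≫ t) hg0).trans comp_zero
      · intro hg0
        by_contra hni
        exact hcon ⟨Y, g, hg, hni, hg0⟩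
    have hSE : (ShortComplex.mk g (cokernel.π g) (cokernel.condition g)).ShortExact :=
      { exact := ShortComplex.exact_cokernel g
        mono_f := inferInstance
        epi_g := inferInstance }
    have hrk : rkC M.obj = rkC Y.obj + rkC (cokernel g).obj := hRKA L a b h2 _ hSE
    have hY0 : rkC Y.obj = 0 := by
      have := rk_nonneg Y.obj
      have := rk_nonneg (cokernel g).obj
      omega
    have hC0 : rkC (cokernel g).obj = 0 := by omega
    have hdd : dd M = dd Y + dd (cokernel g) := by
      have h1 : ∀ U, Module.finrank L (sec M.obj U) =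
          Module.finrank L (sec Y.obj U) + Module.finrank L (sec (cokernel g).obj U) :=
        fun U => fin_add hSE U (hfin U)
      unfold dd
      rw [h1, h1, h1]
      omega
    have hYpos : dd Y ≠ 0 := by
      rw [Ne, hzero Y hY0]
      intro hz
      exact hg0 (hz.eq_of_src _ _)
    have hCpos : dd (cokernel g) ≠ 0 := by
      rw [Ne, hzero _ hC0]
      intro hz
      have : Epi g := Preadditive.epi_of_isZero_cokernel g hz
      exact hni (isIso_of_mono_of_epi g)
    rw [hf.mono_eq g, ih (dd Y) (by omega) Y rfl hY0, ih (dd (cokernel g)) (by omega) _ rfl hC0,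
      add_zero]

/-- the value of a section of `O(j)` -/
noncomputable def val {j : ℤ} {k : Cov Bool} (z : sec (OO a b L j) k) : ConT a b :=
  ((show conSub a b L k from z) : ConT a b)

/-- a section of `O(j)` as an element of the ring -/
noncomputable def fr {j : ℤ} {k : Cov Bool} (z : sec (OO a b L j) k) : (Cnc a b L).ring k := z

theorem val_inj {j : ℤ} {k : Cov Bool} {z w : sec (OO a b L j) k} (h : val z = val w) : z = w :=
  Subtype.ext h

theorem pe_ca : pe ca = 0 := by
  classical
  unfold pe
  rw [if_pos]
  exact Finset.mem_singleton_self false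

theorem pe_cb : pe cb = 1 := by
  classical
  unfold pe
  rw [if_neg]
  intro h
  have := Finset.mem_singleton.1 h
  exact absurd this (by decide)

theorem pe_cab : pe cab = 0 := by
  classical
  unfold pe
  rw [if_pos]
  exact Finset.mem_univ _

theorem val_rA {j : ℤ} (z : sec (OO a b L j) ca) : val (rA (OO a b L j) z) = val z := by
  have h1 : val (rA (OO a b L j) z) = algebraMap (LaurentPolynomial L) (ConT a b)
      (LaurentPolynomial.T (j * (pe ca - pe cab))) * val z := rfl
  rw [h1, pe_ca, pe_cab, sub_self, mul_zero, LaurentPolynomial.T_zero, map_one, one_mul]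

theorem val_rB {j : ℤ} (z : sec (OO a b L j) cb) : val (rB (OO a b L j) z) =
    algebraMap (LaurentPolynomial L) (ConT a b) (LaurentPolynomial.T j) * val z := by
  have h1 : val (rB (OO a b L j) z) = algebraMap (LaurentPolynomial L) (ConT a b)
      (LaurentPolynomial.T (j * (pe cb - pe cab))) * val z := rfl
  rw [h1, pe_cb, pe_cab, sub_zero, mul_one]

theorem val_one {j : ℤ} {k : Cov Bool} : val (one' (K := L) a b j k) = 1 := rfl

theorem val_smul {j : ℤ} {k : Cov Bool} (r : (Cnc a b L).ring k) (z : sec (OO a b L j) k) :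
    val (r • z) = ((show conSub a b L k from r) : ConT a b) * val z := rfl

/-- the section `T ^ (-n)` on the second chart -/
noncomputable def yy (a b : Lˣ) (n : ℕ) : sec (OO a b L 0) cb :=
  (show conSub a b L cb from Tel a b L (n := -n)
    ⟨fun h => absurd (Finset.mem_singleton_self true) h, fun _ => by simp⟩)

theorem val_yy (n : ℕ) : val (yy (L := L) a b n) =
    algebraMap (LaurentPolynomial L) (ConT a b) (LaurentPolynomial.T (-n)) := rfl

theorem oo_neg (hCDM : Stmt_CDM) (hHOJ : Stmt_HOJ) (h2 : (2 : L) ≠ 0) [(Cnc a b L).Good] (n : ℕ) :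
    ∃ φ : Oc a b (-n) ⟶ Oc a b 0, Mono φ := by
  have hcomp : Tn (K := L) a b (-(n : ℤ)) • rA (OO a b L 0) (one' (K := L) a b 0 ca) =
      rB (OO a b L 0) (yy a b n) := by
    apply val_inj
    rw [val_smul, val_rA, val_one, val_rB, val_yy, LaurentPolynomial.T_zero, map_one, mul_one,
      one_mul]
    rfl
  obtain ⟨φ, hφa, hφb⟩ := hHOJ L L a b (-(n : ℤ)) (OO a b L 0) (one' (K := L) a b 0 ca)
    (yy a b n) hcomp
  refine ⟨ObjectProperty.homMk φ, ?_⟩
  rw [coh_mono_iff]
  have key : ∀ k, val (j := 0) (k := k) (φ.app (op k) (one' (K := L) a b (-n) k)) ≠ 0 := by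
    intro k
    rcases cov_cases k with rfl | rfl | rfl
    · rw [hφa, val_one]; exact one_ne_zero
    · rw [hφb, val_yy]
      intro h0
      have h1 : algebraMap (LaurentPolynomial L) (ConT a b) (LaurentPolynomial.T (-n)) *
          algebraMap (LaurentPolynomial L) (ConT a b) (LaurentPolynomial.T n) = 1 := by
        rw [← map_mul, ← LaurentPolynomial.T_add, neg_add_cancel, LaurentPolynomial.T_zero, map_one]
      rw [h0, zero_mul] at h1
      exact zero_ne_one h1
    · have h1 : one' (K := L) a b (-n) cab = rA (OO a b L (-n)) (one' (K := L) a b (-n) ca) := by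
        apply val_inj
        rw [val_rA, val_one, val_one]
      have h3 : φ.app (op cab) (rA (OO a b L (-n)) (one' (K := L) a b (-n) ca)) =
          rA (OO a b L 0) (φ.app (op ca) (one' (K := L) a b (-n) ca)) := rs_nat φ _ _
      rw [h1, h3, hφa, val_rA, val_one]
      exact one_ne_zero
  intro X
  have hdom := hCDM L a b h2 X.unop
  intro z w hzw
  have h4 : ∀ z : sec (OO a b L (-n)) X.unop, val (j := 0) (φ.app X z) =
      val z * val (j := 0) (φ.app X (one' (K := L) a b (-n) X.unop)) := by
    intro z
    have h5 : z = (show (Cnc a b L).ring X.unop from z) • one' (K := L) a b (-n) X.unop := by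
      apply val_inj
      rw [val_smul, val_one, mul_one]
      rfl
    have h6 : φ.app X z = (show (Cnc a b L).ring X.unop from z) •
        φ.app X (one' (K := L) a b (-n) X.unop) := by
      conv_lhs => rw [h5]
      exact map_smul (φ.app X).hom _ _
    rw [h6]
    rfl
  have h7 : val (j := 0) (φ.app X z) = val (j := 0) (φ.app X w) := congrArg _ hzw
  rw [h4 z, h4 w] at h7
  have h8 : fr z * fr (j := 0) (φ.app X (one' (K := L) a b (-n) X.unop)) =
      fr w * fr (j := 0) (φ.app X (one' (K := L) a b (-n) X.unop)) := Subtype.ext h7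
  have h10 : fr z = fr w := by
    refine mul_right_cancel₀ ?_ h8
    intro h9
    exact key X.unop (congrArg Subtype.val h9)
  exact h10

end DEV_

open DEV_ in
theorem dev_proof (hCDM : Stmt_CDM) (hRKA : Stmt_RKA) (hTFD : Stmt_TFD) (hSEC : Stmt_SEC)
    (hHOJ : Stmt_HOJ) (hOJN : Stmt_OJN) : Stmt_DEV := by
  intro L _ a b h2 _ G _ f hf h0 hT
  have hz := rank_zero (a := a) (b := b) hRKA hTFD h2 hf hT
  have hneg : ∀ n : ℕ, f (Oc a b (-n)) = 0 := by
    intro n
    obtain ⟨φ, hφ⟩ := oo_neg (a := a) (b := b) hCDM hHOJ h2 n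
    have hSE : (ShortComplex.mk φ (cokernel.π φ) (cokernel.condition φ)).ShortExact :=
      { exact := ShortComplex.exact_cokernel φ
        mono_f := inferInstance
        epi_g := inferInstance }
    have hrk : rkC (Oc a b 0).obj = rkC (Oc a b (-n)).obj + rkC (cokernel φ).obj :=
      hRKA L a b h2 _ hSE
    have h1 : rkC (Oc a b 0).obj = 1 := (hOJN L a b 0).2
    have h3 : rkC (Oc a b (-n)).obj = 1 := (hOJN L a b (-n)).2
    have hc : f (cokernel φ) = 0 := hz _ _ rfl (by omega)
    have h4 := hf.mono_eq φ
    rw [h0, hc, add_zero] at h4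
    exact h4.symm
  suffices h : ∀ (n : ℕ) (M : Coh (Cnc a b L)), rkC M.obj = n → f M = 0 by
    intro M
    exact h (rkC M.obj).toNat M (Int.toNat_of_nonneg (rk_nonneg M.obj)).symm
  intro n
  induction n with
  | zero => intro M hM; exact hz _ M rfl (by exact_mod_cast hM)
  | succ n ih =>
    intro M hM
    obtain ⟨m, φ, hφ⟩ := hSEC L a b h2 M (by rw [hM]; positivity)
    have hSE : (ShortComplex.mk φ (cokernel.π φ) (cokernel.condition φ)).ShortExact :=
      { exact := ShortComplex.exact_cokernel φ
        mono_f := inferInstance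
        epi_g := inferInstance }
    have hrk : rkC M.obj = rkC (Oc a b (-m)).obj + rkC (cokernel φ).obj := hRKA L a b h2 _ hSE
    have h3 : rkC (Oc a b (-m)).obj = 1 := (hOJN L a b (-m)).2
    rw [hf.mono_eq φ, hneg, ih _ (by push_cast at hM; omega), add_zero]

end Pool.CRD.Cn
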