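import Pool.Agent.CRD.Cnc.Stmts

open CategoryTheory Opposite Limits

namespace Pool.CRD.Cn

namespace EVN_

/-- descent of a norm equation along a field extension of odd degree -/
theorem descend {L κ : Type} [Field L] [Field κ] [Algebra L κ] [Module.Finite L κ] (a b : L)
    (hb : b ≠ 0) (p q : κ) (h : p ^ 2 - algebraMap L κ a * q ^ 2 = algebraMap L κ b)
    (hodd : Odd (Module.finrank L κ)) : ∃ x y : L, x ^ 2 - a * y ^ 2 = b := by
  classical
  let β := Module.finBasis L κ
  let n := Module.finrank L κ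
  let φ := Algebra.leftMulMatrix β
  let ι : L →+* QuadraticAlgebra L a 0 := algebraMap L (QuadraticAlgebra L a 0)
  let w : QuadraticAlgebra L a 0 := ⟨0, 1⟩
  have hw : w * w = ι a := by
    ext
    · rw [QuadraticAlgebra.re_mul]
      change (0 : L) * 0 + a * 1 * 1 = a
      ring
    · rw [QuadraticAlgebra.im_mul]
      change (0 : L) * 1 + 1 * 0 + 0 * 1 * 1 = 0
      ring
  have hsw : star w = -w := by
    ext
    · rw [QuadraticAlgebra.re_star]
      change (0 : L) + 0 * 1 = - 0
      ring
    · rw [QuadraticAlgebra.im_star]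
      rfl
  have hsi : ∀ x : L, star (ι x) = ι x := by
    intro x
    ext
    · rw [QuadraticAlgebra.re_star]
      change x + 0 * 0 = x
      ring
    · rw [QuadraticAlgebra.im_star]
      change -(0 : L) = 0
      ring
  let P : Matrix (Fin n) (Fin n) (QuadraticAlgebra L a 0) := (φ p).map ι
  let Q : Matrix (Fin n) (Fin n) (QuadraticAlgebra L a 0) := (φ q).map ι
  have hPQ : P * Q = Q * P := by
    change (φ p).map ι * (φ q).map ι = (φ q).map ι * (φ p).map ι
    rw [← Matrix.map_mul, ← Matrix.map_mul, ← map_mul, ← map_mul, mul_comm]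
  have hN : P * P - ι a • (Q * Q) = ι b • (1 : Matrix (Fin n) (Fin n) (QuadraticAlgebra L a 0)) := by
    have h1 : φ p * φ p - a • (φ q * φ q) = b • (1 : Matrix (Fin n) (Fin n) L) := by
      rw [← map_mul, ← map_mul, ← map_smul, ← map_sub]
      have : p * p - a • (q * q) = algebraMap L κ b := by
        rw [← h, Algebra.smul_def]; ring
      rw [this, AlgHom.commutes]
      rw [Algebra.algebraMap_eq_smul_one]
    have h2 := congrArg (fun M : Matrix (Fin n) (Fin n) L => M.map ι) h1
    have h3 : (φ p * φ p - a • (φ q * φ q)).map ι = P * P - ι a • (Q * Q) := by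
      ext1 i j
      rw [Matrix.map_apply, Matrix.sub_apply, Matrix.smul_apply, Matrix.sub_apply,
        Matrix.smul_apply, map_sub, smul_eq_mul, map_mul, smul_eq_mul]
      change _ = ((φ p).map ι * (φ p).map ι) i j - ι a * ((φ q).map ι * (φ q).map ι) i j
      rw [← Matrix.map_mul, ← Matrix.map_mul, Matrix.map_apply, Matrix.map_apply]
    have h4 : (b • (1 : Matrix (Fin n) (Fin n) L)).map ι = ι b • 1 := by
      ext1 i j
      rw [Matrix.map_apply, Matrix.smul_apply, Matrix.smul_apply, smul_eq_mul, map_mul,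
        smul_eq_mul, Matrix.one_apply, Matrix.one_apply]
      split_ifs <;> simp
    exact h3.symm.trans (h2.trans h4)
  let Z := P + w • Q
  let Z' := P - w • Q
  have hZ : Z * Z' = ι b • (1 : Matrix (Fin n) (Fin n) (QuadraticAlgebra L a 0)) := by
    rw [← hN]
    change (P + w • Q) * (P - w • Q) = _
    rw [add_mul, mul_sub, mul_sub, Matrix.mul_smul, Matrix.smul_mul, Matrix.smul_mul,
      Matrix.mul_smul, smul_smul, hw, hPQ]
    abel
  have hmap : Z.map (starRingEnd (QuadraticAlgebra L a 0)) = Z' := by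
    ext1 i j
    rw [Matrix.map_apply]
    change star (P i j + w * Q i j) = P i j - w * Q i j
    rw [star_add, star_mul, hsw]
    change star (ι (φ p i j)) + star (ι (φ q i j)) * (-w) = ι (φ p i j) - w * ι (φ q i j)
    rw [hsi, hsi]
    ring
  have hdet : Z.det * star (Z.det) = ι b ^ n := by
    have h1 : star (Z.det) = Z'.det := by
      rw [← hmap]
      exact (starRingEnd (QuadraticAlgebra L a 0)).map_det Z
    rw [h1, ← Matrix.det_mul, hZ, Matrix.det_smul, Matrix.det_one, mul_one, Fintype.card_fin]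
  rw [← QuadraticAlgebra.algebraMap_norm_eq_mul_star] at hdet
  have hnorm : QuadraticAlgebra.norm (Z.det) = b ^ n := by
    have h1 : ι (QuadraticAlgebra.norm (Z.det)) = ι (b ^ n) := by rw [map_pow]; exact hdet
    exact congrArg QuadraticAlgebra.re h1
  rw [QuadraticAlgebra.norm_def] at hnorm
  obtain ⟨k, hk⟩ := hodd
  have hn : n = 2 * k + 1 := hk
  refine ⟨Z.det.re / b ^ k, Z.det.im / b ^ k, ?_⟩
  have hbk : b ^ k ≠ 0 := pow_ne_zero _ hb
  rw [div_pow, div_pow]
  have : (b ^ k) ^ 2 ≠ 0 := pow_ne_zero _ hbk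
  field_simp
  have hbn : b ^ n = (b ^ k) ^ 2 * b := by
    rw [hn]; ring
  rw [hbn] at hnorm
  linear_combination hnorm

/-- solutions over the residue field -/
theorem solve {κ : Type} [Field κ] (h2 : (2 : κ) ≠ 0) (a b u v : κ) (ha : a ≠ 0)
    (h : a * u ^ 2 + b * v ^ 2 = 1 ∨ u ^ 2 = a + b * v ^ 2) :
    ∃ p q : κ, p ^ 2 - a * q ^ 2 = b := by
  have hsq : ∀ c : κ, c ^ 2 = a → ∃ p q : κ, p ^ 2 - a * q ^ 2 = b := by
    intro c hc
    have hc0 : c ≠ 0 := by
      rintro rfl
      exact ha (by rw [← hc]; ring)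
    refine ⟨(b + 1) / 2, (b - 1) / (2 * c), ?_⟩
    rw [← hc]
    field_simp
    ring
  by_cases hv : v = 0
  · subst hv
    rcases h with h | h
    · have hu : u ≠ 0 := by
        rintro rfl
        simp at h
      refine hsq (1 / u) ?_
      field_simp
      linear_combination -h
    · refine hsq u ?_
      linear_combination h
  · rcases h with h | h
    · refine ⟨1 / v, u / v, ?_⟩
      field_simp
      linear_combination -h
    · refine ⟨u / v, 1 / v, ?_⟩
      field_simp
      linear_combination h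

theorem main {L R : Type} [Field L] [CommRing R] [Algebra L R] (h2 : (2 : L) ≠ 0) (a b : L)
    (ha : a ≠ 0) (hb : b ≠ 0) (hno : ¬ ∃ p q : L, p ^ 2 - a * q ^ 2 = b) (u v : R)
    (h : algebraMap L R a * u ^ 2 + algebraMap L R b * v ^ 2 = 1 ∨
      u ^ 2 = algebraMap L R a + algebraMap L R b * v ^ 2)
    (m : Ideal R) (hm : m.IsMaximal) (hf : Module.Finite L (R ⧸ m)) :
    Even (Module.finrank L (R ⧸ m)) := by
  rw [← Nat.not_odd_iff_even]
  intro hodd
  letI : Field (R ⧸ m) := Ideal.Quotient.field m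
  have hinj : Function.Injective (algebraMap L (R ⧸ m)) := (algebraMap L (R ⧸ m)).injective
  have hπ : ∀ x : L, Ideal.Quotient.mk m (algebraMap L R x) = algebraMap L (R ⧸ m) x :=
    fun _ => rfl
  obtain ⟨p, q, hpq⟩ := solve (κ := R ⧸ m)
    (by
      intro h0
      apply h2
      apply hinj
      rw [map_zero, map_ofNat]
      exact h0)
    (algebraMap L (R ⧸ m) a) (algebraMap L (R ⧸ m) b) (Ideal.Quotient.mk m u)
    (Ideal.Quotient.mk m v) (fun h0 => ha (hinj (by rw [h0, map_zero])))
    (by
      rcases h with h | h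
      · left
        have := congrArg (Ideal.Quotient.mk m) h
        rw [map_add, map_mul, map_mul, map_pow, map_pow, map_one] at this
        exact this
      · right
        have := congrArg (Ideal.Quotient.mk m) h
        rw [map_add, map_mul, map_pow, map_pow] at this
        exact this)
  exact hno (descend a b hb p q hpq hodd)

theorem C_mul_conQ {L : Type} [Field L] (a b : Lˣ) : LaurentPolynomial.C (b : L) * conQ a b =
    1 - LaurentPolynomial.C (a : L) * LaurentPolynomial.T 2 := by
  unfold conQ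
  rw [← mul_assoc, ← map_mul, Units.mul_inv, map_one, one_mul]

theorem rel1 {L : Type} [Field L] (a b : Lˣ) (k : Cov Bool) (h1 : (1 : ℤ) ∈ exR k)
    (h2 : (0 : ℤ) ∈ exI k) :
    ∃ u v : conSub a b L k, algebraMap L _ (a : L) * u ^ 2 + algebraMap L _ (b : L) * v ^ 2 = 1 := by
  refine ⟨Tel a b L h1, ⟨⟨0, 1⟩, zero_mem _, ?_⟩, ?_⟩
  · have := single_mem_LpIn (B := L) h2 1
    exact this
  · apply Subtype.ext
    change algebraMap L (ConT a b) (a : L) *
      (algebraMap (LaurentPolynomial L) (ConT a b) (LaurentPolynomial.T 1)) ^ 2 +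
      algebraMap L (ConT a b) (b : L) * (⟨0, 1⟩ : ConT a b) ^ 2 = 1
    have e1 : algebraMap L (ConT a b) (a : L) =
      algebraMap (LaurentPolynomial L) (ConT a b) (LaurentPolynomial.C (a : L)) := rfl
    have e2 : algebraMap L (ConT a b) (b : L) =
      algebraMap (LaurentPolynomial L) (ConT a b) (LaurentPolynomial.C (b : L)) := rfl
    have e3 : (⟨0, 1⟩ : ConT a b) ^ 2 =
      algebraMap (LaurentPolynomial L) (ConT a b) (conQ a b) := by
      rw [pow_two]
      ext1
      · rw [QuadraticAlgebra.re_mul]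
        change (0 : LaurentPolynomial L) * 0 + conQ a b * 1 * 1 = conQ a b
        ring
      · rw [QuadraticAlgebra.im_mul]
        change (0 : LaurentPolynomial L) * 1 + 1 * 0 + 0 * 1 * 1 = 0
        ring
    rw [e1, e2, e3, ← map_pow, ← map_mul, ← map_mul, ← map_add, LaurentPolynomial.T_pow,
      C_mul_conQ, ← map_one (algebraMap (LaurentPolynomial L) (ConT a b))]
    congr 1
    norm_num

theorem rel2 {L : Type} [Field L] (a b : Lˣ) (k : Cov Bool) (h1 : (-1 : ℤ) ∈ exR k)
    (h2 : (-1 : ℤ) ∈ exI k) :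
    ∃ u v : conSub a b L k, u ^ 2 = algebraMap L _ (a : L) + algebraMap L _ (b : L) * v ^ 2 := by
  refine ⟨Tel a b L h1, ⟨⟨0, LaurentPolynomial.T (-1)⟩, zero_mem _, ?_⟩, ?_⟩
  · exact single_mem_LpIn (B := L) h2 1
  · apply Subtype.ext
    change (algebraMap (LaurentPolynomial L) (ConT a b) (LaurentPolynomial.T (-1))) ^ 2 =
      algebraMap L (ConT a b) (a : L) +
      algebraMap L (ConT a b) (b : L) * (⟨0, LaurentPolynomial.T (-1)⟩ : ConT a b) ^ 2
    have e1 : algebraMap L (ConT a b) (a : L) =
      algebraMap (LaurentPolynomial L) (ConT a b) (LaurentPolynomial.C (a : L)) := rfl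
    have e2 : algebraMap L (ConT a b) (b : L) =
      algebraMap (LaurentPolynomial L) (ConT a b) (LaurentPolynomial.C (b : L)) := rfl
    have e3 : (⟨0, LaurentPolynomial.T (-1)⟩ : ConT a b) ^ 2 =
      algebraMap (LaurentPolynomial L) (ConT a b)
        (conQ a b * (LaurentPolynomial.T (-1) * LaurentPolynomial.T (-1))) := by
      rw [pow_two]
      ext1
      · rw [QuadraticAlgebra.re_mul]
        change (0 : LaurentPolynomial L) * 0 +
          conQ a b * LaurentPolynomial.T (-1) * LaurentPolynomial.T (-1) = _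
        rw [mul_assoc, zero_mul, zero_add]
        rfl
      · rw [QuadraticAlgebra.im_mul]
        change (0 : LaurentPolynomial L) * LaurentPolynomial.T (-1) +
          LaurentPolynomial.T (-1) * 0 +
          0 * LaurentPolynomial.T (-1) * LaurentPolynomial.T (-1) = 0
        ring
    rw [e1, e2, e3, ← map_pow, ← map_mul, ← map_add, LaurentPolynomial.T_pow,
      ← LaurentPolynomial.T_add, ← mul_assoc, C_mul_conQ, sub_mul, one_mul, mul_assoc,
      ← LaurentPolynomial.T_add]
    congr 1
    norm_num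

end EVN_

open EVN_ in
theorem evn_proof : Stmt_EVN := by
  intro L _ a b h2 hno k m hm hf
  have hrel : ∃ u v : conSub a b L k,
      algebraMap L _ (a : L) * u ^ 2 + algebraMap L _ (b : L) * v ^ 2 = 1 ∨
      u ^ 2 = algebraMap L _ (a : L) + algebraMap L _ (b : L) * v ^ 2 := by
    rcases cov_cases k with rfl | rfl | rfl
    · obtain ⟨u, v, h⟩ := rel1 a b ca
        ⟨fun _ => by norm_num, fun h => absurd (Finset.mem_singleton_self false) h⟩
        ⟨fun _ => le_rfl, fun h => absurd (Finset.mem_singleton_self false) h⟩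
      exact ⟨u, v, Or.inl h⟩
    · obtain ⟨u, v, h⟩ := rel2 a b cb
        ⟨fun h => absurd (Finset.mem_singleton_self true) h, fun _ => by norm_num⟩
        ⟨fun h => absurd (Finset.mem_singleton_self true) h, fun _ => by norm_num⟩
      exact ⟨u, v, Or.inr h⟩
    · obtain ⟨u, v, h⟩ := rel1 a b cab
        (exR_all ⟨Finset.mem_univ _, Finset.mem_univ _⟩ 1)
        ⟨fun h => absurd (Finset.mem_univ _) h, fun h => absurd (Finset.mem_univ _) h⟩
      exact ⟨u, v, Or.inl h⟩
  obtain ⟨u, v, h⟩ := hrel
  exact main (L := L) (R := (Cnc a b L).ring k) h2 (a : L) (b : L) a.ne_zero b.ne_zero hno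
    u v h m hm hf

end Pool.CRD.Cn
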