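import Pool.Agent.CRD.Cnc.Stmts

/-!
# CRD / Cnc / HOJ: morphisms from `O(j)`
-/

open CategoryTheory Opposite Limits

namespace Pool.CRD.Cn

namespace HOJ_

variable {K B : Type} [CommRing K] [CommRing B] [Algebra K B] (a b : Bˣ)

lemma pe_of_le_ca {k : Cov Bool} (h : k ≤ ca) : pe k = 0 := by
  have h1 : false ∈ k.s := h (Finset.mem_singleton_self false)
  unfold pe
  rw [if_pos h1]

lemma not_cb_le_ca : ¬ (cb ≤ ca) := by
  intro h
  have h1 : false ∈ cb.s := h (Finset.mem_singleton_self false)
  have h2 : (false : Bool) = true := Finset.mem_singleton.1 h1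
  exact absurd h2 (by decide)

lemma pe_cb : pe cb = 1 := by
  have h1 : ¬ (false ∈ cb.s) := fun h1 => by
    have h2 : (false : Bool) = true := Finset.mem_singleton.1 h1
    exact absurd h2 (by decide)
  unfold pe
  rw [if_neg h1]

lemma v_one (j : ℤ) {X Y : (Cov Bool)ᵒᵖ} (f : X ⟶ Y) (h : pe X.unop = pe Y.unop) :
    (cL a b K j).v f = 1 := by
  apply Subtype.ext
  change algebraMap (LaurentPolynomial B) (ConT a b)
      (LaurentPolynomial.T (j * (pe X.unop - pe Y.unop))) = 1
  rw [h, sub_self, mul_zero, LaurentPolynomial.T_zero, map_one]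

/-- the images of the generator -/
noncomputable def g (M : PMod (Cnc a b K)) (x : sec M ca) (y : sec M cb) (X : (Cov Bool)ᵒᵖ) :
    M.obj X := by
  classical exact
    if h : X.unop ≤ ca then rs M (homOfLE h).op x
    else if h' : X.unop ≤ cb then rs M (homOfLE h').op y else 0

lemma g_of_le (M : PMod (Cnc a b K)) (x : sec M ca) (y : sec M cb) (X : (Cov Bool)ᵒᵖ)
    (h : X.unop ≤ ca) : g a b M x y X = rs M (homOfLE h).op x := by
  unfold g
  rw [dif_pos h]

lemma g_ca (M : PMod (Cnc a b K)) (x : sec M ca) (y : sec M cb) : g a b M x y (op ca) = x := by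
  rw [g_of_le a b M x y (op ca) le_rfl]
  exact rs_id M (op ca) x

lemma g_cb (M : PMod (Cnc a b K)) (x : sec M ca) (y : sec M cb) : g a b M x y (op cb) = y := by
  unfold g
  rw [dif_neg (show ¬ ((op cb).unop ≤ ca) from not_cb_le_ca),
    dif_pos (show (op cb).unop ≤ cb from le_rfl)]
  exact rs_id M (op cb) y

lemma rs_congr (M : PMod (Cnc a b K)) {X Y : (Cov Bool)ᵒᵖ} (f f' : X ⟶ Y) (x : M.obj X) :
    rs M f x = rs M f' x := by
  have : f = f' := Subsingleton.elim _ _
  rw [this]

lemma key (j : ℤ) (M : PMod (Cnc a b K)) (x : sec M ca) (y : sec M cb)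
    (hxy : Tn (K := K) a b j • rA M x = rB M y) {X Y : (Cov Bool)ᵒᵖ} (f : X ⟶ Y) :
    rs M f (g a b M x y X) = (cL a b K j).v f • g a b M x y Y := by
  have hle : Y.unop ≤ X.unop := leOfHom f.unop
  by_cases hX : X.unop ≤ ca
  · have hY : Y.unop ≤ ca := hle.trans hX
    rw [v_one a b j f ((pe_of_le_ca hX).trans (pe_of_le_ca hY).symm), one_smul,
      g_of_le a b M x y X hX, g_of_le a b M x y Y hY, ← rs_comp]
    exact rs_congr a b M _ _ x
  · obtain ⟨k⟩ := X
    obtain ⟨l⟩ := Y
    have hk : k = cb := by
      rcases cov_cases k with h | h | h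
      · exact absurd (le_of_eq h) hX
      · exact h
      · subst h
        exact absurd cab_le_ca hX
    subst hk
    rcases cov_cases l with h | h | h
    · subst h
      exfalso
      have h1 : true ∈ ca.s := hle (Finset.mem_singleton_self true)
      have h2 : (true : Bool) = false := Finset.mem_singleton.1 h1
      exact absurd h2 (by decide)
    · subst h
      rw [v_one a b j f rfl, one_smul]
      exact (rs_congr a b M f (𝟙 _) _).trans (rs_id M _ _)
    · subst h
      have e1 : g a b M x y (op cab) = rA M x := g_of_le a b M x y (op cab) cab_le_ca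
      have e2 : rs M f (g a b M x y (op cb)) = rB M y := by
        rw [g_cb]
        exact rs_congr a b M _ _ y
      have e3 : (cL a b K j).v f = Tn (K := K) a b j := by
        apply Subtype.ext
        change algebraMap (LaurentPolynomial B) (ConT a b)
            (LaurentPolynomial.T (j * (pe cb - pe cab))) =
          algebraMap (LaurentPolynomial B) (ConT a b) (LaurentPolynomial.T j)
        rw [pe_cb, pe_of_le_ca cab_le_ca, sub_zero, mul_one]
      change rs M f (g a b M x y (op cb)) = (cL a b K j).v f • g a b M x y (op cab)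
      rw [e2, e1, e3]
      exact hxy.symm

end HOJ_

open HOJ_ in
theorem hoj_proof : Stmt_HOJ := by
  intro K B _ _ _ a b j M x y hxy
  refine ⟨mkHom (M := OO a b K j) (N := M)
    (fun X => LinearMap.toSpanSingleton ((Cnc a b K).toRing.obj X) (M.obj X) (g a b M x y X))
    ?_, ?_, ?_⟩
  · intro X Y f r
    change ((cL a b K j).v f * (Cnc a b K).toRing.map f r) • g a b M x y Y =
      rs M f ((show (Cnc a b K).toRing.obj X from r) • g a b M x y X)
    rw [rs_smul, key a b j M x y hxy f, smul_smul, (cL a b K j).v_comm]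
  · change (1 : (Cnc a b K).toRing.obj (op ca)) • g a b M x y (op ca) = x
    rw [one_smul, g_ca]
  · change (1 : (Cnc a b K).toRing.obj (op cb)) • g a b M x y (op cb) = y
    rw [one_smul, g_cb]

end Pool.CRD.Cn
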