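import Pool.Agent.CRD.Cnc.Stmts

/-!
# CRD / Cnc, module LMA: sections over `U_ab` are the localisation of the sections over `U_a`
-/

open CategoryTheory Opposite Limits

namespace Pool.CRD.Cn

namespace LMA_

lemma gen {R A M N : Type} [CommRing R] [CommRing A] [Algebra R A] (t : R)
    [IsLocalization.Away t A] [AddCommGroup M] [Module R M] [AddCommGroup N] [Module R N]
    [Module A N] [IsScalarTower R A N] (f : M →ₗ[R] N) (h : IsBaseChange A f) :
    (∀ z, ∃ (n : ℕ) (x : M), f x = t ^ n • z) ∧ (∀ x, f x = 0 → ∃ n : ℕ, t ^ n • x = 0) := by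
  have hl : IsLocalizedModule (Submonoid.powers t) f :=
    (isLocalizedModule_iff_isBaseChange (Submonoid.powers t) A f).2 h
  constructor
  · intro z
    obtain ⟨⟨x, s⟩, hx⟩ := IsLocalizedModule.surj (Submonoid.powers t) f z
    obtain ⟨n, hn⟩ := s.2
    refine ⟨n, x, ?_⟩
    have h1 : (s : R) • z = f x := hx
    rw [← h1, ← hn]
  · intro x hx
    obtain ⟨c, hc⟩ := IsLocalizedModule.exists_of_eq (S := Submonoid.powers t) (f := f)
      (x₁ := x) (x₂ := 0) (by rw [hx, map_zero])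
    obtain ⟨n, hn⟩ := c.2
    refine ⟨n, ?_⟩
    have h1 : (c : R) • x = (c : R) • (0 : M) := hc
    rw [smul_zero, ← hn] at h1
    exact h1

lemma mapT {K B : Type} [CommRing K] [CommRing B] [Algebra K B] (a b : Bˣ) (n : ℕ) :
    ((Cnc a b K).map (homOfLE cab_le_ca).op).hom ((TA (K := K) a b) ^ n) = Tn (K := K) a b n := by
  rw [map_pow]
  induction n with
  | zero =>
    rw [pow_zero]
    exact (Tel_zero a b K (k := cab) (exR_all ⟨Finset.mem_univ _, Finset.mem_univ _⟩ 0)).symm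
  | succ n ih =>
    rw [pow_succ, ih]
    exact Tel_mul a b K (k := cab) (exR_all ⟨Finset.mem_univ _, Finset.mem_univ _⟩ _)
      (exR_all ⟨Finset.mem_univ _, Finset.mem_univ _⟩ 1)
      (exR_all ⟨Finset.mem_univ _, Finset.mem_univ _⟩ _) (by push_cast; ring)

end LMA_

open LMA_ in
theorem lma_proof (hCLA : Stmt_CLA) : Stmt_LMA := by
  intro K B _ _ _ a b M
  have hC := M.property.2 (homOfLE cab_le_ca).op
  have hL := hCLA K B a b
  let i1 : Algebra ((Cnc a b K).obj (op ca)) ((Cnc a b K).obj (op cab)) :=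
    ((Cnc a b K).map (homOfLE cab_le_ca).op).hom.toRingHom.toAlgebra
  let i2 : Module ((Cnc a b K).obj (op ca)) (M.obj.obj (op ca)) :=
    inferInstanceAs (Module ((Cnc a b K).toRing.obj (op ca)) (M.obj.obj (op ca)))
  let i3 : Module ((Cnc a b K).obj (op cab)) (M.obj.obj (op cab)) :=
    inferInstanceAs (Module ((Cnc a b K).toRing.obj (op cab)) (M.obj.obj (op cab)))
  let i4 : Module ((Cnc a b K).obj (op ca)) (M.obj.obj (op cab)) :=
    Module.compHom (M.obj.obj (op cab)) ((Cnc a b K).map (homOfLE cab_le_ca).op).hom.toRingHom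
  have i5 : IsScalarTower ((Cnc a b K).obj (op ca)) ((Cnc a b K).obj (op cab)) (M.obj.obj (op cab)) :=
    ⟨fun a b c => by rw [Algebra.smul_def, mul_smul]; rfl⟩
  have : IsLocalization.Away (TA (K := K) a b) ((Cnc a b K).obj (op cab)) := hL
  obtain ⟨h1, h2⟩ := gen (A := (Cnc a b K).obj (op cab)) (TA (K := K) a b) _ hC
  refine ⟨?_, h2⟩
  intro z
  obtain ⟨n, x, hx⟩ := h1 z
  refine ⟨n, x, ?_⟩
  rw [← mapT]
  exact hx

end Pool.CRD.Cn
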