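import Pool.Agent.CRD.Cnc.Stmts

open CategoryTheory Opposite Limits

namespace Pool.CRD.Cn

namespace LMB_

theorem gen {A B M N : Type} [CommRing A] [CommRing B] [Algebra A B] [AddCommGroup M]
    [AddCommGroup N] [Module A M] [Module B N] [Module A N] [IsScalarTower A B N] (t : A)
    [IsLocalization.Away t B] (m : M →ₗ[A] N) (h : IsBaseChange B m) :
    (∀ z : N, ∃ (n : ℕ) (x : M), m x = algebraMap A B (t ^ n) • z) ∧
      (∀ x : M, m x = 0 → ∃ n : ℕ, t ^ n • x = 0) := by
  have hl : IsLocalizedModule (Submonoid.powers t) m :=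
    (isLocalizedModule_iff_isBaseChange (Submonoid.powers t) B m).2 h
  refine ⟨fun z => ?_, fun x hx => ?_⟩
  · obtain ⟨⟨x, ⟨_, n, rfl⟩⟩, hx⟩ := IsLocalizedModule.surj (Submonoid.powers t) m z
    refine ⟨n, x, ?_⟩
    rw [algebraMap_smul]
    exact hx.symm
  · obtain ⟨⟨_, n, rfl⟩, hc⟩ := IsLocalizedModule.exists_of_eq (S := Submonoid.powers t) (f := m)
      (x₁ := x) (x₂ := 0) (by rw [hx, map_zero])
    refine ⟨n, ?_⟩
    have h1 : t ^ n • x = t ^ n • (0 : M) := hc
    rw [h1, smul_zero]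

/-- value of an element of the ring of `U_ab` -/
noncomputable def vC {K B : Type} [CommRing K] [CommRing B] [Algebra K B] {a b : Bˣ}
    (z : (Cnc a b K).ring cab) : ConT a b := (show conSub a b K cab from z).1

theorem vC_inj {K B : Type} [CommRing K] [CommRing B] [Algebra K B] {a b : Bˣ}
    {z w : (Cnc a b K).ring cab} (h : vC z = vC w) : z = w := Subtype.ext h

theorem map_TB {K B : Type} [CommRing K] [CommRing B] [Algebra K B] (a b : Bˣ) (n : ℕ) :
    ((Cnc a b K).map (homOfLE cab_le_cb).op).hom.toRingHom ((TB (K := K) a b) ^ n) =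
      Tn (K := K) a b (-n) := by
  have hmul : ∀ z w : (Cnc a b K).ring cab, vC (z * w) = vC z * vC w := fun _ _ => rfl
  rw [map_pow]
  apply vC_inj
  have h1 : vC (((Cnc a b K).map (homOfLE cab_le_cb).op).hom.toRingHom (TB (K := K) a b) ^ n) =
      (algebraMap (LaurentPolynomial B) (ConT a b) (LaurentPolynomial.T (-1))) ^ n := by
    induction n with
    | zero => rw [pow_zero, pow_zero]; rfl
    | succ n ih => rw [pow_succ, pow_succ, hmul, ih]; rfl
  rw [h1, ← map_pow, LaurentPolynomial.T_pow, mul_neg, mul_one]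
  rfl

end LMB_

open LMB_ in
theorem lmb_proof (hCLB : Stmt_CLB) : Stmt_LMB := by
  intro K B _ _ _ a b M
  have hc := M.property.2 (homOfLE cab_le_cb).op
  have hL := hCLB K B a b
  letI : Algebra ((Cnc a b K).obj (op cb)) ((Cnc a b K).obj (op cab)) :=
    ((Cnc a b K).map (homOfLE cab_le_cb).op).hom.toRingHom.toAlgebra
  letI : Module ((Cnc a b K).obj (op cb)) (M.obj.obj (op cb)) :=
    inferInstanceAs (Module ((Cnc a b K).toRing.obj (op cb)) (M.obj.obj (op cb)))
  letI : Module ((Cnc a b K).obj (op cab)) (M.obj.obj (op cab)) :=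
    inferInstanceAs (Module ((Cnc a b K).toRing.obj (op cab)) (M.obj.obj (op cab)))
  letI : Module ((Cnc a b K).obj (op cb)) (M.obj.obj (op cab)) :=
    Module.compHom (M.obj.obj (op cab)) ((Cnc a b K).map (homOfLE cab_le_cb).op).hom.toRingHom
  haveI : IsScalarTower ((Cnc a b K).obj (op cb)) ((Cnc a b K).obj (op cab))
      (M.obj.obj (op cab)) :=
    ⟨fun a b c => by rw [Algebra.smul_def, mul_smul]; rfl⟩
  haveI : IsLocalization.Away (TB (K := K) a b) ((Cnc a b K).obj (op cab)) := hL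
  obtain ⟨h1, h2⟩ := gen (A := (Cnc a b K).obj (op cb)) (B := (Cnc a b K).obj (op cab))
    (M := M.obj.obj (op cb)) (N := M.obj.obj (op cab)) (TB (K := K) a b) _ hc
  refine ⟨fun z => ?_, fun y hy => ?_⟩
  · obtain ⟨n, x, hx⟩ := h1 z
    refine ⟨n, x, ?_⟩
    have h3 := map_TB (K := K) a b n
    rw [← h3]
    exact hx
  · exact h2 y hy

end Pool.CRD.Cn
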