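import Pool.Agent.CRD.Cnc.Stmts

/-!
# CRD / Cnc: module OJN (Euler characteristic and rank of `O(i)`)
-/

open CategoryTheory Opposite Limits

namespace Pool.CRD.Cn

namespace OJN_

/-- kernel and cokernel of `(x,y) ↦ f x - g y` in coordinates -/
theorem coord {L X Y Z I : Type} [Field L] [AddCommGroup X] [Module L X] [AddCommGroup Y]
    [Module L Y] [AddCommGroup Z] [Module L Z] [DecidableEq I] (f : X →ₗ[L] Z) (g : Y →ₗ[L] Z)
    (hf : Function.Injective f) (hg : Function.Injective g) (e : Z ≃ₗ[L] (I →₀ L)) (S T : Set I)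
    (hS : ∀ z, z ∈ LinearMap.range f ↔ ∀ n ∉ S, e z n = 0)
    (hT : ∀ z, z ∈ LinearMap.range g ↔ ∀ n ∉ T, e z n = 0)
    (U W : Finset I) (hU : ∀ n, n ∈ U ↔ n ∈ S ∧ n ∈ T) (hW : ∀ n, n ∈ W ↔ n ∉ S ∧ n ∉ T)
    (D : (X × Y) →ₗ[L] Z) (hD : ∀ x y, D (x, y) = f x - g y) :
    Module.finrank L (LinearMap.ker D) = U.card ∧
      Module.finrank L (Z ⧸ LinearMap.range D) = W.card := by
  classical
  constructor
  · -- the kernel
    let p : LinearMap.ker D →ₗ[L] (U →₀ L) :=
      (Finsupp.lsubtypeDomain (R := L) (M := L) (↑U : Set I)) ∘ₗ e.toLinearMap ∘ₗ f ∘ₗ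
        (LinearMap.fst L X Y) ∘ₗ (LinearMap.ker D).subtype
    have hp : ∀ (z : LinearMap.ker D) (n : U), p z n = e (f z.1.1) n := fun _ _ => rfl
    have hbij : Function.Bijective p := by
      constructor
      · rw [injective_iff_map_eq_zero]
        rintro ⟨⟨x, y⟩, hz⟩ h
        have h1 : f x = g y := by
          rw [LinearMap.mem_ker, hD, sub_eq_zero] at hz
          exact hz
        have h2 : f x = 0 := by
          apply e.injective
          rw [map_zero]
          ext n
          by_cases h3 : n ∈ S
          · by_cases h4 : n ∈ T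
            · have h5 := congrArg (fun t => t ⟨n, (hU n).2 ⟨h3, h4⟩⟩) h
              exact h5
            · exact (hT (f x)).1 (by rw [h1]; exact ⟨y, rfl⟩) n h4
          · exact (hS (f x)).1 ⟨x, rfl⟩ n h3
        have h3 : x = 0 := hf (by rw [h2, map_zero])
        have h4 : y = 0 := hg (by rw [← h1, h2, map_zero])
        subst h3 h4
        rfl
      · intro c
        let c' : I →₀ L := Finsupp.embDomain (Function.Embedding.subtype _) c
        have hc1 : ∀ n ∉ U, c' n = 0 := fun n hn =>
          Finsupp.embDomain_of_notMem_range _ _ _ (by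
            rintro ⟨m, rfl⟩
            exact hn m.2)
        have hc2 : ∀ n : U, c' n = c n := fun n => Finsupp.embDomain_apply_self _ _ n
        obtain ⟨x, hx⟩ := (hS (e.symm c')).2 (fun n hn => by
          rw [LinearEquiv.apply_symm_apply]
          exact hc1 n (fun h => hn ((hU n).1 h).1))
        obtain ⟨y, hy⟩ := (hT (e.symm c')).2 (fun n hn => by
          rw [LinearEquiv.apply_symm_apply]
          exact hc1 n (fun h => hn ((hU n).1 h).2))
        refine ⟨⟨(x, y), ?_⟩, ?_⟩
        · rw [LinearMap.mem_ker, hD, hx, hy, sub_self]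
        · ext n
          rw [hp]
          change e (f x) n = c n
          rw [hx, LinearEquiv.apply_symm_apply, hc2]
    rw [(LinearEquiv.ofBijective p hbij).finrank_eq, Module.finrank_finsupp_self,
      Fintype.card_coe]
  · -- the cokernel
    let p : Z →ₗ[L] (W →₀ L) :=
      (Finsupp.lsubtypeDomain (R := L) (M := L) (↑W : Set I)) ∘ₗ e.toLinearMap
    have hp : ∀ (z : Z) (n : W), p z n = e z n := fun _ _ => rfl
    have hsurj : Function.Surjective p := by
      intro c
      refine ⟨e.symm (Finsupp.embDomain (Function.Embedding.subtype _) c), ?_⟩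
      ext n
      rw [hp, LinearEquiv.apply_symm_apply]
      exact Finsupp.embDomain_apply_self _ _ n
    have hker : LinearMap.ker p = LinearMap.range D := by
      ext z
      constructor
      · intro h
        have h0 : ∀ n ∈ W, e z n = 0 := fun n hn => by
          have h1 := congrArg (fun t => t ⟨n, hn⟩) (LinearMap.mem_ker.1 h)
          exact h1
        -- split `e z`
        obtain ⟨x, hx⟩ := (hS (e.symm ((e z).filter (· ∈ S)))).2 (fun n hn => by
          rw [LinearEquiv.apply_symm_apply]
          exact Finsupp.filter_apply_neg _ _ hn)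
        obtain ⟨y, hy⟩ := (hT (e.symm (-((e z).filter (· ∉ S))))).2 (fun n hn => by
          rw [LinearEquiv.apply_symm_apply, Finsupp.neg_apply, neg_eq_zero]
          by_cases h1 : n ∈ S
          · exact Finsupp.filter_apply_neg _ _ (not_not.2 h1)
          · rw [Finsupp.filter_apply_pos (fun x => x ∉ S) _ h1]
            exact h0 n ((hW n).2 ⟨h1, hn⟩))
        refine ⟨(x, y), ?_⟩
        rw [hD, hx, hy, ← map_sub, sub_neg_eq_add, LinearEquiv.symm_apply_eq]
        exact Finsupp.filter_add_filter_not _ _
      · rintro ⟨⟨x, y⟩, rfl⟩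
        rw [LinearMap.mem_ker]
        ext n
        rw [hp, hD, map_sub, Finsupp.sub_apply]
        have h1 := (hW n).1 n.2
        rw [(hS _).1 ⟨x, rfl⟩ n h1.1, (hT _).1 ⟨y, rfl⟩ n h1.2, sub_self]
        rfl
    rw [← hker, (p.quotKerEquivOfSurjective hsurj).finrank_eq, Module.finrank_finsupp_self,
      Fintype.card_coe]

/-- coordinates on `R(U_ab)` -/
noncomputable def co {L : Type} [Field L] (a b : Lˣ) : ConT a b ≃ₗ[L] (ℤ ⊕ ℤ →₀ L) :=
  ({ toFun := fun z => (z.re, z.im)
     invFun := fun p => ⟨p.1, p.2⟩
     map_add' := fun _ _ => rfl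
     map_smul' := fun _ _ => rfl
     left_inv := fun _ => rfl
     right_inv := fun _ => rfl } :
      ConT a b ≃ₗ[L] (LaurentPolynomial L × LaurentPolynomial L)).trans
    (((AddMonoidAlgebra.coeffLinearEquiv L).prodCongr (AddMonoidAlgebra.coeffLinearEquiv L)).trans
      (Finsupp.sumFinsuppLEquivProdFinsupp L).symm)

lemma co_inl {L : Type} [Field L] (a b : Lˣ) (z : ConT a b) (n : ℤ) :
    co a b z (Sum.inl n) = z.re.coeff n := rfl

lemma co_inr {L : Type} [Field L] (a b : Lˣ) (z : ConT a b) (n : ℤ) :
    co a b z (Sum.inr n) = z.im.coeff n := rfl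

lemma mem_cab {L : Type} [Field L] (a b : Lˣ) (z : ConT a b) : z ∈ conSub a b L cab :=
  ⟨fun n hn => absurd (exR_all ⟨Finset.mem_univ _, Finset.mem_univ _⟩ n) hn,
    fun n hn => absurd (⟨fun h => absurd (Finset.mem_univ _) h,
      fun h => absurd (Finset.mem_univ _) h⟩ : n ∈ exI cab) hn⟩

/-- coordinates on the sections of `O(i)` over `U_ab` -/
noncomputable def es {L : Type} [Field L] (a b : Lˣ) (i : ℤ) :
    sec (OO a b L i) cab ≃ₗ[L] (ℤ ⊕ ℤ →₀ L) :=
  { toFun := fun z => co a b (z : conSub a b L cab).1
    invFun := fun c => (⟨(co a b).symm c, mem_cab a b _⟩ : conSub a b L cab)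
    map_add' := fun x y => map_add (co a b) (x : conSub a b L cab).1 (y : conSub a b L cab).1
    map_smul' := fun k x => by
      let x' : conSub a b L cab := x
      have h : algebraMap L (conSub a b L cab) k * x' = k • x' := (Algebra.smul_def k x').symm
      change co a b (algebraMap L (conSub a b L cab) k * x').1 = _
      rw [h]
      exact map_smul (co a b) k x'.1
    left_inv := fun z => Subtype.ext ((co a b).symm_apply_apply _)
    right_inv := fun c => (co a b).apply_symm_apply c }

lemma exR_ca (n : ℤ) : n ∈ exR ca ↔ 0 ≤ n :=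
  ⟨fun h => h.1 (by simp [ca, Cov.one]), fun h => ⟨fun _ => h, fun h' => absurd
    (Finset.mem_singleton_self false) h'⟩⟩

lemma exI_ca (n : ℤ) : n ∈ exI ca ↔ 0 ≤ n :=
  ⟨fun h => h.1 (by simp [ca, Cov.one]), fun h => ⟨fun _ => h, fun h' => absurd
    (Finset.mem_singleton_self false) h'⟩⟩

lemma exR_cb (n : ℤ) : n ∈ exR cb ↔ n ≤ 0 :=
  ⟨fun h => h.2 (by simp [cb, Cov.one]), fun h => ⟨fun h' => absurd
    (Finset.mem_singleton_self true) h', fun _ => h⟩⟩

lemma exI_cb (n : ℤ) : n ∈ exI cb ↔ n ≤ -1 :=
  ⟨fun h => h.2 (by simp [cb, Cov.one]), fun h => ⟨fun h' => absurd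
    (Finset.mem_singleton_self true) h', fun _ => h⟩⟩

lemma pe_ca : pe ca = 0 := by
  unfold pe
  rw [if_pos (by simp [ca, Cov.one])]

lemma pe_cb : pe cb = 1 := by
  unfold pe
  rw [if_neg (by simp [cb, Cov.one])]

lemma pe_cab : pe cab = 0 := by
  unfold pe
  rw [if_pos (by simp [cab])]

lemma rA_val {L : Type} [Field L] (a b : Lˣ) (i : ℤ) (x : sec (OO a b L i) ca) :
    ((rA (OO a b L i) x : sec (OO a b L i) cab) : conSub a b L cab).1 =
      (x : conSub a b L ca).1 := by
  change algebraMap (LaurentPolynomial L) (ConT a b)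
      (LaurentPolynomial.T (i * (pe ca - pe cab))) * (x : conSub a b L ca).1 = _
  rw [pe_ca, pe_cab, sub_zero, mul_zero, LaurentPolynomial.T_zero, map_one, one_mul]

lemma rB_val {L : Type} [Field L] (a b : Lˣ) (i : ℤ) (x : sec (OO a b L i) cb) :
    ((rB (OO a b L i) x : sec (OO a b L i) cab) : conSub a b L cab).1 =
      (LaurentPolynomial.T i : LaurentPolynomial L) • (x : conSub a b L cb).1 := by
  change algebraMap (LaurentPolynomial L) (ConT a b)
      (LaurentPolynomial.T (i * (pe cb - pe cab))) * (x : conSub a b L cb).1 = _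
  rw [pe_cb, pe_cab, sub_zero, mul_one, Algebra.smul_def]

lemma coeff_T_mul {L : Type} [Field L] (i n : ℤ) (f : LaurentPolynomial L) :
    ((LaurentPolynomial.T i : LaurentPolynomial L) * f).coeff n = f.coeff (n - i) := by
  unfold LaurentPolynomial.T
  rw [AddMonoidAlgebra.coeff_single_mul_apply, one_mul, neg_add_eq_sub]

end OJN_

open OJN_ in
theorem ojn_proof : Stmt_OJN := by
  intro L _ a b i
  constructor
  · have hinjA : Function.Injective (rA (OO a b L i)) := by
      intro x y h
      have h1 : ((rA (OO a b L i) x : sec (OO a b L i) cab) : conSub a b L cab).1 =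
        ((rA (OO a b L i) y : sec (OO a b L i) cab) : conSub a b L cab).1 := by rw [h]
      rw [rA_val, rA_val] at h1
      exact Subtype.ext h1
    have hinjB : Function.Injective (rB (OO a b L i)) := by
      intro x y h
      have h1 : ((rB (OO a b L i) x : sec (OO a b L i) cab) : conSub a b L cab).1 =
        ((rB (OO a b L i) y : sec (OO a b L i) cab) : conSub a b L cab).1 := by rw [h]
      rw [rB_val, rB_val] at h1
      have h2 := congrArg (fun z => (LaurentPolynomial.T (-i) : LaurentPolynomial L) • z) h1
      simp only [smul_smul, ← LaurentPolynomial.T_add, neg_add_cancel, LaurentPolynomial.T_zero,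
        one_smul] at h2
      exact Subtype.ext h2
    have key := coord (rA (OO a b L i)) (rB (OO a b L i)) hinjA hinjB (es a b i)
      {s | Sum.elim (fun n => 0 ≤ n) (fun n => 0 ≤ n) s}
      {s | Sum.elim (fun n => n ≤ i) (fun n => n ≤ i - 1) s}
      (fun z => by
        constructor
        · rintro ⟨x, rfl⟩ n hn
          change co a b ((rA (OO a b L i) x : sec (OO a b L i) cab) : conSub a b L cab).1 n = 0
          rw [rA_val]
          rcases n with n | n
          · rw [co_inl]
            exact (x : conSub a b L ca).2.1 n (fun h => hn ((exR_ca n).1 h))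
          · rw [co_inr]
            exact (x : conSub a b L ca).2.2 n (fun h => hn ((exI_ca n).1 h))
        · intro h
          refine ⟨(⟨(z : conSub a b L cab).1, fun n hn => ?_, fun n hn => ?_⟩ :
            conSub a b L ca), ?_⟩
          · exact h (Sum.inl n) (fun h' => hn ((exR_ca n).2 h'))
          · exact h (Sum.inr n) (fun h' => hn ((exI_ca n).2 h'))
          · apply Subtype.ext
            exact rA_val a b i _)
      (fun z => by
        constructor
        · rintro ⟨x, rfl⟩ n hn
          change co a b ((rB (OO a b L i) x : sec (OO a b L i) cab) : conSub a b L cab).1 n = 0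
          rw [rB_val]
          rcases n with n | n
          · rw [co_inl, QuadraticAlgebra.re_smul, smul_eq_mul, coeff_T_mul]
            exact (x : conSub a b L cb).2.1 _ (fun h => hn (by
              have := (exR_cb _).1 h
              change n ≤ i
              omega))
          · rw [co_inr, QuadraticAlgebra.im_smul, smul_eq_mul, coeff_T_mul]
            exact (x : conSub a b L cb).2.2 _ (fun h => hn (by
              have := (exI_cb _).1 h
              change n ≤ i - 1
              omega))
        · intro h
          refine ⟨(⟨(LaurentPolynomial.T (-i) : LaurentPolynomial L) • (z : conSub a b L cab).1,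
            fun n hn => ?_, fun n hn => ?_⟩ : conSub a b L cb), ?_⟩
          · rw [QuadraticAlgebra.re_smul, smul_eq_mul, coeff_T_mul]
            exact h (Sum.inl (n - -i)) (fun h' => hn ((exR_cb n).2 (by
              change n - -i ≤ i at h'
              omega)))
          · rw [QuadraticAlgebra.im_smul, smul_eq_mul, coeff_T_mul]
            exact h (Sum.inr (n - -i)) (fun h' => hn ((exI_cb n).2 (by
              change n - -i ≤ i - 1 at h'
              omega)))
          · apply Subtype.ext
            refine (rB_val a b i _).trans ?_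
            change (LaurentPolynomial.T i : LaurentPolynomial L) •
              (LaurentPolynomial.T (-i) : LaurentPolynomial L) • (z : conSub a b L cab).1 = _
            rw [smul_smul, ← LaurentPolynomial.T_add, add_neg_cancel, LaurentPolynomial.T_zero,
              one_smul])
      ((Finset.Icc 0 i).disjSum (Finset.Icc 0 (i - 1)))
      ((Finset.Ioo i 0).disjSum (Finset.Ioo (i - 1) 0))
      (fun n => by
        rcases n with n | n
        · rw [Finset.inl_mem_disjSum, Finset.mem_Icc]; rfl
        · rw [Finset.inr_mem_disjSum, Finset.mem_Icc]; rfl)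
      (fun n => by
        rcases n with n | n
        · rw [Finset.inl_mem_disjSum, Finset.mem_Ioo]
          change _ ↔ ¬ (0 ≤ n) ∧ ¬ (n ≤ i)
          omega
        · rw [Finset.inr_mem_disjSum, Finset.mem_Ioo]
          change _ ↔ ¬ (0 ≤ n) ∧ ¬ (n ≤ i - 1)
          omega)
      (dC (OO a b L i)) (fun x y => rfl)
    unfold chiC
    rw [key.1, key.2, Finset.card_disjSum, Finset.card_disjSum, Int.card_Icc, Int.card_Icc,
      Int.card_Ioo, Int.card_Ioo]
    omega
  · have : Nontrivial (conSub a b L cab) := inferInstance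
    have h : Module.finrank (conSub a b L cab) (conSub a b L cab) = 1 := Module.finrank_self _
    exact congrArg Nat.cast h

end Pool.CRD.Cn
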