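import Pool.Agent.CRD.Cnc.Stmts

/-!
# CRD / Cnc, module PTS: there are enough simple torsion modules (skyscrapers at points)
-/

open CategoryTheory Opposite Limits

namespace Pool.CRD.Cn

namespace PTS_

/-- criterion for a base change -/
theorem bc {A B M N : Type} [CommRing A] [CommRing B] [Algebra A B] [AddCommGroup M]
    [Module A M] [AddCommGroup N] [Module A N] [Module B N] [IsScalarTower A B N] (f : M →ₗ[A] N)
    (hf : Function.Bijective f)
    (h : ∀ s : B, ∃ t r : A, IsUnit (algebraMap A B t) ∧ algebraMap A B t * s = algebraMap A B r) :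
    IsBaseChange B f := by
  apply IsBaseChange.of_lift_unique
  intro Q _ _ _ _ g
  let e : M ≃ₗ[A] N := LinearEquiv.ofBijective f hf
  have he : ∀ x, e.symm (f x) = x := fun x => e.symm_apply_apply x
  have key : ∀ (s : B) (n : N), g (e.symm (s • n)) = s • g (e.symm n) := by
    intro s n
    obtain ⟨t, r, ht, hr⟩ := h s
    apply (ht.smul_left_cancel).1
    rw [algebraMap_smul, ← map_smul, ← map_smul, ← algebraMap_smul B t (s • n), smul_smul, hr,
      algebraMap_smul, map_smul, map_smul, smul_smul, hr, algebraMap_smul]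
  refine ⟨{ toFun := fun n => g (e.symm n), map_add' := ?_, map_smul' := key }, ?_, ?_⟩
  · intro x y
    rw [map_add, map_add]
  · apply LinearMap.ext
    intro x
    show g (e.symm (f x)) = g x
    rw [he]
  · intro g' hg'
    apply LinearMap.ext
    intro n
    obtain ⟨x, rfl⟩ := hf.2 n
    show g' (f x) = g (e.symm (f x))
    rw [he, ← hg']
    rfl

section

variable {K : Type} [Field K] (a b : Kˣ) (c : Kˣ) (d : K)
  (hd : d * d = (↑b⁻¹ : K) * (1 - a * (c : K) ^ 2))

/-- evaluation of Laurent polynomials -/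
noncomputable abbrev le : LaurentPolynomial K →+* K := LaurentPolynomial.eval₂ (RingHom.id K) c

theorem le_q : le c (conQ a b) = (↑b⁻¹ : K) * (1 - a * (c : K) ^ 2) := by
  have h2 : (LaurentPolynomial.T 2 : LaurentPolynomial K) = LaurentPolynomial.T ((2 : ℕ) : ℤ) := rfl
  rw [conQ, map_mul, map_sub, map_mul, LaurentPolynomial.eval₂_C, LaurentPolynomial.eval₂_C,
    map_one, h2, LaurentPolynomial.eval₂_T_n]
  rfl

/-- evaluation at the point `T = c`, `ω = d` -/
noncomputable def ev : ConT a b →+* K where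
  toFun z := le c z.re + d * le c z.im
  map_one' := by
    rw [QuadraticAlgebra.re_one, QuadraticAlgebra.im_one, map_one, map_zero, mul_zero, add_zero]
  map_zero' := by
    rw [QuadraticAlgebra.re_zero, QuadraticAlgebra.im_zero, map_zero, mul_zero, add_zero]
  map_add' z w := by
    rw [QuadraticAlgebra.re_add, QuadraticAlgebra.im_add, map_add, map_add]
    ring
  map_mul' z w := by
    rw [QuadraticAlgebra.re_mul, QuadraticAlgebra.im_mul]
    have h1 := le_q a b c
    have h2 : le c (z.re * w.re + conQ a b * z.im * w.im) =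
        le c z.re * le c w.re + le c (conQ a b) * le c z.im * le c w.im := by
      rw [(le c).map_add, (le c).map_mul, (le c).map_mul (conQ a b * z.im),
        (le c).map_mul (conQ a b)]
    rw [h2, h1, ← hd, zero_mul, zero_mul, add_zero, (le c).map_add, (le c).map_mul,
      (le c).map_mul]
    ring

theorem ev_algebraMap (k : K) : ev a b c d hd (algebraMap K (ConT a b) k) = k := by
  show le c (algebraMap K (LaurentPolynomial K) k) + d * le c 0 = k
  rw [map_zero, mul_zero, add_zero, LaurentPolynomial.algebraMap_apply]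
  exact LaurentPolynomial.eval₂_C _ _ _

theorem ev_T (n : ℤ) : ev a b c d hd
    (algebraMap (LaurentPolynomial K) (ConT a b) (LaurentPolynomial.T n)) = ((c ^ n : Kˣ) : K) := by
  show le c (LaurentPolynomial.T n) + d * le c 0 = _
  rw [map_zero, mul_zero, add_zero]
  exact LaurentPolynomial.eval₂_T _ _ _

/-- evaluation on a chart -/
noncomputable def evX (X : (Cov Bool)ᵒᵖ) : (Cnc a b K).toRing.obj X →+* K :=
  ((ev a b c d hd).comp (conSub a b K X.unop).val.toRingHom :
    (conSub a b K X.unop) →+* K)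

theorem evX_cst (X : (Cov Bool)ᵒᵖ) (k : K) : evX a b c d hd X (cst (Cnc a b K) X k) = k :=
  ev_algebraMap a b c d hd k

theorem evX_map {X Y : (Cov Bool)ᵒᵖ} (f : X ⟶ Y) (r : (Cnc a b K).toRing.obj X) :
    evX a b c d hd Y ((Cnc a b K).toRing.map f r) = evX a b c d hd X r := rfl

theorem evX_Tn (n : ℤ) : evX a b c d hd (op cab) (Tn (K := K) a b n) = ((c ^ n : Kˣ) : K) :=
  ev_T a b c d hd n

theorem evX_TA : evX a b c d hd (op ca) (TA (K := K) a b) = c := by
  have h := ev_T a b c d hd 1
  rw [zpow_one] at h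
  exact h

/-- the skyscraper as a presheaf of modules -/
noncomputable def sky : PMod (Cnc a b K) :=
  mkP (Cnc a b K) (fun X => @ModuleCat.of _ _ K _ (Module.compHom K (evX a b c d hd X)))
    (fun {_ _} _ x => x) (fun _ _ _ => rfl) (fun {_ _} _ _ _ => rfl) (fun _ _ => rfl)
    (fun _ _ _ => rfl)

/-- the sections of the skyscraper -/
def ss (X : (Cov Bool)ᵒᵖ) (x : K) : (sky a b c d hd).obj X := x

/-- the element of `K` of a section of the skyscraper -/
def us (X : (Cov Bool)ᵒᵖ) (x : (sky a b c d hd).obj X) : K := x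

theorem us_inj (X : (Cov Bool)ᵒᵖ) {x y : (sky a b c d hd).obj X}
    (h : us a b c d hd X x = us a b c d hd X y) : x = y := h

theorem us_smul (X : (Cov Bool)ᵒᵖ) (r : (Cnc a b K).toRing.obj X)
    (x : (sky a b c d hd).obj X) :
    us a b c d hd X (r • x) = evX a b c d hd X r * us a b c d hd X x := rfl

theorem us_rs {X Y : (Cov Bool)ᵒᵖ} (f : X ⟶ Y) (x : (sky a b c d hd).obj X) :
    us a b c d hd Y (rs (sky a b c d hd) f x) = us a b c d hd X x := rfl

theorem ss_us (X : (Cov Bool)ᵒᵖ) (x : (sky a b c d hd).obj X) :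
    ss a b c d hd X (us a b c d hd X x) = x := rfl

theorem us_ss (X : (Cov Bool)ᵒᵖ) (x : K) : us a b c d hd X (ss a b c d hd X x) = x := rfl

theorem ss_smul (X : (Cov Bool)ᵒᵖ) (r : (Cnc a b K).toRing.obj X) (x : K) :
    r • ss a b c d hd X x = ss a b c d hd X (evX a b c d hd X r * x) := rfl

theorem ss_add (X : (Cov Bool)ᵒᵖ) (x y : K) :
    ss a b c d hd X x + ss a b c d hd X y = ss a b c d hd X (x + y) := rfl

theorem ss_rs {X Y : (Cov Bool)ᵒᵖ} (f : X ⟶ Y) (x : K) :
    rs (sky a b c d hd) f (ss a b c d hd X x) = ss a b c d hd Y x := rfl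

/-- algebraic criterion on the charts -/
theorem crit (hCLA : Stmt_CLA) (hCLB : Stmt_CLB) {X Y : (Cov Bool)ᵒᵖ} (f : X ⟶ Y) :
    letI : Algebra ((Cnc a b K).obj X) ((Cnc a b K).obj Y) :=
      ((Cnc a b K).map f).hom.toRingHom.toAlgebra
    ∀ s : (Cnc a b K).obj Y, ∃ t r : (Cnc a b K).obj X,
      IsUnit (algebraMap ((Cnc a b K).obj X) ((Cnc a b K).obj Y) t) ∧
      algebraMap ((Cnc a b K).obj X) ((Cnc a b K).obj Y) t * s =
        algebraMap ((Cnc a b K).obj X) ((Cnc a b K).obj Y) r := by
  intro s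
  have hle : Y.unop ≤ X.unop := leOfHom f.unop
  obtain ⟨k⟩ := X
  obtain ⟨l⟩ := Y
  by_cases hkl : k = l
  · subst hkl
    refine ⟨1, s, ?_, ?_⟩
    · rw [map_one]; exact isUnit_one
    · rw [map_one, one_mul]
      rfl
  · have hl : l = cab := by
      rcases cov_cases k with rfl | rfl | rfl <;> rcases cov_cases l with rfl | rfl | rfl
      · exact absurd rfl hkl
      · exact absurd (hle (Finset.mem_singleton_self false))
          (fun h => Bool.noConfusion (Finset.mem_singleton.1 h))
      · rfl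
      · exact absurd (hle (Finset.mem_singleton_self true))
          (fun h => Bool.noConfusion (Finset.mem_singleton.1 h))
      · exact absurd rfl hkl
      · rfl
      · exact absurd (hle (Finset.mem_univ true))
          (fun h => Bool.noConfusion (Finset.mem_singleton.1 h))
      · exact absurd (hle (Finset.mem_univ false))
          (fun h => Bool.noConfusion (Finset.mem_singleton.1 h))
      · rfl
    subst hl
    rcases cov_cases k with rfl | rfl | rfl
    · let _ := ((Cnc a b K).map (homOfLE cab_le_ca).op).hom.toRingHom.toAlgebra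
      have hloc : IsLocalization.Away (TA (K := K) a b) ((Cnc a b K).ring cab) := hCLA K K a b
      obtain ⟨⟨r, t⟩, hr⟩ := IsLocalization.surj (Submonoid.powers (TA (K := K) a b)) s
      have hu := IsLocalization.map_units ((Cnc a b K).ring cab) t
      exact ⟨t, r, hu, (mul_comm _ _).trans hr⟩
    · let _ := ((Cnc a b K).map (homOfLE cab_le_cb).op).hom.toRingHom.toAlgebra
      have hloc : IsLocalization.Away (TB (K := K) a b) ((Cnc a b K).ring cab) := hCLB K K a b
      obtain ⟨⟨r, t⟩, hr⟩ := IsLocalization.surj (Submonoid.powers (TB (K := K) a b)) s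
      have hu := IsLocalization.map_units ((Cnc a b K).ring cab) t
      exact ⟨t, r, hu, (mul_comm _ _).trans hr⟩
    · exact absurd rfl hkl

theorem sky_coh (hCLA : Stmt_CLA) (hCLB : Stmt_CLB) : IsCoh (Cnc a b K) (sky a b c d hd) := by
  refine ⟨fun X => ?_, fun {X Y} f => ?_⟩
  · refine Module.Finite.of_surjective
      (LinearMap.toSpanSingleton ((Cnc a b K).toRing.obj X) ((sky a b c d hd).obj X)
        (ss a b c d hd X 1)) ?_
    intro x
    refine ⟨cst (Cnc a b K) X (us a b c d hd X x), ?_⟩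
    rw [LinearMap.toSpanSingleton_apply, ss_smul, evX_cst, mul_one, ss_us]
  · have hc := crit a b hCLA hCLB f
    letI : Algebra ((Cnc a b K).obj X) ((Cnc a b K).obj Y) :=
      ((Cnc a b K).map f).hom.toRingHom.toAlgebra
    letI : Module ((Cnc a b K).obj X) ((sky a b c d hd).obj X) :=
      inferInstanceAs (Module ((Cnc a b K).toRing.obj X) ((sky a b c d hd).obj X))
    letI : Module ((Cnc a b K).obj Y) ((sky a b c d hd).obj Y) :=
      inferInstanceAs (Module ((Cnc a b K).toRing.obj Y) ((sky a b c d hd).obj Y))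
    letI : Module ((Cnc a b K).obj X) ((sky a b c d hd).obj Y) :=
      Module.compHom ((sky a b c d hd).obj Y) ((Cnc a b K).map f).hom.toRingHom
    haveI : IsScalarTower ((Cnc a b K).obj X) ((Cnc a b K).obj Y) ((sky a b c d hd).obj Y) :=
      ⟨fun a b c => by rw [Algebra.smul_def, mul_smul]; rfl⟩
    exact bc (A := (Cnc a b K).obj X) (B := (Cnc a b K).obj Y) (M := (sky a b c d hd).obj X)
      (N := (sky a b c d hd).obj Y) _ ⟨fun x y h => h, fun y => ⟨y, rfl⟩⟩ hc

/-- the skyscraper as a coherent module -/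
noncomputable def skc (hCLA : Stmt_CLA) (hCLB : Stmt_CLB) : Coh (Cnc a b K) :=
  ⟨sky a b c d hd, sky_coh a b c d hd hCLA hCLB⟩

theorem evX_ne (r : ℤ) : evX a b c d hd (op cab) (Tn (K := K) a b r) ≠ 0 := by
  rw [evX_Tn]
  exact Units.ne_zero _

/-- the rank is zero -/
theorem rk_sky : rkC (sky a b c d hd) = 0 := by
  have h0 : Module.rank ((Cnc a b K).ring cab) (sec (sky a b c d hd) cab) = 0 := by
    rw [rank_eq_zero_iff]
    intro x
    refine ⟨(Tn (K := K) a b 1 - algebraMap K ((Cnc a b K).ring cab) (c : K) :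
      (Cnc a b K).ring cab), ?_, ?_⟩
    · intro h
      have h1 : ((Tn (K := K) a b 1 : (Cnc a b K).ring cab)) =
          algebraMap K ((Cnc a b K).ring cab) (c : K) := sub_eq_zero.1 h
      have h2 : ((Tel a b K (exR_all (k := cab) ⟨Finset.mem_univ _, Finset.mem_univ _⟩ 1) :
          conSub a b K cab) : ConT a b) = algebraMap K (ConT a b) (c : K) :=
        congrArg (fun z : conSub a b K cab => (z : ConT a b)) h1
      have h3 : (LaurentPolynomial.T 1 : LaurentPolynomial K) =
          algebraMap K (LaurentPolynomial K) (c : K) :=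
        congrArg QuadraticAlgebra.re h2
      rw [LaurentPolynomial.algebraMap_apply] at h3
      have h4 := congrArg (fun p : LaurentPolynomial K => p.coeff 1) h3
      have h5 : ((LaurentPolynomial.T 1 : LaurentPolynomial K)).coeff 1 = 1 := by
        unfold LaurentPolynomial.T
        rw [AddMonoidAlgebra.coeff_single, Finsupp.single_eq_same]
      have h6 : ((LaurentPolynomial.C (c : K) : LaurentPolynomial K)).coeff 1 = 0 := by
        rw [← LaurentPolynomial.single_eq_C, AddMonoidAlgebra.coeff_single]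
        exact Finsupp.single_eq_of_ne (by norm_num)
      exact one_ne_zero (h5.symm.trans (h4.trans h6))
    · apply us_inj a b c d hd (op cab)
      show evX a b c d hd (op cab) ((show (Cnc a b K).toRing.obj (op cab) from
        Tn (K := K) a b 1) - cst (Cnc a b K) (op cab) (c : K)) *
        us a b c d hd (op cab) x = 0
      rw [map_sub, evX_Tn, evX_cst, zpow_one, sub_self, zero_mul]
  unfold rkC
  rw [Module.finrank, h0, map_zero]
  rfl

variable [(Cnc a b K).Good]

omit [(Cnc a b K).Good] in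
/-- surjectivity of a nonzero morphism to the skyscraper -/
theorem surj_of_ne (hLMA : Stmt_LMA) (hLMB : Stmt_LMB) (N : Coh (Cnc a b K))
    (φ : N.obj ⟶ sky a b c d hd) (hne : ∃ (X : (Cov Bool)ᵒᵖ) (x : N.obj.obj X),
      us a b c d hd X (φ.app X x) ≠ 0) (X : (Cov Bool)ᵒᵖ) :
    Function.Surjective (φ.app X).hom := by
  -- value on `U_ab`
  obtain ⟨z, hz⟩ : ∃ z : N.obj.obj (op cab), us a b c d hd (op cab) (φ.app (op cab) z) ≠ 0 := by
    obtain ⟨X, x, hx⟩ := hne
    have hle : cab ≤ X.unop := Finset.subset_univ _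
    refine ⟨rs N.obj (homOfLE hle).op x, ?_⟩
    rw [rs_nat φ (homOfLE hle).op x]
    exact hx
  have hA : ∃ x : N.obj.obj (op ca), us a b c d hd (op ca) (φ.app (op ca) x) ≠ 0 := by
    obtain ⟨n, x, hx⟩ := (hLMA K K a b N).1 z
    refine ⟨x, fun h => ?_⟩
    have h1 := rs_nat φ (homOfLE cab_le_ca).op x
    have h2 : rs N.obj (homOfLE cab_le_ca).op x = Tn (K := K) a b n • z := hx
    have h3 : φ.app (op cab) (Tn (K := K) a b n • z) =
        Tn (K := K) a b n • φ.app (op cab) z := map_smul (φ.app (op cab)).hom _ _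
    have h4 : evX a b c d hd (op cab) (Tn (K := K) a b n) *
        us a b c d hd (op cab) (φ.app (op cab) z) = us a b c d hd (op ca) (φ.app (op ca) x) := by
      rw [← us_rs a b c d hd (homOfLE cab_le_ca).op, ← h1, h2, h3]
      rfl
    rw [h] at h4
    rcases mul_eq_zero.1 h4 with h5 | h5
    · exact evX_ne a b c d hd n h5
    · exact hz h5
  have hB : ∃ x : N.obj.obj (op cb), us a b c d hd (op cb) (φ.app (op cb) x) ≠ 0 := by
    obtain ⟨n, x, hx⟩ := (hLMB K K a b N).1 z
    refine ⟨x, fun h => ?_⟩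
    have h1 := rs_nat φ (homOfLE cab_le_cb).op x
    have h2 : rs N.obj (homOfLE cab_le_cb).op x = Tn (K := K) a b (-n) • z := hx
    have h3 : φ.app (op cab) (Tn (K := K) a b (-n) • z) =
        Tn (K := K) a b (-n) • φ.app (op cab) z := map_smul (φ.app (op cab)).hom _ _
    have h4 : evX a b c d hd (op cab) (Tn (K := K) a b (-n)) *
        us a b c d hd (op cab) (φ.app (op cab) z) = us a b c d hd (op cb) (φ.app (op cb) x) := by
      rw [← us_rs a b c d hd (homOfLE cab_le_cb).op, ← h1, h2, h3]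
      rfl
    rw [h] at h4
    rcases mul_eq_zero.1 h4 with h5 | h5
    · exact evX_ne a b c d hd _ h5
    · exact hz h5
  have hall : ∃ x : N.obj.obj X, us a b c d hd X (φ.app X x) ≠ 0 := by
    obtain ⟨k⟩ := X
    rcases cov_cases k with rfl | rfl | rfl
    · exact hA
    · exact hB
    · exact ⟨z, hz⟩
  intro y
  obtain ⟨x, hx⟩ := hall
  refine ⟨cst (Cnc a b K) X (us a b c d hd X y / us a b c d hd X (φ.app X x)) • x, ?_⟩
  have h3 : (φ.app X).hom (cst (Cnc a b K) X
      (us a b c d hd X y / us a b c d hd X (φ.app X x)) • x) =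
      cst (Cnc a b K) X (us a b c d hd X y / us a b c d hd X (φ.app X x)) •
        (φ.app X).hom x := map_smul (φ.app X).hom _ _
  rw [h3]
  apply us_inj a b c d hd X
  rw [us_smul, evX_cst]
  exact div_mul_cancel₀ _ hx

/-- the skyscraper is simple -/
theorem simple_sky (hCLA : Stmt_CLA) (hCLB : Stmt_CLB) (hLMA : Stmt_LMA) (hLMB : Stmt_LMB) :
    Simple (skc a b c d hd hCLA hCLB) := by
  constructor
  intro N f hmono
  have hinj := (coh_mono_iff f).1 hmono
  constructor
  · intro hiso h0
    obtain ⟨x, hx⟩ := ((coh_isIso_iff f).1 hiso (op ca)).2 (ss a b c d hd (op ca) 1)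
    rw [h0] at hx
    have h1 : (0 : K) = 1 := hx
    exact zero_ne_one h1
  · intro hne
    have hex : ∃ (X : (Cov Bool)ᵒᵖ) (x : N.obj.obj X),
        us a b c d hd X (f.hom.app X x) ≠ 0 := by
      by_contra hcon
      push Not at hcon
      apply hne
      apply (IsCoh (Cnc a b K)).ι.map_injective
      apply pmod_ext
      intro X x
      exact hcon X x
    rw [coh_isIso_iff]
    exact fun X => ⟨hinj X, surj_of_ne a b c d hd hLMA hLMB N f.hom hex X⟩

theorem iso_eq (hCLA : Stmt_CLA) (hCLB : Stmt_CLB) (c' : Kˣ) (d' : K)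
    (hd' : d' * d' = (↑b⁻¹ : K) * (1 - a * (c' : K) ^ 2))
    (e : skc a b c d hd hCLA hCLB ≅ skc a b c' d' hd' hCLA hCLB) : c = c' := by
  have hb := (coh_isIso_iff e.hom).1 inferInstance (op ca)
  set x := ss a b c d hd (op ca) 1 with hx
  set φ := (e.hom.hom.app (op ca)).hom with hφ
  have h1 : φ (TA (K := K) a b • x) = TA (K := K) a b • φ x := map_smul φ _ _
  have h2 : φ (cst (Cnc a b K) (op ca) (c : K) • x) =
      cst (Cnc a b K) (op ca) (c : K) • φ x := map_smul φ _ _
  have h3 : (TA (K := K) a b • x : (sky a b c d hd).obj (op ca)) =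
      cst (Cnc a b K) (op ca) (c : K) • x := by
    apply us_inj a b c d hd (op ca)
    show evX a b c d hd (op ca) (TA (K := K) a b) * _ =
      evX a b c d hd (op ca) (cst (Cnc a b K) (op ca) (c : K)) * _
    rw [evX_TA, evX_cst]
  rw [h3, h2] at h1
  have h4 : evX a b c' d' hd' (op ca) (cst (Cnc a b K) (op ca) (c : K)) *
      us a b c' d' hd' (op ca) (φ x) =
      evX a b c' d' hd' (op ca) (TA (K := K) a b) * us a b c' d' hd' (op ca) (φ x) := h1
  rw [evX_TA, evX_cst] at h4
  have h5 : us a b c' d' hd' (op ca) (φ x) ≠ 0 := by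
    intro h
    have h6 : φ x = φ 0 := by
      rw [map_zero]
      exact h
    have h7 : x = 0 := hb.1 h6
    exact one_ne_zero (α := K) h7
  exact Units.ext (mul_right_cancel₀ h5 h4)

end

end PTS_

open PTS_ in
theorem pts_proof (_hCDM : Stmt_CDM) (_hTFD : Stmt_TFD) (_hTSJ : Stmt_TSJ) (_hHOJ : Stmt_HOJ)
    (_hOJN : Stmt_OJN) (_hCHA : Stmt_CHA) (_hRKA : Stmt_RKA) (hLMA : Stmt_LMA)
    (hLMB : Stmt_LMB) (hCLA : Stmt_CLA) (hCLB : Stmt_CLB) : Stmt_PTS := by
  intro K _ _ a b _ _ T hT _
  have hroot : ∀ c : Kˣ, ∃ d : K, d * d = (↑b⁻¹ : K) * (1 - a * (c : K) ^ 2) := by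
    intro c
    obtain ⟨d, hd⟩ := IsAlgClosed.exists_pow_nat_eq
      ((↑b⁻¹ : K) * (1 - a * (c : K) ^ 2)) (n := 2) (by norm_num)
    exact ⟨d, by rw [← hd, pow_two]⟩
  choose d hd using hroot
  let S : Kˣ → Coh (Cnc a b K) := fun c => skc a b c (d c) (hd c) hCLA hCLB
  have hS : ∀ c, Simple (S c) := fun c => simple_sky a b c (d c) (hd c) hCLA hCLB hLMA hLMB
  have hr : ∀ c, rkC (S c).obj = 0 := fun c => rk_sky a b c (d c) (hd c)
  have hne : ∀ c c', c ≠ c' → IsEmpty (S c ≅ S c') := fun c c' h =>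
    ⟨fun e => h (iso_eq a b c (d c) (hd c) hCLA hCLB c' (d c') (hd c') e)⟩
  have hbad : {c : Kˣ | Nonempty (T ≅ S c)}.Finite := by
    apply Set.Subsingleton.finite
    rintro c ⟨e⟩ c' ⟨e'⟩
    by_contra h
    exact (hne c c' h).false (e.symm ≪≫ e')
  have hinfK : Infinite K := IsAlgClosed.instInfinite
  have hinf0 : Infinite {x : K // x ≠ 0} :=
    ((Set.finite_singleton (0 : K)).infinite_compl).to_subtype
  have hinf : Infinite Kˣ := Infinite.of_injective _ (unitsEquivNeZero (G₀ := K)).symm.injective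
  obtain ⟨c, hc⟩ := hbad.infinite_compl.nonempty
  obtain ⟨c', hc'⟩ := (hbad.union (Set.finite_singleton c)).infinite_compl.nonempty
  refine ⟨S c, S c', hS c, hS c', hr c, hr c', ?_, ?_, ?_⟩
  · exact ⟨fun e => hc ⟨e⟩⟩
  · exact ⟨fun e => hc' (Or.inl ⟨e⟩)⟩
  · apply hne
    rintro rfl
    exact hc' (Or.inr rfl)

end Pool.CRD.Cn
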