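import Pool.Agent.CRD.Cnc.Stmts

/-!
# CRD / Cnc / REL: a module of rank one and even degree with scalar endomorphisms is `O(i)`
-/

open CategoryTheory Opposite Limits

namespace Pool.CRD.Cn

namespace REL_

lemma Tn_ne {L : Type} [Field L] (a b : Lˣ) (n : ℤ) [Nontrivial ((Cnc a b L).ring cab)] :
    Tn (K := L) a b n ≠ 0 := by
  intro h
  have h1 : Tn (K := L) a b n * Tn (K := L) a b (-n) = 1 := by
    have h2 := Tel_mul a b L (k := cab) (n := n) (m := -n) (l := 0)
      (exR_all ⟨Finset.mem_univ _, Finset.mem_univ _⟩ n)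
      (exR_all ⟨Finset.mem_univ _, Finset.mem_univ _⟩ (-n))
      (exR_all ⟨Finset.mem_univ _, Finset.mem_univ _⟩ 0) (by ring)
    exact h2.trans (Tel_zero a b L _)
  rw [h, zero_mul] at h1
  exact zero_ne_one h1

/-- torsion freeness of a section on a bigger chart -/
lemma nontors {L : Type} [Field L] (a b : Lˣ) (hdom : IsDomain ((Cnc a b L).ring cab))
    (Q : PMod (Cnc a b L)) {c : Cov Bool} (hc : cab ≤ c) (z : sec Q cab)
    (hz : ∀ s : (Cnc a b L).ring cab, s ≠ 0 → s • z ≠ 0) (n : ℤ) (y : sec Q c)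
    (hy : rs Q (homOfLE hc).op y = Tn (K := L) a b n • z) (s : (Cnc a b L).ring c)
    (hs : s ≠ 0) : s • y ≠ 0 := by
  intro h
  let s' : (Cnc a b L).ring cab := ((Cnc a b L).map (homOfLE hc).op).hom s
  have hs' : s' ≠ 0 := by
    intro h1
    have h2 : (show conSub a b L c from s).1 = 0 :=
      congrArg (fun w : (Cnc a b L).ring cab => (show conSub a b L cab from w).1) h1
    exact hs (Subtype.ext h2)
  apply hz (s' * Tn (K := L) a b n) (mul_ne_zero hs' (Tn_ne a b n))
  rw [mul_smul, ← hy]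
  have h2 := rs_smul Q (homOfLE hc).op (show (Cnc a b L).toRing.obj (op c) from s) y
  have h3 : rs Q (homOfLE hc).op
      ((show (Cnc a b L).toRing.obj (op c) from s) • (show Q.obj (op c) from y)) = 0 :=
    (congrArg (rs Q (homOfLE hc).op) h).trans (rs_zero Q _)
  exact h2.symm.trans h3


theorem exists_map {K R Q N : Type} [Field K] [CommRing R] [IsDomain R] [IsNoetherianRing R]
    [Algebra K R] [AddCommGroup Q] [Module R Q] [Module.Finite R Q] [AddCommGroup N] [Module R N]
    [Module K N] [IsScalarTower K R N] [Module.Finite K N] [Nontrivial N]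
    (hQ : ∃ x : Q, ∀ s : R, s ≠ 0 → s • x ≠ 0) : ∃ f : Q →ₗ[R] N, f ≠ 0 := by
  obtain ⟨P, hP⟩ := associatedPrimes.nonempty R N
  obtain ⟨hPp, y, hy⟩ := isAssociatedPrime_iff.1 hP
  have hy' : ∀ r, r ∈ P ↔ r • y = 0 := by
    intro r
    rw [hy, Submodule.mem_colon_singleton, Submodule.mem_bot]
  let e : (R ⧸ P) →ₗ[R] N := Submodule.liftQ P (LinearMap.toSpanSingleton R N y)
    (fun r hr => by
      rw [LinearMap.mem_ker, LinearMap.toSpanSingleton_apply]
      exact (hy' r).1 hr)
  have he : ∀ r : R, e (Submodule.Quotient.mk r) = r • y := fun r => by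
    show LinearMap.toSpanSingleton R N y r = _
    rw [LinearMap.toSpanSingleton_apply]
  have hinj : Function.Injective e := by
    rw [injective_iff_map_eq_zero]
    intro q hq
    obtain ⟨r, rfl⟩ := Submodule.Quotient.mk_surjective _ q
    rw [he] at hq
    rw [Submodule.Quotient.mk_eq_zero]
    exact (hy' r).2 hq
  have hfin : Module.Finite K (R ⧸ P) := Module.Finite.of_injective (e.restrictScalars K) hinj
  have hfld : IsField (R ⧸ P) :=
    isField_of_isIntegral_of_isField' (R := K) (S := R ⧸ P) (Field.toIsField K)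
  have hmax : P.IsMaximal := Ideal.Quotient.maximal_of_isField P hfld
  have hne : P • (⊤ : Submodule R Q) ≠ ⊤ := by
    intro h
    obtain ⟨r, h1, h2⟩ := Submodule.exists_sub_one_mem_and_smul_eq_zero_of_fg_of_le_smul P
      (⊤ : Submodule R Q) Module.Finite.fg_top (le_of_eq h.symm)
    obtain ⟨x, hx⟩ := hQ
    apply hx r ?_ (h2 x Submodule.mem_top)
    rintro rfl
    apply hPp.ne_top
    rw [Ideal.eq_top_iff_one]
    have := P.neg_mem h1
    rwa [zero_sub, neg_neg] at this
  obtain ⟨x, hx⟩ : ∃ x : Q, x ∉ P • (⊤ : Submodule R Q) := by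
    by_contra h
    push Not at h
    exact hne (eq_top_iff.2 fun x _ => h x)
  let _ : Field (R ⧸ P) := Ideal.Quotient.field P
  have hx' : (Submodule.Quotient.mk x : Q ⧸ (P • (⊤ : Submodule R Q))) ≠ 0 := by
    rw [Ne, Submodule.Quotient.mk_eq_zero]
    exact hx
  have hφ : ∃ φ : Module.Dual (R ⧸ P) (Q ⧸ (P • (⊤ : Submodule R Q))),
      φ (Submodule.Quotient.mk x) ≠ 0 := by
    by_contra h
    push Not at h
    exact hx' ((Module.forall_dual_apply_eq_zero_iff (R ⧸ P) _).1 h)
  obtain ⟨φ, hφ⟩ := hφ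
  let f : Q →ₗ[R] N :=
    { toFun := fun q => e (φ (Submodule.Quotient.mk q))
      map_add' := fun q q' => by
        rw [Submodule.Quotient.mk_add, map_add, map_add]
      map_smul' := fun r q => by
        have h1 : (Submodule.Quotient.mk (r • q) : Q ⧸ (P • (⊤ : Submodule R Q))) =
            (Ideal.Quotient.mk P r) • (Submodule.Quotient.mk q) := rfl
        rw [h1, map_smul]
        have h2 : (Ideal.Quotient.mk P r) • φ (Submodule.Quotient.mk q) =
            r • φ (Submodule.Quotient.mk q) := by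
          rw [smul_eq_mul, Algebra.smul_def]
          rfl
        rw [h2, map_smul]
        rfl }
  refine ⟨f, fun hf => hφ (hinj ?_)⟩
  rw [map_zero]
  exact congrArg (fun g => g x) hf



section Gen
variable {K : Type} [CommRing K] {C : Type} [SmallCategory C] {R : PAlg K C}

lemma rcomm (X : Cᵒᵖ) (r s : R.toRing.obj X) : r * s = s * r :=
  @mul_comm (R.obj X) _ (r : R.obj X) (s : R.obj X)

/-- multiplication by a section of a line bundle -/
noncomputable def mulMap (c : UCoc R) (M : PMod R) (E : ∀ X : Cᵒᵖ, R.toRing.obj X)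
    (hc : ∀ {X Y : Cᵒᵖ} (f : X ⟶ Y), E Y = c.v f * R.toRing.map f (E X)) : M ⟶ c.twObj M :=
  mkHom (M := M) (N := c.twObj M)
    (fun X =>
      { toFun := fun x => (show M.obj X from E X • (show M.obj X from x))
        map_add' := fun x y => smul_add (E X) x y
        map_smul' := fun r x => by
          show E X • (r • (show M.obj X from x)) = r • (E X • (show M.obj X from x))
          rw [smul_smul, smul_smul, rcomm] })
    (by
      intro X Y f x
      show E Y • rs M f x = c.v f • rs M f (E X • x)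
      rw [rs_smul, smul_smul, hc f])

lemma mulMap_app (c : UCoc R) (M : PMod R) (E : ∀ X : Cᵒᵖ, R.toRing.obj X)
    (hc : ∀ {X Y : Cᵒᵖ} (f : X ⟶ Y), E Y = c.v f * R.toRing.map f (E X)) (X : Cᵒᵖ)
    (x : M.obj X) : (mulMap c M E hc).app X x = (show (c.twObj M).obj X from
      (show M.obj X from E X • x)) := rfl

/-- the torsion subobject killed by a section of a line bundle -/
theorem exists_ker [R.Good] (c : UCoc R) (Q : Coh R) (E : ∀ X : Cᵒᵖ, R.toRing.obj X)
    (hc : ∀ {X Y : Cᵒᵖ} (f : X ⟶ Y), E Y = c.v f * R.toRing.map f (E X)) :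
    ∃ (T : Coh R) (ι : T ⟶ Q), Mono ι ∧
      (∀ (X : Cᵒᵖ) (t : T.obj.obj X), E X • t = 0) ∧
      (∀ (X : Cᵒᵖ) (y : Q.obj.obj X), E X • y = 0 → ∃ t, ι.hom.app X t = y) := by
  let Q' : Coh R := ⟨c.twObj Q.obj, isCoh_tw c Q.property⟩
  let φ : Q ⟶ Q' := ObjectProperty.homMk (mulMap c Q.obj E hc)
  have hmono : Mono (kernel.ι φ) := inferInstance
  have hex : (ShortComplex.mk (kernel.ι φ) φ (kernel.condition φ)).Exact :=
    ShortComplex.exact_kernel φ
  refine ⟨kernel φ, kernel.ι φ, hmono, fun X t => ?_, fun X y hy => ?_⟩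
  · have h1 : φ.hom.app X ((kernel.ι φ).hom.app X t) = 0 :=
      ((coh_exact_iff _).1 hex X).apply_apply_eq_zero t
    have h2 : E X • (kernel.ι φ).hom.app X t = 0 := h1
    apply (coh_mono_iff (kernel.ι φ)).1 hmono X
    rw [map_zero]
    exact (map_smul ((kernel.ι φ).hom.app X).hom (E X) t).trans h2
  · exact ((coh_exact_iff _).1 hex X y).1 hy

end Gen


section Map
variable {K : Type} [CommRing K] {R : PAlg K (Cov Bool)}

/-- the arrow to the smallest chart -/
def tp (X : (Cov Bool)ᵒᵖ) : X ⟶ op cab :=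
  (homOfLE (show cab ≤ X.unop from Finset.subset_univ _)).op

/-- a map into a module whose restrictions to the smallest chart are bijective -/
theorem exists_hom_bij (Q T : PMod R)
    (h : ∀ X : (Cov Bool)ᵒᵖ, Function.Bijective (rs T (tp X)))
    (f : Q.obj (op cab) →ₗ[R.toRing.obj (op cab)] T.obj (op cab)) (hf : f ≠ 0) :
    ∃ g : Q ⟶ T, g ≠ 0 := by
  let g : ∀ X : (Cov Bool)ᵒᵖ, Q.obj X → T.obj X := fun X x =>
    (Equiv.ofBijective _ (h X)).symm (f (rs Q (tp X) x))
  have hg : ∀ (X : (Cov Bool)ᵒᵖ) (x : Q.obj X), rs T (tp X) (g X x) = f (rs Q (tp X) x) :=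
    fun X x => Equiv.ofBijective_apply_symm_apply _ (h X) _
  let φ : Q ⟶ T := mkHom (fun X =>
      { toFun := g X
        map_add' := fun x y => (h X).1 (by
          rw [hg, rs_add, rs_add, map_add, hg, hg])
        map_smul' := fun r x => (h X).1 (by
          rw [RingHom.id_apply, hg, rs_smul, rs_smul, map_smul, hg]) })
    (by
      intro X Y k x
      apply (h Y).1
      show rs T (tp Y) (g Y (rs Q k x)) = rs T (tp Y) (rs T k (g X x))
      rw [hg, ← rs_comp, ← rs_comp]
      exact (hg X x).symm)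
  refine ⟨φ, fun h0 => hf ?_⟩
  ext x
  have h1 : g (op cab) x = 0 := by
    have h2 : φ.app (op cab) x = (0 : Q ⟶ T).app (op cab) x := by rw [h0]
    exact h2
  have h3 := hg (op cab) x
  have h4 : tp (op cab) = 𝟙 _ := Subsingleton.elim _ _
  rw [h4, rs_id, rs_id, h1] at h3
  exact h3.symm

/-- a map supported on one maximal chart -/
theorem exists_hom_one (Q T : PMod R) (X₀ : (Cov Bool)ᵒᵖ)
    (hX₀ : ∀ {Y : (Cov Bool)ᵒᵖ} (_ : Y ⟶ X₀), Y = X₀)
    (f : Q.obj X₀ →ₗ[R.toRing.obj X₀] T.obj X₀) (hf : f ≠ 0)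
    (hk : ∀ {Y : (Cov Bool)ᵒᵖ} (k : X₀ ⟶ Y), Y ≠ X₀ → ∀ x, rs T k (f x) = 0) :
    ∃ g : Q ⟶ T, g ≠ 0 := by
  classical
  let φ : ∀ X : (Cov Bool)ᵒᵖ, Q.obj X →ₗ[R.toRing.obj X] T.obj X := fun X =>
    if h : X = X₀ then h ▸ f else 0
  have h1 : φ X₀ = f := dif_pos rfl
  have h2 : ∀ X, X ≠ X₀ → φ X = 0 := fun X h => dif_neg h
  let g : Q ⟶ T := mkHom φ (by
    intro X Y k x
    by_cases hY : Y = X₀
    · subst hY
      obtain rfl := hX₀ k
      have h4 : k = 𝟙 _ := Subsingleton.elim _ _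
      rw [h4, rs_id, rs_id]
    · rw [h2 Y hY, LinearMap.zero_apply]
      by_cases hX : X = X₀
      · subst hX
        rw [h1]
        exact (hk k hY x).symm
      · rw [h2 X hX, LinearMap.zero_apply, rs_zero])
  refine ⟨g, fun h0 => hf ?_⟩
  rw [← h1]
  ext x
  have h5 : g.app X₀ x = (0 : Q ⟶ T).app X₀ x := by rw [h0]
  exact h5

lemma eq_ca {Y : (Cov Bool)ᵒᵖ} (k : Y ⟶ op ca) : Y = op ca := by
  have h : Y.unop.s ⊆ ca.s := leOfHom k.unop
  obtain h1 | h1 | h1 := cov_cases Y.unop
  · exact congrArg op h1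
  · rw [h1] at h
    have := h (show true ∈ cb.s from Finset.mem_singleton_self true)
    simp [ca, Cov.one] at this
  · rw [h1] at h
    have := h (show true ∈ cab.s from Finset.mem_univ true)
    simp [ca, Cov.one] at this

lemma eq_cb {Y : (Cov Bool)ᵒᵖ} (k : Y ⟶ op cb) : Y = op cb := by
  have h : Y.unop.s ⊆ cb.s := leOfHom k.unop
  obtain h1 | h1 | h1 := cov_cases Y.unop
  · rw [h1] at h
    have := h (show false ∈ ca.s from Finset.mem_singleton_self false)
    simp [cb, Cov.one] at this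
  · exact congrArg op h1
  · rw [h1] at h
    have := h (show false ∈ cab.s from Finset.mem_univ false)
    simp [cb, Cov.one] at this

lemma cab_of_ca {Y : (Cov Bool)ᵒᵖ} (k : op ca ⟶ Y) (hY : Y ≠ op ca) : Y = op cab := by
  obtain h1 | h1 | h1 := cov_cases Y.unop
  · exact absurd (congrArg op h1) hY
  · have h2 : Y = op cb := congrArg op h1
    subst h2
    exact absurd (eq_cb k).symm hY
  · exact congrArg op h1

lemma cab_of_cb {Y : (Cov Bool)ᵒᵖ} (k : op cb ⟶ Y) (hY : Y ≠ op cb) : Y = op cab := by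
  obtain h1 | h1 | h1 := cov_cases Y.unop
  · have h2 : Y = op ca := congrArg op h1
    subst h2
    exact absurd (eq_ca k).symm hY
  · exact absurd (congrArg op h1) hY
  · exact congrArg op h1

end Map


section El
variable {B : Type} [CommRing B] (a b : Bˣ)

lemma exists_bd (z : ConT a b) : ∃ N : ℕ, z.re ∈ LpIn (B := B) (Set.Icc (-(N : ℤ)) N) ∧
    z.im ∈ LpIn (B := B) (Set.Icc (-(N : ℤ)) N) := by
  classical
  let s : Finset ℤ := z.re.coeff.support ∪ z.im.coeff.support
  refine ⟨s.sup Int.natAbs, ?_, ?_⟩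
  · intro n hn
    by_contra h
    have h1 : n ∈ s := Finset.mem_union_left _ (Finsupp.mem_support_iff.2 h)
    have h2 : n.natAbs ≤ s.sup Int.natAbs := Finset.le_sup (f := Int.natAbs) h1
    apply hn
    rw [Set.mem_Icc]
    omega
  · intro n hn
    by_contra h
    have h1 : n ∈ s := Finset.mem_union_right _ (Finsupp.mem_support_iff.2 h)
    have h2 : n.natAbs ≤ s.sup Int.natAbs := Finset.le_sup (f := Int.natAbs) h1
    apply hn
    rw [Set.mem_Icc]
    omega

/-- `T^n` in the ambient ring -/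
noncomputable abbrev tt (n : ℤ) : ConT a b :=
  algebraMap (LaurentPolynomial B) (ConT a b) (LaurentPolynomial.T n)

lemma tt_add (m n : ℤ) : tt a b (m + n) = tt a b m * tt a b n := by
  unfold tt
  rw [← map_mul, ← LaurentPolynomial.T_add]

lemma tt_mul_mem (K : Type) [CommRing K] [Algebra K B] {z : ConT a b} {s : Set ℤ}
    (h1 : z.re ∈ LpIn (B := B) s) (h2 : z.im ∈ LpIn (B := B) s) (k : Cov Bool) (n : ℤ)
    (hR : ∀ x ∈ s, n + x ∈ exR k) (hI : ∀ x ∈ s, n + x ∈ exI k) :
    tt a b n * z ∈ conSub a b K k := by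
  have hT : (LaurentPolynomial.T n : LaurentPolynomial B) ∈ LpIn (B := B) {n} :=
    single_mem_LpIn (Set.mem_singleton n) _
  have e : (tt a b n * z) = LaurentPolynomial.T n • z := (Algebra.smul_def _ _).symm
  rw [e]
  refine ⟨?_, ?_⟩
  · show (LaurentPolynomial.T n * z.re) ∈ _
    refine LpIn.mul (s := {n}) (t := s) ?_ hT h1
    rintro x rfl y hy
    exact hR y hy
  · show (LaurentPolynomial.T n * z.im) ∈ _
    refine LpIn.mul (s := {n}) (t := s) ?_ hT h2
    rintro x rfl y hy
    exact hI y hy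

end El

section El
variable {B : Type} [CommRing B] (a b : Bˣ) (K : Type) [CommRing K] [Algebra K B]

lemma pe_ca : pe ca = 0 := if_pos (Finset.mem_singleton_self false)
lemma pe_cab : pe cab = 0 := if_pos (Finset.mem_univ false)
lemma pe_cb : pe cb = 1 := if_neg (by simp [cb, Cov.one])

/-- a section of a line bundle vanishing on the zeros of a given section, on all charts -/
theorem exists_fam (k : Cov Bool) (r : (Cnc a b K).ring k) :
    ∃ (j : ℤ) (E : ∀ X : (Cov Bool)ᵒᵖ, (Cnc a b K).toRing.obj X),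
      (∀ {X Y : (Cov Bool)ᵒᵖ} (f : X ⟶ Y),
        E Y = (cL a b K j).v f * (Cnc a b K).toRing.map f (E X)) ∧
      (∃ u : (Cnc a b K).toRing.obj (op k), E (op k) = u * (show (Cnc a b K).toRing.obj (op k) from r)) ∧
      (E (op cab) = 0 → r = 0) := by
  classical
  let z : ConT a b := (show conSub a b K k from r).1
  obtain ⟨N, h1, h2⟩ := exists_bd a b z
  have hmem : ∀ X : (Cov Bool)ᵒᵖ,
      tt a b ((N : ℤ) - (2 * N + 1) * pe X.unop) * z ∈ conSub a b K X.unop := by
    intro X
    refine tt_mul_mem a b K h1 h2 _ _ ?_ ?_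
    · intro x hx
      rw [Set.mem_Icc] at hx
      obtain h3 | h3 | h3 := cov_cases X.unop
      · rw [h3, pe_ca]
        refine ⟨fun _ => by omega, fun h => absurd (Finset.mem_singleton_self false) h⟩
      · rw [h3, pe_cb]
        refine ⟨fun h => absurd (Finset.mem_singleton_self true) h, fun _ => by omega⟩
      · rw [h3, pe_cab]
        refine ⟨fun h => absurd (Finset.mem_univ true) h, fun h => absurd (Finset.mem_univ false) h⟩
    · intro x hx
      rw [Set.mem_Icc] at hx
      obtain h3 | h3 | h3 := cov_cases X.unop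
      · rw [h3, pe_ca]
        refine ⟨fun _ => by omega, fun h => absurd (Finset.mem_singleton_self false) h⟩
      · rw [h3, pe_cb]
        refine ⟨fun h => absurd (Finset.mem_singleton_self true) h, fun _ => by omega⟩
      · rw [h3, pe_cab]
        refine ⟨fun h => absurd (Finset.mem_univ true) h, fun h => absurd (Finset.mem_univ false) h⟩
  have hk : ((N : ℤ) - (2 * N + 1) * pe k) ∈ exR k := by
    obtain h3 | h3 | h3 := cov_cases k
    · rw [h3, pe_ca]
      refine ⟨fun _ => by omega, fun h => absurd (Finset.mem_singleton_self false) h⟩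
    · rw [h3, pe_cb]
      refine ⟨fun h => absurd (Finset.mem_singleton_self true) h, fun _ => by omega⟩
    · rw [h3, pe_cab]
      refine ⟨fun h => absurd (Finset.mem_univ true) h, fun h => absurd (Finset.mem_univ false) h⟩
  refine ⟨2 * N + 1, fun X => (⟨_, hmem X⟩ : conSub a b K X.unop), ?_, ?_, ?_⟩
  · intro X Y f
    apply Subtype.ext
    show tt a b ((N : ℤ) - (2 * N + 1) * pe Y.unop) * z =
      tt a b ((2 * N + 1) * (pe X.unop - pe Y.unop)) *
        (tt a b ((N : ℤ) - (2 * N + 1) * pe X.unop) * z)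
    rw [← mul_assoc, ← tt_add]
    congr 2
    ring
  · exact ⟨(Tel a b K hk : conSub a b K k), rfl⟩
  · intro h
    have h3 : tt a b ((N : ℤ) - (2 * N + 1) * pe cab) * z = 0 := congrArg Subtype.val h
    have h4 : tt a b (-((N : ℤ) - (2 * N + 1) * pe cab)) *
        (tt a b ((N : ℤ) - (2 * N + 1) * pe cab) * z) = z := by
      rw [← mul_assoc, ← tt_add, neg_add_cancel]
      show algebraMap (LaurentPolynomial B) (ConT a b) (LaurentPolynomial.T 0) * z = z
      rw [LaurentPolynomial.T_zero, map_one, one_mul]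
    rw [h3, mul_zero] at h4
    exact Subtype.ext h4.symm

end El


section Fld
variable {K : Type} [Field K] {R : PAlg K (Cov Bool)}

/-- a nonzero map supported on a maximal chart -/
theorem case_one (Q T : Coh R) (c : Cov Bool) (hc : cab ≤ c) (hdom : IsDomain (R.ring c))
    (hnoe : IsNoetherianRing (R.ring c)) (hX₀ : ∀ {Y : (Cov Bool)ᵒᵖ} (_ : Y ⟶ op c), Y = op c)
    (hY : ∀ {Y : (Cov Bool)ᵒᵖ} (_ : op c ⟶ Y), Y ≠ op c → Y = op cab)
    (hQ : ∃ x : sec Q.obj c, ∀ s : R.ring c, s ≠ 0 → s • x ≠ 0)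
    (hT : Module.Finite K (sec T.obj c)) (t : sec T.obj c) (ht : t ≠ 0)
    (ht' : rs T.obj (homOfLE hc).op t = 0) : ∃ g : Q.obj ⟶ T.obj, g ≠ 0 := by
  have hfin : Module.Finite (R.ring c) (sec Q.obj c) := Q.property.1 (op c)
  let N : Submodule (R.ring c) (sec T.obj c) :=
    { carrier := {t | rs T.obj (homOfLE hc).op t = 0}
      add_mem' := fun {x y} hx hy => by
        show rs T.obj (homOfLE hc).op (x + y) = 0
        rw [rs_add, show rs T.obj (homOfLE hc).op x = 0 from hx,
          show rs T.obj (homOfLE hc).op y = 0 from hy, add_zero]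
      zero_mem' := rs_zero _ _
      smul_mem' := fun r x hx => by
        show rs T.obj (homOfLE hc).op
          ((show R.toRing.obj (op c) from r) • (show T.obj.obj (op c) from x)) = 0
        rw [rs_smul, show rs T.obj (homOfLE hc).op x = 0 from hx, smul_zero] }
  have hNf : Module.Finite K N :=
    Module.Finite.of_injective (N.subtype.restrictScalars K) Subtype.val_injective
  have hNn : Nontrivial N := ⟨⟨⟨t, ht'⟩, 0, fun h => ht (congrArg Subtype.val h)⟩⟩
  obtain ⟨f, hf⟩ := exists_map (K := K) (R := R.ring c) (Q := sec Q.obj c) (N := N) hQ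
  refine exists_hom_one Q.obj T.obj (op c) hX₀ (N.subtype.comp f) ?_ ?_
  · intro h
    apply hf
    ext x
    exact congrArg (fun w => w x) h
  · intro Y k hk x
    obtain rfl := hY k hk
    have h4 : k = (homOfLE hc).op := Subsingleton.elim _ _
    rw [h4]
    exact (f x).2

/-- a nonzero map when all restrictions are bijective -/
theorem case_two (Q T : Coh R) (hdom : IsDomain (R.ring cab))
    (hnoe : IsNoetherianRing (R.ring cab))
    (hQ : ∃ x : sec Q.obj cab, ∀ s : R.ring cab, s ≠ 0 → s • x ≠ 0)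
    (hT : Module.Finite K (sec T.obj cab)) (hne : Nontrivial (sec T.obj cab))
    (hA : Function.Bijective (rA T.obj)) (hB : Function.Bijective (rB T.obj)) :
    ∃ g : Q.obj ⟶ T.obj, g ≠ 0 := by
  have hfin : Module.Finite (R.ring cab) (sec Q.obj cab) := Q.property.1 (op cab)
  obtain ⟨f, hf⟩ := exists_map (K := K) (R := R.ring cab) (Q := sec Q.obj cab)
    (N := sec T.obj cab) hQ
  refine exists_hom_bij Q.obj T.obj ?_ f hf
  intro X
  obtain h | h | h := cov_cases X.unop
  · obtain rfl : X = op ca := congrArg op h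
    exact hA
  · obtain rfl : X = op cb := congrArg op h
    exact hB
  · obtain rfl : X = op cab := congrArg op h
    have h4 : tp (op cab) = 𝟙 _ := Subsingleton.elim _ _
    rw [h4]
    have h5 : rs T.obj (𝟙 (op cab)) = id := funext fun x => rs_id T.obj _ x
    rw [h5]
    exact Function.bijective_id

end Fld

end REL_

open REL_

theorem rel_proof (hCDM : Stmt_CDM) (_hRKA : Stmt_RKA) (hTFD : Stmt_TFD) (hTSJ : Stmt_TSJ)
    (_hSIM : Stmt_SIM) (hRIG : Stmt_RIG) (hLMA : Stmt_LMA) (hLMB : Stmt_LMB) : Stmt_REL := by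
  intro K _ _ a b h2 _ Q i hrk hdeg hEnd
  refine hRIG K a b h2 Q i ?_ hrk hdeg
  intro k r x hrx
  by_contra hcon
  push Not at hcon
  obtain ⟨hr, hx⟩ := hcon
  have hdom : ∀ k, IsDomain ((Cnc a b K).ring k) := hCDM K a b h2
  have hnoe : ∀ k, IsNoetherianRing ((Cnc a b K).ring k) := fun k => PAlg.Good.noeth (op k)
  have hrank : ∀ M : Coh (Cnc a b K),
      (∀ x : sec M.obj cab, ∃ s : (Cnc a b K).ring cab, s ≠ 0 ∧ s • x = 0) → rkC M.obj = 0 := by
    intro M hM
    have h3 := rank_eq_zero_iff.2 hM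
    unfold rkC
    rw [Nat.cast_eq_zero, Module.finrank, h3]
    exact map_zero _
  obtain ⟨j, E, hE, ⟨u, hu⟩, hE0⟩ := exists_fam a b K k r
  have hEne : E (op cab) ≠ 0 := fun h => hr (hE0 h)
  obtain ⟨T, ι, hι, hT1, hT2⟩ := exists_ker (cL a b K j) Q E hE
  -- `T` is nonzero
  obtain ⟨t, ht⟩ := hT2 (op k) x (by
    rw [hu, mul_smul]
    exact (congrArg (fun w => u • w) hrx).trans (smul_zero _))
  have ht0 : t ≠ 0 := by
    rintro rfl
    apply hx
    rw [← ht]
    exact map_zero (ι.hom.app (op k)).hom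
  -- `T` is torsion
  have hTr : rkC T.obj = 0 := hrank T fun y => ⟨E (op cab), hEne, hT1 (op cab) y⟩
  have hTf := hTFD K a b h2 T hTr
  obtain ⟨hsA, hsB⟩ := hTSJ K a b h2 T hTr
  -- nontorsion sections of `Q`
  have hQab : ∃ z : sec Q.obj cab, ∀ s : (Cnc a b K).ring cab, s ≠ 0 → s • z ≠ 0 := by
    by_contra hcon
    push Not at hcon
    rw [hrank Q hcon] at hrk
    exact zero_ne_one hrk
  obtain ⟨z, hz⟩ := hQab
  -- a nonzero map
  have hg : ∃ g : Q.obj ⟶ T.obj, g ≠ 0 := by
    by_cases hA : ∃ t : sec T.obj ca, t ≠ 0 ∧ rA T.obj t = 0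
    · obtain ⟨t, ht, ht'⟩ := hA
      refine case_one Q T ca cab_le_ca (hdom _) (hnoe _) eq_ca cab_of_ca ?_ (hTf ca) t ht ht'
      obtain ⟨n, y, hy⟩ := (hLMA K K a b Q).1 z
      exact ⟨y, nontors a b (hdom _) Q.obj cab_le_ca z hz n y hy⟩
    · by_cases hB : ∃ t : sec T.obj cb, t ≠ 0 ∧ rB T.obj t = 0
      · obtain ⟨t, ht, ht'⟩ := hB
        refine case_one Q T cb cab_le_cb (hdom _) (hnoe _) eq_cb cab_of_cb ?_ (hTf cb) t ht ht'
        obtain ⟨n, y, hy⟩ := (hLMB K K a b Q).1 z
        exact ⟨y, nontors a b (hdom _) Q.obj cab_le_cb z hz (-n) y hy⟩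
      · push Not at hA hB
        have hiA : Function.Injective (rA T.obj) := by
          rw [injective_iff_map_eq_zero]
          intro y hy
          by_contra hne
          exact hA y hne hy
        have hiB : Function.Injective (rB T.obj) := by
          rw [injective_iff_map_eq_zero]
          intro y hy
          by_contra hne
          exact hB y hne hy
        refine case_two Q T (hdom _) (hnoe _) ⟨z, hz⟩ (hTf cab) ?_ ⟨hiA, hsA⟩ ⟨hiB, hsB⟩
        obtain rfl | rfl | rfl := cov_cases k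
        · exact ⟨⟨rA T.obj t, 0, fun h => ht0 (hiA (h.trans (map_zero _).symm))⟩⟩
        · exact ⟨⟨rB T.obj t, 0, fun h => ht0 (hiB (h.trans (map_zero _).symm))⟩⟩
        · exact ⟨⟨t, 0, ht0⟩⟩
  obtain ⟨g, hg⟩ := hg
  let g' : Q ⟶ T := ObjectProperty.homMk g
  have hg' : g' ≫ ι ≠ 0 := by
    intro h
    have h1 : g' = 0 := zero_of_comp_mono ι h
    exact hg (congrArg (fun w => w.hom) h1)
  have hid : (𝟙 Q : Q ⟶ Q) ≠ 0 := by
    intro h
    apply hz 1 one_ne_zero
    rw [one_smul]
    have h1 : (𝟙 Q : Q ⟶ Q).hom.app (op cab) z = (0 : Q ⟶ Q).hom.app (op cab) z := by rw [h]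
    exact h1
  obtain ⟨c, hc⟩ := (finrank_eq_one_iff_of_nonzero' (𝟙 Q) hid).1 hEnd (g' ≫ ι)
  have hc0 : c ≠ 0 := by
    rintro rfl
    rw [zero_smul] at hc
    exact hg' hc.symm
  have h1 : (c • 𝟙 Q : Q ⟶ Q).hom.app (op cab) z = (g' ≫ ι).hom.app (op cab) z := by rw [hc]
  have h2 : cst (Cnc a b K) (op cab) c • (show Q.obj.obj (op cab) from z) =
      ι.hom.app (op cab) (g.app (op cab) z) := h1
  have h3 : E (op cab) • ι.hom.app (op cab) (g.app (op cab) z) = 0 := by
    have h4 := map_smul (ι.hom.app (op cab)).hom (E (op cab)) (g.app (op cab) z)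
    rw [hT1] at h4
    exact h4.symm.trans (map_zero (ι.hom.app (op cab)).hom)
  rw [← h2, smul_smul] at h3
  have h5 : (algebraMap K ((Cnc a b K).ring cab) c) ≠ 0 := by
    intro h
    apply hc0
    exact (algebraMap K ((Cnc a b K).ring cab)).injective (h.trans (map_zero _).symm)
  exact hz ((show (Cnc a b K).ring cab from E (op cab)) * algebraMap K ((Cnc a b K).ring cab) c)
    (mul_ne_zero hEne h5) h3

end Pool.CRD.Cn
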