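import Pool.Agent.CRD.Cnc.Stmts

/-!
# CRD / Cnc, module RIG: torsion free modules of rank one and even degree are the `O(j)`
-/

open CategoryTheory Opposite Limits

namespace Pool.CRD.Cn

namespace RIG_

variable {L : Type} [Field L] (a b : Lˣ)

lemma pe_ca : pe ca = 0 := by
  unfold pe
  exact if_pos (Finset.mem_singleton_self false)

lemma pe_cb : pe cb = 1 := by
  unfold pe
  refine if_neg ?_
  intro h
  exact Bool.noConfusion (Finset.mem_singleton.1 h)

lemma pe_cab : pe cab = 0 := by
  unfold pe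
  exact if_pos (Finset.mem_univ _)

lemma cab_mem : false ∈ cab.s ∧ true ∈ cab.s := ⟨Finset.mem_univ _, Finset.mem_univ _⟩

lemma Tn_mul (n m : ℤ) : Tn (K := L) a b n * Tn (K := L) a b m = Tn (K := L) a b (n + m) :=
  Tel_mul a b L (exR_all cab_mem n) (exR_all cab_mem m) (exR_all cab_mem (n + m)) rfl

lemma Tn_zero : Tn (K := L) a b 0 = 1 := Tel_zero a b L (exR_all cab_mem 0)

lemma twA (j : ℤ) (M : PMod (Cnc a b L)) (x : sec M ca) :
    rA ((cL a b L j).twObj M) x = (rA M x : sec M cab) := by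
  change Tn (K := L) a b (j * (pe ca - pe cab)) • rA M x = rA M x
  rw [pe_ca, pe_cab, sub_self, mul_zero, Tn_zero, one_smul]

lemma twB (j : ℤ) (M : PMod (Cnc a b L)) (y : sec M cb) :
    rB ((cL a b L j).twObj M) y = (Tn (K := L) a b j • rB M y : sec M cab) := by
  change Tn (K := L) a b (j * (pe cb - pe cab)) • rB M y = Tn (K := L) a b j • rB M y
  rw [pe_cb, pe_cab, sub_zero, mul_one]

/-- a nonzero section of a twist gives `(x, y)` -/
lemma exists_xy (M : PMod (Cnc a b L)) (j : ℤ)
    (h : 0 < Module.finrank L (H0 ((cL a b L (-j)).twObj M))) :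
    ∃ (x : sec M ca) (y : sec M cb), ¬ (x = 0 ∧ y = 0) ∧ Tn (K := L) a b j • rA M x = rB M y := by
  by_contra hne
  push Not at hne
  have hz : ∀ z : H0 ((cL a b L (-j)).twObj M), z = 0 := by
    rintro ⟨⟨x, y⟩, hxy⟩
    have h1 : rA ((cL a b L (-j)).twObj M) x - rB ((cL a b L (-j)).twObj M) y = 0 := hxy
    have h2 : (rA M x : sec M cab) = Tn (K := L) a b (-j) • rB M y := by
      have h3 := sub_eq_zero.1 h1
      exact (twA a b (-j) M x).symm.trans (h3.trans (twB a b (-j) M y))
    have h4 : Tn (K := L) a b j • rA M x = rB M y := by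
      rw [h2, smul_smul, Tn_mul, add_neg_cancel, Tn_zero, one_smul]
    by_cases h5 : x = 0 ∧ y = 0
    · apply Subtype.ext
      exact Prod.ext h5.1 h5.2
    · exact absurd h4 (hne x y (fun hx hy => h5 ⟨hx, hy⟩))
  have : Subsingleton (H0 ((cL a b L (-j)).twObj M)) := ⟨fun p q => (hz p).trans (hz q).symm⟩
  rw [Module.finrank_zero_of_subsingleton] at h
  exact lt_irrefl _ h

lemma app_eq {M : PMod (Cnc a b L)} {j : ℤ} (φ : OO a b L j ⟶ M) (k : Cov Bool)
    (r : (Cnc a b L).ring k) :
    (φ.app (op k) (show sec (OO a b L j) k from r) : sec M k) =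
      r • (φ.app (op k) (one' (K := L) a b j k) : sec M k) := by
  have h1 : (show sec (OO a b L j) k from r) = r • one' (K := L) a b j k :=
    (mul_one r).symm
  have h2 : (φ.app (op k) (r • one' (K := L) a b j k) : sec M k) =
      r • (φ.app (op k) (one' (K := L) a b j k) : sec M k) :=
    map_smul (φ.app (op k)).hom _ _
  exact (congrArg (fun t : sec (OO a b L j) k => (φ.app (op k) t : sec M k)) h1).trans h2

lemma Tel_ne {k : Cov Bool} {n : ℤ} (h : n ∈ exR k) : Tel a b L h ≠ 0 := by
  intro h0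
  have h1 : (algebraMap (LaurentPolynomial L) (ConT a b) (LaurentPolynomial.T n)) = 0 :=
    congrArg Subtype.val h0
  have h2 : (LaurentPolynomial.T n : LaurentPolynomial L) = 0 := congrArg QuadraticAlgebra.re h1
  exact (LaurentPolynomial.isUnit_T (R := L) n).ne_zero h2

lemma TA_ne : TA (K := L) a b ≠ 0 := Tel_ne a b (k := ca) (n := 1)
  ⟨fun _ => by norm_num, fun h => absurd (Finset.mem_singleton_self false) h⟩

lemma TB_ne : TB (K := L) a b ≠ 0 := Tel_ne a b (k := cb) (n := -1)
  ⟨fun h => absurd (Finset.mem_singleton_self true) h, fun _ => by norm_num⟩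

lemma rA_one (j : ℤ) : rA (OO a b L j) (one' (K := L) a b j ca) = one' (K := L) a b j cab := by
  have h1 := twA a b j (OR (Cnc a b L)) (one' (K := L) a b j ca)
  have h2 : (rA (OR (Cnc a b L)) (show (Cnc a b L).ring ca from 1) : sec (OR (Cnc a b L)) cab) =
      (show (Cnc a b L).ring cab from 1) :=
    map_one ((Cnc a b L).map (homOfLE cab_le_ca).op).hom
  exact h1.trans h2

lemma app_cab {M : PMod (Cnc a b L)} {j : ℤ} (φ : OO a b L j ⟶ M) :
    φ.app (op cab) (one' (K := L) a b j cab) = rA M (φ.app (op ca) (one' (K := L) a b j ca)) := by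
  have h1 := rs_nat φ (homOfLE cab_le_ca).op (one' (K := L) a b j ca)
  have h2 : rs (OO a b L j) (homOfLE cab_le_ca).op (one' (K := L) a b j ca) =
      one' (K := L) a b j cab := rA_one a b j
  rw [h2] at h1
  exact h1

end RIG_

open RIG_ in
theorem rig_proof (hCDM : Stmt_CDM) (_hHFD : Stmt_HFD) (hCHA : Stmt_CHA) (hRKA : Stmt_RKA)
    (hOJN : Stmt_OJN) (hCTT : Stmt_CTT) (hRR1 : Stmt_RR1) (hHOJ : Stmt_HOJ) (hLMA : Stmt_LMA)
    (hLMB : Stmt_LMB) : Stmt_RIG := by
  intro L _ a b h2 _ M j htf hrk hdeg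
  have hdom := hCDM L a b h2
  have hchi : chiC M.obj = 2 * j + 1 := by
    have h0 : degC M.obj = chiC M.obj - rkC M.obj := rfl
    rw [h0, hrk] at hdeg
    linarith
  have h1 := hRR1 L a b h2 M (-j)
  rw [hchi, hrk] at h1
  have h3 : 0 < Module.finrank L (H0 ((cL a b L (-j)).twObj M.obj)) := by
    have h4 : chiC ((cL a b L (-j)).twObj M.obj) =
        (Module.finrank L (H0 ((cL a b L (-j)).twObj M.obj)) : ℤ) -
          (Module.finrank L (H1c ((cL a b L (-j)).twObj M.obj)) : ℤ) := rfl
    rw [h4] at h1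
    have h5 : (0 : ℤ) ≤ (Module.finrank L (H1c ((cL a b L (-j)).twObj M.obj)) : ℤ) :=
      Int.natCast_nonneg _
    have h6 : (0 : ℤ) < (Module.finrank L (H0 ((cL a b L (-j)).twObj M.obj)) : ℤ) := by
      linarith
    exact_mod_cast h6
  obtain ⟨x, y, hxy, hT⟩ := exists_xy a b M.obj j h3
  obtain ⟨φ, hφa, hφb⟩ := hHOJ L L a b j M.obj x y hT
  have hA : ∀ x : sec M.obj ca, rA M.obj x = 0 → x = 0 := by
    intro x hx
    obtain ⟨n, hn⟩ := (hLMA L L a b M).2 x hx
    rcases htf ca _ x hn with h | h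
    · have := hdom ca
      exact absurd h (pow_ne_zero n (TA_ne a b))
    · exact h
  have hB : ∀ y : sec M.obj cb, rB M.obj y = 0 → y = 0 := by
    intro y hy
    obtain ⟨n, hn⟩ := (hLMB L L a b M).2 y hy
    rcases htf cb _ y hn with h | h
    · have := hdom cb
      exact absurd h (pow_ne_zero n (TB_ne a b))
    · exact h
  have hx : x ≠ 0 := by
    intro hx
    apply hxy
    refine ⟨hx, hB y ?_⟩
    rw [← hT, hx, map_zero, smul_zero]
  have hy : y ≠ 0 := by
    intro hy
    apply hxy
    refine ⟨hA x ?_, hy⟩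
    rw [hy, map_zero] at hT
    have h5 : Tn (K := L) a b (-j) • (Tn (K := L) a b j • rA M.obj x) = 0 := by
      rw [hT, smul_zero]
    rwa [smul_smul, Tn_mul, neg_add_cancel, Tn_zero, one_smul] at h5
  have hz : ∀ k : Cov Bool, φ.app (op k) (one' (K := L) a b j k) ≠ 0 := by
    intro k
    rcases cov_cases k with rfl | rfl | rfl
    · rw [hφa]
      exact hx
    · rw [hφb]
      exact hy
    · rw [app_cab, hφa]
      exact fun h => hx (hA x h)
  let φ' : Oc a b j ⟶ M := ObjectProperty.homMk φ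
  have hmono : Mono φ' := by
    refine (coh_mono_iff φ').2 (fun X => ?_)
    refine (injective_iff_map_eq_zero (φ'.hom.app X).hom).2 (fun r hr => ?_)
    have h5 : (φ.app (op X.unop) (show sec (OO a b L j) X.unop from r) : sec M.obj X.unop) = 0 := hr
    have h6 := app_eq a b φ X.unop (show (Cnc a b L).ring X.unop from r)
    have h7 : (show (Cnc a b L).ring X.unop from r) •
        (φ.app (op X.unop) (one' (K := L) a b j X.unop) : sec M.obj X.unop) = 0 := h6.symm.trans h5
    rcases htf X.unop _ _ h7 with h | h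
    · exact h
    · exact absurd h (hz X.unop)
  have hS : (ShortComplex.mk φ' (cokernel.π φ') (cokernel.condition φ')).ShortExact :=
    { exact := ShortComplex.exact_cokernel φ'
      mono_f := inferInstance
      epi_g := inferInstance }
  have hr := hRKA L a b h2 _ hS
  have hc := hCHA L a b _ hS
  have ho := hOJN L a b j
  have hrQ : rkC (cokernel φ').obj = 0 := by
    have e1 : rkC M.obj = rkC (OO a b L j) + rkC (cokernel φ').obj := hr
    rw [hrk, ho.2] at e1
    linarith
  have hcQ : chiC (cokernel φ').obj = 0 := by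
    have e1 : chiC M.obj = chiC (OO a b L j) + chiC (cokernel φ').obj := hc
    rw [hchi, ho.1] at e1
    linarith
  have hQ : IsZero (cokernel φ') :=
    (coh_isZero_iff _).2 ((hCTT L a b h2 _ hrQ).2.2 hcQ)
  have : Epi φ' := Preadditive.epi_of_isZero_cokernel φ' hQ
  have : IsIso φ' := isIso_of_mono_of_epi φ'
  exact ⟨(asIso φ').symm⟩

end Pool.CRD.Cn
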