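import Pool.Agent.CRD.Cnc.Stmts

/-!
# CRD / Cnc, module RKA: the rank is additive
-/

open CategoryTheory Opposite Limits

namespace Pool.CRD.Cn

namespace RKA_

lemma add {R : Type} [CommRing R] [IsDomain R] {M₁ M₂ M₃ : Type} [AddCommGroup M₁] [Module R M₁]
    [AddCommGroup M₂] [Module R M₂] [AddCommGroup M₃] [Module R M₃] [Module.Finite R M₂]
    (f : M₁ →ₗ[R] M₂) (g : M₂ →ₗ[R] M₃) (hf : Function.Injective f) (hg : Function.Surjective g)
    (h : Function.Exact f g) :
    Module.finrank R M₂ = Module.finrank R M₁ + Module.finrank R M₃ := by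
  have h1 := (LinearMap.ker g).finrank_quotient_add_finrank
  have h2 : Module.finrank R (M₂ ⧸ LinearMap.ker g) = Module.finrank R M₃ :=
    (g.quotKerEquivOfSurjective hg).finrank_eq
  have h3 : Module.finrank R (LinearMap.ker g) = Module.finrank R M₁ := by
    rw [(LinearMap.exact_iff.1 h)]
    exact (LinearEquiv.ofInjective f hf).symm.finrank_eq
  omega

end RKA_

theorem rka_proof (hCDM : Stmt_CDM) : Stmt_RKA := by
  intro L _ a b h2 _ S hS
  have hdom : IsDomain ((Cnc a b L).ring cab) := hCDM L a b h2 cab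
  have hfin : Module.Finite ((Cnc a b L).ring cab) (sec S.X₂.obj cab) := S.X₂.property.1 (op cab)
  have h := RKA_.add (R := (Cnc a b L).ring cab) (M₁ := sec S.X₁.obj cab) (M₂ := sec S.X₂.obj cab)
    (M₃ := sec S.X₃.obj cab) (S.f.hom.app (op cab)).hom (S.g.hom.app (op cab)).hom
    (ses_inj hS (op cab)) (ses_surj hS (op cab)) (ses_exact hS (op cab))
  unfold rkC
  rw [h]
  push_cast
  ring

end Pool.CRD.Cn
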