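import Pool.Agent.CRD.Cnc.Stmts

/-!
# CRD / Cnc: RR1 (Riemann-Roch for twists)
-/

open CategoryTheory Opposite Limits

namespace Pool.CRD.Cn

namespace RR1_

section Gen

variable {K : Type} [CommRing K] {C : Type} [SmallCategory C] {R : PAlg K C} (c : UCoc R)

/-- the twist functor on coherent modules -/
noncomputable def T : Coh R ⥤ Coh R :=
  (IsCoh R).lift ((IsCoh R).ι ⋙ c.tw) (fun M => isCoh_tw c M.property)

lemma T_obj (M : Coh R) : ((T c).obj M).obj = c.twObj M.obj := rfl

lemma T_app {M N : Coh R} (φ : M ⟶ N) (X : Cᵒᵖ) :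
    (((T c).map φ).hom.app X).hom = (φ.hom.app X).hom := rfl

/-- the twist of a short complex -/
noncomputable def TS [R.Good] (S : ShortComplex (Coh R)) : ShortComplex (Coh R) :=
  ShortComplex.mk ((T c).map S.f) ((T c).map S.g) (by
    rw [← Functor.map_comp, S.zero]
    rfl)

lemma TS_se [R.Good] {S : ShortComplex (Coh R)} (h : S.ShortExact) : (TS c S).ShortExact where
  exact := (coh_exact_iff (TS c S)).2 (fun X => ses_exact h X)
  mono_f := (coh_mono_iff ((T c).map S.f)).2 (fun X => ses_inj h X)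
  epi_g := (coh_epi_iff ((T c).map S.g)).2 (fun X => ses_surj h X)

end Gen

lemma cL_zero {K B : Type} [CommRing K] [CommRing B] [Algebra K B] (a b : Bˣ) :
    cL a b K 0 = 1 := by
  apply UCoc.ext'
  intro X Y f
  apply Units.ext
  apply Subtype.ext
  change algebraMap (LaurentPolynomial B) (ConT a b)
    (LaurentPolynomial.T (0 * (pe X.unop - pe Y.unop))) = 1
  rw [zero_mul, LaurentPolynomial.T_zero, map_one]

/-- `O(0)(j) = O(j)` -/
noncomputable def twIso {K B : Type} [CommRing K] [CommRing B] [Algebra K B] (a b : Bˣ) (j : ℤ) :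
    (cL a b K j).twObj (OO a b K 0) ≅ OO a b K j :=
  (UCoc.twMul (cL a b K 0) (cL a b K j)).app (OR (Cnc a b K)) ≪≫
    eqToIso (congrArg (fun c : UCoc (Cnc a b K) => c.tw.obj (OR (Cnc a b K)))
      (show cL a b K 0 * cL a b K j = cL a b K j by rw [cL_zero, one_mul]))

end RR1_

open RR1_ in
theorem rr1_proof (hDEV : Stmt_DEV) (hCHA : Stmt_CHA) (hCTT : Stmt_CTT) (_hTFD : Stmt_TFD)
    (hOJN : Stmt_OJN) (hRKA : Stmt_RKA) : Stmt_RR1 := by
  intro L _ a b h2 _ M j
  have key := hDEV L a b h2 ℤ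
    (fun M => chiC ((cL a b L j).twObj M.obj) - chiC M.obj - 2 * j * rkC M.obj) ?_ ?_ ?_ M
  · have key' : chiC ((cL a b L j).twObj M.obj) - chiC M.obj - 2 * j * rkC M.obj = 0 := key
    linarith
  · intro S hS
    have h1 := hCHA L a b S hS
    have h2 := hRKA L a b h2 S hS
    have h3 : chiC ((cL a b L j).twObj S.X₂.obj) =
        chiC ((cL a b L j).twObj S.X₁.obj) + chiC ((cL a b L j).twObj S.X₃.obj) :=
      hCHA L a b (TS (cL a b L j) S) (TS_se (cL a b L j) hS)
    simp only [h1, h2, h3]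
    ring
  · have h1 := hOJN L a b 0
    have h3 := hOJN L a b j
    have hadd : IsAdd (fun M : Coh (Cnc a b L) => chiC M.obj) := fun S hS => hCHA L a b S hS
    have h4 : chiC ((cL a b L j).twObj (OO a b L 0)) = chiC (OO a b L j) :=
      hadd.of_iso (M := ⟨(cL a b L j).twObj (OO a b L 0), isCoh_tw _ (isCoh_OO a b 0)⟩)
        (N := ⟨OO a b L j, isCoh_OO a b j⟩) (ObjectProperty.isoMk _ (twIso a b j))
    change chiC ((cL a b L j).twObj (OO a b L 0)) - chiC (OO a b L 0) -
      2 * j * rkC (OO a b L 0) = 0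
    rw [h4, h3.1, h1.1, h1.2]
    ring
  · intro T _ hT
    have h1 := hCTT L a b h2 T hT
    have h3 := hCTT L a b h2 ⟨(cL a b L j).twObj T.obj, isCoh_tw _ T.property⟩ hT
    have h4 : chiC ((cL a b L j).twObj T.obj) = chiC T.obj := h3.1.trans h1.1.symm
    change chiC ((cL a b L j).twObj T.obj) - chiC T.obj - 2 * j * rkC T.obj = 0
    rw [h4, hT]
    ring

end Pool.CRD.Cn
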