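import Pool.Agent.CRD.Cnc.Stmts

/-!
# CRD / Cnc: a module of positive rank contains some `O(-n)`
-/

open CategoryTheory Opposite Limits

namespace Pool.CRD.Cn

namespace SEC_

variable {K : Type} [CommRing K] {C : Type} [SmallCategory C] {R : PAlg K C}

/-- ring restriction -/
noncomputable def rr (R : PAlg K C) {U V : C} (f : V ⟶ U) : R.ring U →+* R.ring V :=
  (R.map f.op).hom.toRingHom

lemma resK_smul (M : PMod R) {U V : C} (f : V ⟶ U) (r : R.ring U) (x : sec M U) :
    resK M f (r • x) = rr R f r • resK M f x :=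
  rs_smul M f.op r x

lemma app_res {M N : PMod R} (φ : M ⟶ N) {U V : C} (f : V ⟶ U) (x : sec M U) :
    φ.app (op V) (resK M f x) = resK N f (φ.app (op U) x) :=
  rs_nat φ f.op x

lemma app_smul {M N : PMod R} (φ : M ⟶ N) (U : C) (r : R.ring U) (x : sec M U) :
    φ.app (op U) (r • x) = r • (show sec N U from φ.app (op U) x) :=
  (φ.app (op U)).hom.map_smul r x

end SEC_

open SEC_

theorem sec_proof (hCDM : Stmt_CDM) (hLMA : Stmt_LMA) (hLMB : Stmt_LMB) (hHOJ : Stmt_HOJ) :
    Stmt_SEC := by
  intro L _ a b h2 _ M hrk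
  have hdom : ∀ k, IsDomain ((Cnc a b L).ring k) := hCDM L a b h2
  -- a non torsion element
  obtain ⟨z, hz⟩ : ∃ z : sec M.obj cab, ∀ r : (Cnc a b L).ring cab, r • z = 0 → r = 0 := by
    by_contra hcon
    push Not at hcon
    apply hrk
    have h0 : Module.rank ((Cnc a b L).ring cab) (sec M.obj cab) = 0 := by
      rw [rank_eq_zero_iff]
      intro x
      obtain ⟨r, hr, hr0⟩ := hcon x
      exact ⟨r, hr0, hr⟩
    unfold rkC
    rw [Module.finrank, h0]
    simp
  obtain ⟨n, x, hx⟩ := (hLMA L L a b M).1 z
  obtain ⟨m, y, hy⟩ := (hLMB L L a b M).1 (rA M.obj x)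
  obtain ⟨φ, hφa, hφb⟩ := hHOJ L L a b (-m) M.obj x y hy.symm
  -- `T^i` is nonzero
  have hT : ∀ i : ℤ, IsUnit (Tn (K := L) (B := L) a b i) := fun i =>
    (Tun a b L ⟨Finset.mem_univ _, Finset.mem_univ _⟩ i).isUnit
  have hT0 : ∀ i : ℤ, Tn (K := L) (B := L) a b i ≠ 0 := fun i => (hT i).ne_zero
  -- restriction of functions is injective
  have hinj : ∀ {U V : Cov Bool} (f : V ⟶ U), Function.Injective (rr (Cnc a b L) f) := by
    intro U V f
    exact Subalgebra.inclusion_injective _
  -- torsion free generators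
  have hxa : ∀ r : (Cnc a b L).ring cab, r • rA M.obj x = 0 → r = 0 := by
    intro r hr
    rw [hx, smul_smul] at hr
    have := hz _ hr
    rcases mul_eq_zero.1 this with h | h
    · exact h
    · exact absurd h (hT0 _)
  have hyb : ∀ r : (Cnc a b L).ring cab, r • rB M.obj y = 0 → r = 0 := by
    intro r hr
    rw [hy, smul_smul] at hr
    have := hxa _ hr
    rcases mul_eq_zero.1 this with h | h
    · exact h
    · exact absurd h (hT0 _)
  refine ⟨m, ObjectProperty.homMk φ, ?_⟩
  rw [coh_mono_iff]
  intro X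
  obtain ⟨k⟩ := X
  have key : ∀ k : Cov Bool, (∀ r : (Cnc a b L).ring k,
      r • (show sec M.obj k from φ.app (op k) (one' (K := L) a b (-m) k)) = 0 → r = 0) →
      Function.Injective (φ.app (op k)).hom := by
    intro k hk
    rw [injective_iff_map_eq_zero]
    intro r hr
    apply hk (show (Cnc a b L).ring k from r)
    rw [← app_smul]
    have e : (show (Cnc a b L).ring k from r) • one' (K := L) a b (-m) k = r :=
      mul_one (M := (Cnc a b L).ring k) r
    rw [e]
    exact hr
  apply key
  intro r hr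
  rcases cov_cases k with rfl | rfl | rfl
  · rw [hφa] at hr
    have h1 : rA M.obj (r • x) = 0 := by
      rw [hr, map_zero]
    have h2' : rA M.obj (r • x) = rr _ (homOfLE cab_le_ca) r • rA M.obj x := resK_smul _ _ _ _
    rw [h2'] at h1
    have h3 := hxa _ h1
    exact hinj _ (h3.trans (map_zero _).symm)
  · rw [hφb] at hr
    have h1 : rB M.obj (r • y) = 0 := by
      rw [hr, map_zero]
    have h2' : rB M.obj (r • y) = rr _ (homOfLE cab_le_cb) r • rB M.obj y := resK_smul _ _ _ _
    rw [h2'] at h1
    have h3 := hyb _ h1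
    exact hinj _ (h3.trans (map_zero _).symm)
  · have e1 : one' (K := L) a b (-m) cab = rA (OO a b L (-m)) (one' (K := L) a b (-m) ca) := by
      have hp1 : pe ca = 0 := by
        unfold pe
        rw [if_pos (by simp [ca, Cov.one])]
      have hp2 : pe cab = 0 := by
        unfold pe
        rw [if_pos (by simp [cab])]
      have hv : (cL a b L (-m)).v (homOfLE cab_le_ca).op =
          (1 : (Cnc a b L).toRing.obj (op cab)) := by
        apply Subtype.ext
        change algebraMap (LaurentPolynomial L) (ConT a b)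
          (LaurentPolynomial.T (-m * (pe ca - pe cab))) = 1
        rw [hp1, hp2, sub_zero, mul_zero, LaurentPolynomial.T_zero, map_one]
      have h1 : rA (OO a b L (-m)) (one' (K := L) a b (-m) ca) =
          ((cL a b L (-m)).v (homOfLE cab_le_ca).op •
            rs (OR (Cnc a b L)) (homOfLE cab_le_ca).op (show (Cnc a b L).ring ca from 1) :) := rfl
      rw [h1, hv, one_smul]
      exact (map_one (rr (Cnc a b L) (homOfLE cab_le_ca))).symm
    have e2 : (show sec M.obj cab from φ.app (op cab) (one' (K := L) a b (-m) cab)) =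
        rA M.obj x := by
      rw [e1]
      have := app_res φ (homOfLE cab_le_ca) (one' (K := L) a b (-m) ca)
      rw [hφa] at this
      exact this
    rw [e2] at hr
    exact hxa r hr

end Pool.CRD.Cn
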