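import Pool.Agent.CRD.Cnc.Stmts

/-!
# CRD / Cnc / SIM: the degree of a simple torsion module
-/

open CategoryTheory Opposite Limits

namespace Pool.CRD.Cn

namespace SIM_

open TensorProduct

section Alg

variable {A B : Type} [CommRing A] [CommRing B] [Algebra A B]
  {M₁ M N₁ N : Type} [AddCommGroup M₁] [AddCommGroup M] [AddCommGroup N₁] [AddCommGroup N]
  [Module A M₁] [Module A M] [Module B N₁] [Module B N] [Module A N₁] [Module A N]
  [IsScalarTower A B N₁] [IsScalarTower A B N]

lemma bc_sub [Module.Flat A B] (i : M₁ →ₗ[A] M) (j : N₁ →ₗ[B] N) (m₁ : M₁ →ₗ[A] N₁)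
    (m : M →ₗ[A] N) (h : ∀ x, j (m₁ x) = m (i x)) (hi : Function.Injective i)
    (hm : IsBaseChange B m) (hs : ∀ z : N₁, ∃ (b : B) (x : M₁), b • m₁ x = z) :
    IsBaseChange B m₁ := by
  rw [isBaseChange_iff_cmp] at *
  have c := cmp_comm i j m₁ m h
  have e : ∀ x, j (cmp B m₁ x) = cmp B m (i.lTensor B x) := fun x => LinearMap.congr_fun c x
  constructor
  · rw [injective_iff_map_eq_zero]
    intro x hx
    have h1 : cmp B m (i.lTensor B x) = 0 := by rw [← e, hx, map_zero]
    have h2 : i.lTensor B x = 0 := hm.1 (by rw [h1, map_zero])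
    exact Module.Flat.lTensor_preserves_injective_linearMap (M := B) i hi (by rw [h2, map_zero])
  · intro z
    obtain ⟨b, x, rfl⟩ := hs z
    exact ⟨b ⊗ₜ[A] x, cmp_tmul m₁ b x⟩

end Alg

section Sub

variable {K : Type} [CommRing K] {C : Type} [SmallCategory C] {R : PAlg K C}
variable (M : PMod R) (P : ∀ X : Cᵒᵖ, Submodule (R.toRing.obj X) (M.obj X))
  (hP : ∀ {X Y : Cᵒᵖ} (f : X ⟶ Y) (x : M.obj X), x ∈ P X → rs M f x ∈ P Y)

/-- the sub-presheaf given by submodules stable under restriction -/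
noncomputable def subP : PMod R :=
  mkP R (fun X => ModuleCat.of _ (P X)) (fun {X Y} f x => ⟨rs M f x.1, hP f x.1 x.2⟩)
    (fun f x y => Subtype.ext (rs_add M f x.1 y.1))
    (fun f r x => Subtype.ext (rs_smul M f r x.1))
    (fun X x => Subtype.ext (rs_id M X x.1))
    (fun f g x => Subtype.ext (rs_comp M f g x.1))

/-- the inclusion -/
noncomputable def subi : subP M P hP ⟶ M :=
  mkHom (fun X => (P X).subtype) (fun f x => rfl)

include hP in
lemma isCoh_subP [R.Good] (hM : IsCoh R M)
    (hs : ∀ {X Y : Cᵒᵖ} (f : X ⟶ Y) (z : M.obj Y), z ∈ P Y →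
      ∃ (r : R.toRing.obj Y) (x : M.obj X), x ∈ P X ∧ r • rs M f x = z) :
    IsCoh R (subP M P hP) := by
  refine ⟨fun X => ?_, fun {X Y} f => ?_⟩
  · haveI : IsNoetherianRing (R.toRing.obj X) := PAlg.Good.noeth X
    haveI := hM.1 X
    exact Module.Finite.of_injective (P X).subtype (P X).injective_subtype
  · have hc := hM.2 f
    have hf := PAlg.Good.flat (R := R) f
    letI : Algebra (R.obj X) (R.obj Y) := (R.map f).hom.toRingHom.toAlgebra
    letI : Module (R.obj X) ((subP M P hP).obj X) :=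
      inferInstanceAs (Module (R.toRing.obj X) ((subP M P hP).obj X))
    letI : Module (R.obj Y) ((subP M P hP).obj Y) :=
      inferInstanceAs (Module (R.toRing.obj Y) ((subP M P hP).obj Y))
    letI : Module (R.obj X) ((subP M P hP).obj Y) :=
      Module.compHom ((subP M P hP).obj Y) (R.map f).hom.toRingHom
    haveI : IsScalarTower (R.obj X) (R.obj Y) ((subP M P hP).obj Y) :=
      ⟨fun a b c => by rw [Algebra.smul_def, mul_smul]; rfl⟩
    letI : Module (R.obj X) (M.obj X) := inferInstanceAs (Module (R.toRing.obj X) (M.obj X))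
    letI : Module (R.obj Y) (M.obj Y) := inferInstanceAs (Module (R.toRing.obj Y) (M.obj Y))
    letI : Module (R.obj X) (M.obj Y) := Module.compHom (M.obj Y) (R.map f).hom.toRingHom
    haveI : IsScalarTower (R.obj X) (R.obj Y) (M.obj Y) :=
      ⟨fun a b c => by rw [Algebra.smul_def, mul_smul]; rfl⟩
    haveI : Module.Flat (R.obj X) (R.obj Y) := hf
    refine bc_sub (A := R.obj X) (B := R.obj Y) ((subi M P hP).app X).hom
      ((subi M P hP).app Y).hom _ _
      (fun x => PresheafOfModules.naturality_apply (subi M P hP) f x)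
      (P X).injective_subtype hc ?_
    rintro ⟨z, hz⟩
    obtain ⟨r, x, hx, h⟩ := hs f z hz
    exact ⟨r, ⟨x, hx⟩, Subtype.ext h⟩

lemma simple_sub [R.Good] (T : Coh R) [Simple T]
    (P : ∀ X : Cᵒᵖ, Submodule (R.toRing.obj X) (T.obj.obj X))
    (hP : ∀ {X Y : Cᵒᵖ} (f : X ⟶ Y) (x : T.obj.obj X), x ∈ P X → rs T.obj f x ∈ P Y)
    (hs : ∀ {X Y : Cᵒᵖ} (f : X ⟶ Y) (z : T.obj.obj Y), z ∈ P Y →
      ∃ (r : R.toRing.obj Y) (x : T.obj.obj X), x ∈ P X ∧ r • rs T.obj f x = z) :
    (∀ X, P X = ⊥) ∨ (∀ X, P X = ⊤) := by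
  let S : Coh R := ⟨subP T.obj P hP, isCoh_subP T.obj P hP T.property hs⟩
  let i : S ⟶ T := ObjectProperty.homMk (subi T.obj P hP)
  haveI : Mono i := (coh_mono_iff i).2 (fun X => (P X).injective_subtype)
  by_cases h : i = 0
  · left
    intro X
    rw [eq_bot_iff]
    intro x hx
    have h1 : (i.hom.app X) ⟨x, hx⟩ = ((0 : S ⟶ T).hom.app X) ⟨x, hx⟩ := by rw [h]
    have h2 : (i.hom.app X) ⟨x, hx⟩ = x := rfl
    have h3 : ((0 : S ⟶ T).hom.app X) ⟨x, hx⟩ = 0 := rfl
    rw [Submodule.mem_bot, ← h2, h1, h3]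
  · right
    haveI := isIso_of_mono_of_nonzero h
    intro X
    rw [eq_top_iff]
    intro x _
    obtain ⟨y, hy⟩ := ((coh_isIso_iff i).1 inferInstance X).2 x
    have : y.1 = x := hy
    rw [← this]
    exact y.2

/-- the submodules of the elements whose restriction to `k₀` lies in `P` -/
noncomputable def fam (M : PMod R) (Z : Cᵒᵖ) (P : Submodule (R.toRing.obj Z) (M.obj Z)) (X : Cᵒᵖ) :
    Submodule (R.toRing.obj X) (M.obj X) where
  carrier := {x | ∀ g : X ⟶ Z, rs M g x ∈ P}
  add_mem' {x y} hx hy g := by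
    rw [rs_add]
    exact P.add_mem (hx g) (hy g)
  zero_mem' g := by
    rw [rs_zero]
    exact P.zero_mem
  smul_mem' r x hx g := by
    rw [rs_smul]
    exact P.smul_mem _ (hx g)

lemma mem_fam (M : PMod R) (Z : Cᵒᵖ) (P : Submodule (R.toRing.obj Z) (M.obj Z)) (X : Cᵒᵖ)
    (x : M.obj X) : x ∈ fam M Z P X ↔ ∀ g : X ⟶ Z, rs M g x ∈ P := Iff.rfl

lemma fam_stab (M : PMod R) (Z : Cᵒᵖ) (P : Submodule (R.toRing.obj Z) (M.obj Z)) {X Y : Cᵒᵖ}
    (f : X ⟶ Y) (x : M.obj X) (hx : x ∈ fam M Z P X) : rs M f x ∈ fam M Z P Y := by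
  intro g
  rw [← rs_comp]
  exact hx _

end Sub

lemma mk_simple {A M : Type} [Ring A] [AddCommGroup M] [Module A M] (hM : Nontrivial M)
    (h : ∀ P : Submodule A M, P = ⊥ ∨ P = ⊤) : IsSimpleModule A M :=
  { exists_pair_ne := ⟨⊥, ⊤, bot_ne_top⟩, eq_bot_or_eq_top := h }

lemma final {L : Type} [Field L] {a b : Lˣ} (T : Coh (Cnc a b L)) (k : Cov Bool)
    (hfin : Module.Finite L (sec T.obj k))
    (hs : IsSimpleModule ((Cnc a b L).ring k) (sec T.obj k))
    (hchi : chiC T.obj = Module.finrank L (sec T.obj k)) :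
    ∃ (k : Cov Bool) (m : Ideal ((Cnc a b L).ring k)), m.IsMaximal ∧
      Module.Finite L ((Cnc a b L).ring k ⧸ m) ∧
      chiC T.obj = Module.finrank L ((Cnc a b L).ring k ⧸ m) := by
  obtain ⟨m, hm, ⟨e⟩⟩ := isSimpleModule_iff_quot_maximal.1 hs
  let e' := e.restrictScalars L
  refine ⟨k, m, hm, Module.Finite.equiv e', ?_⟩
  rw [hchi, e'.finrank_eq]

section B

variable {K : Type} [CommRing K] {R : PAlg K (Cov Bool)}

lemma hom_eq {X Y : (Cov Bool)ᵒᵖ} (f g : X ⟶ Y) : f = g :=
  Quiver.Hom.unop_inj (Subsingleton.elim _ _)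

lemma no_hom_ab (f : op ca ⟶ op cb) : False := by
  have h : cb ≤ ca := leOfHom f.unop
  have h1 : false ∈ cb.s := h (Finset.mem_singleton_self false)
  have h2 := Finset.mem_singleton.1 h1
  cases h2

lemma no_hom_ba (f : op cb ⟶ op ca) : False := by
  have h : ca ≤ cb := leOfHom f.unop
  have h1 : true ∈ ca.s := h (Finset.mem_singleton_self true)
  have h2 := Finset.mem_singleton.1 h1
  cases h2

lemma no_hom_ca (f : op cab ⟶ op ca) : False := by
  have h : ca ≤ cab := leOfHom f.unop
  have h1 : true ∈ ca.s := h (Finset.mem_univ true)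
  have h2 := Finset.mem_singleton.1 h1
  cases h2

lemma no_hom_cb (f : op cab ⟶ op cb) : False := by
  have h : cb ≤ cab := leOfHom f.unop
  have h1 : false ∈ cb.s := h (Finset.mem_univ false)
  have h2 := Finset.mem_singleton.1 h1
  cases h2

lemma hs_of (M : PMod R) (P : ∀ X, Submodule (R.toRing.obj X) (M.obj X))
    (hA : ∀ z ∈ P (op cab), ∃ (r : R.toRing.obj (op cab)) (x : M.obj (op ca)),
      x ∈ P (op ca) ∧ r • rs M (homOfLE cab_le_ca).op x = z)
    (hB : ∀ z ∈ P (op cab), ∃ (r : R.toRing.obj (op cab)) (x : M.obj (op cb)),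
      x ∈ P (op cb) ∧ r • rs M (homOfLE cab_le_cb).op x = z)
    {X Y : (Cov Bool)ᵒᵖ} (f : X ⟶ Y) (z : M.obj Y) (hz : z ∈ P Y) :
    ∃ (r : R.toRing.obj Y) (x : M.obj X), x ∈ P X ∧ r • rs M f x = z := by
  have hid : ∀ (X : (Cov Bool)ᵒᵖ) (f : X ⟶ X) (z : M.obj X), z ∈ P X →
      ∃ (r : R.toRing.obj X) (x : M.obj X), x ∈ P X ∧ r • rs M f x = z := by
    intro X f z hz
    refine ⟨1, z, hz, ?_⟩
    rw [hom_eq f (𝟙 X), rs_id, one_smul]
  obtain ⟨X⟩ := X
  obtain ⟨Y⟩ := Y
  rcases cov_cases X with rfl | rfl | rfl <;> rcases cov_cases Y with rfl | rfl | rfl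
  · exact hid _ f z hz
  · exact (no_hom_ab f).elim
  · rw [hom_eq f (homOfLE cab_le_ca).op]
    exact hA z hz
  · exact (no_hom_ba f).elim
  · exact hid _ f z hz
  · rw [hom_eq f (homOfLE cab_le_cb).op]
    exact hB z hz
  · exact (no_hom_ca f).elim
  · exact (no_hom_cb f).elim
  · exact hid _ f z hz

lemma fam_self (M : PMod R) (Z : (Cov Bool)ᵒᵖ) (P : Submodule (R.toRing.obj Z) (M.obj Z)) :
    fam M Z P Z = P := by
  ext x
  rw [mem_fam]
  constructor
  · intro h
    have := h (𝟙 Z)
    rwa [rs_id] at this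
  · intro h g
    rw [hom_eq g (𝟙 Z), rs_id]
    exact h

/-- submodules of `M(Z)` give subobjects if `M(U_ab) = 0` -/
lemma key0 [R.Good] (T : Coh R) [Simple T] (h0 : Subsingleton (sec T.obj cab))
    (Z : (Cov Bool)ᵒᵖ) (P : Submodule (R.toRing.obj Z) (T.obj.obj Z)) :
    (∀ X, fam T.obj Z P X = ⊥) ∨ (∀ X, fam T.obj Z P X = ⊤) := by
  refine simple_sub T _ (fun f x hx => fam_stab T.obj Z P f x hx) ?_
  intro X Y f z hz
  refine hs_of T.obj _ ?_ ?_ f z hz
  · intro z _
    exact ⟨0, 0, Submodule.zero_mem _, @Subsingleton.elim _ h0 _ _⟩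
  · intro z _
    exact ⟨0, 0, Submodule.zero_mem _, @Subsingleton.elim _ h0 _ _⟩

end B

section Main

variable {L : Type} [Field L] (a b : Lˣ)

lemma Tn_mul (n : ℕ) : Tn (K := L) a b (-n) * Tn (K := L) a b n = 1 := by
  have h := Tel_mul a b L (k := cab)
    (exR_all ⟨Finset.mem_univ _, Finset.mem_univ _⟩ (-(n : ℤ)))
    (exR_all ⟨Finset.mem_univ _, Finset.mem_univ _⟩ (n : ℤ))
    (exR_all ⟨Finset.mem_univ _, Finset.mem_univ _⟩ 0) (by ring)
  exact h.trans (Tel_zero a b L _)

lemma Tn_mul' (n : ℕ) : Tn (K := L) a b n * Tn (K := L) a b (-n) = 1 := by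
  rw [mul_comm]
  exact Tn_mul a b n

lemma key1 (hLMA : Stmt_LMA) (hLMB : Stmt_LMB) [(Cnc a b L).Good] (T : Coh (Cnc a b L)) [Simple T]
    (P : Submodule ((Cnc a b L).toRing.obj (op cab)) (T.obj.obj (op cab))) :
    (∀ X, fam T.obj (op cab) P X = ⊥) ∨ (∀ X, fam T.obj (op cab) P X = ⊤) := by
  refine simple_sub T _ (fun f x hx => fam_stab T.obj (op cab) P f x hx) ?_
  intro X Y f z hz
  refine hs_of T.obj _ ?_ ?_ f z hz
  · intro z hz
    rw [fam_self] at hz
    obtain ⟨n, x, hx⟩ := (hLMA L L a b T).1 z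
    refine ⟨Tn (K := L) a b (-n), x, ?_, ?_⟩
    · intro g
      rw [hom_eq g (homOfLE cab_le_ca).op]
      have : rs T.obj (homOfLE cab_le_ca).op x = Tn (K := L) a b n • z := hx
      rw [this]
      exact P.smul_mem _ hz
    · have : rs T.obj (homOfLE cab_le_ca).op x = Tn (K := L) a b n • z := hx
      rw [this]
      change Tn (K := L) a b (-n) • Tn (K := L) a b n • z = z
      rw [← mul_smul, Tn_mul, one_smul]
  · intro z hz
    rw [fam_self] at hz
    obtain ⟨n, x, hx⟩ := (hLMB L L a b T).1 z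
    refine ⟨Tn (K := L) a b n, x, ?_, ?_⟩
    · intro g
      rw [hom_eq g (homOfLE cab_le_cb).op]
      have : rs T.obj (homOfLE cab_le_cb).op x = Tn (K := L) a b (-n) • z := hx
      rw [this]
      exact P.smul_mem _ hz
    · have : rs T.obj (homOfLE cab_le_cb).op x = Tn (K := L) a b (-n) • z := hx
      rw [this]
      change Tn (K := L) a b n • Tn (K := L) a b (-n) • z = z
      rw [← mul_smul, Tn_mul', one_smul]

end Main

end SIM_

theorem sim_proof (hTFD : Stmt_TFD) (hTSJ : Stmt_TSJ) (hCTT : Stmt_CTT) (hLMA : Stmt_LMA)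
    (hLMB : Stmt_LMB) : Stmt_SIM := by
  intro L _ a b h2 _ T hT hrk
  have fin := hTFD L a b h2 T hrk
  obtain ⟨sA, sB⟩ := hTSJ L a b h2 T hrk
  obtain ⟨hchi, -, -⟩ := hCTT L a b h2 T hrk
  by_cases hab : Subsingleton (sec T.obj cab)
  · by_cases hTa : Subsingleton (sec T.obj ca)
    · have hTb : Nontrivial (sec T.obj cb) := by
        by_contra hc
        rw [not_nontrivial_iff_subsingleton] at hc
        apply Simple.not_isZero T
        rw [coh_isZero_iff]
        intro U
        rcases cov_cases U with rfl | rfl | rfl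
        · exact hTa
        · exact hc
        · exact hab
      refine SIM_.final T cb (fin cb) (SIM_.mk_simple hTb (fun P => ?_)) ?_
      · have hk := SIM_.key0 T hab (op cb) P
        rcases hk with hk | hk
        · left
          have := hk (op cb)
          rwa [SIM_.fam_self] at this
        · right
          have := hk (op cb)
          rwa [SIM_.fam_self] at this
      · rw [hchi, Module.finrank_zero_of_subsingleton (M := sec T.obj ca),
          Module.finrank_zero_of_subsingleton (M := sec T.obj cab)]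
        simp
    · have hTa' : Nontrivial (sec T.obj ca) := not_subsingleton_iff_nontrivial.1 hTa
      have hTb : Subsingleton (sec T.obj cb) := by
        rcases SIM_.key0 T hab (op ca) ⊥ with hk | hk
        · have h1 := hk (op cb)
          refine ⟨fun x y => ?_⟩
          have h3 : ∀ x : T.obj.obj (op cb), x = 0 := by
            intro x
            have : x ∈ SIM_.fam T.obj (op ca) ⊥ (op cb) := fun g => (SIM_.no_hom_ba g).elim
            rw [h1] at this
            exact this
          exact (h3 x).trans (h3 y).symm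
        · exfalso
          have h1 := hk (op ca)
          rw [SIM_.fam_self] at h1
          apply hTa
          refine ⟨fun x y => ?_⟩
          have h3 : ∀ x : T.obj.obj (op ca), x = 0 := by
            intro x
            have : x ∈ (⊤ : Submodule ((Cnc a b L).toRing.obj (op ca)) (T.obj.obj (op ca))) :=
              Submodule.mem_top
            rw [← h1] at this
            exact this
          exact (h3 x).trans (h3 y).symm
      refine SIM_.final T ca (fin ca) (SIM_.mk_simple hTa' (fun P => ?_)) ?_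
      · have hk := SIM_.key0 T hab (op ca) P
        rcases hk with hk | hk
        · left
          have := hk (op ca)
          rwa [SIM_.fam_self] at this
        · right
          have := hk (op ca)
          rwa [SIM_.fam_self] at this
      · rw [hchi, Module.finrank_zero_of_subsingleton (M := sec T.obj cb),
          Module.finrank_zero_of_subsingleton (M := sec T.obj cab)]
        simp
  · have hab' : Nontrivial (sec T.obj cab) := not_subsingleton_iff_nontrivial.1 hab
    have hbot : ∀ X, SIM_.fam T.obj (op cab) ⊥ X = ⊥ := by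
      rcases SIM_.key1 a b hLMA hLMB T ⊥ with hk | hk
      · exact hk
      · exfalso
        have h1 := hk (op cab)
        rw [SIM_.fam_self] at h1
        apply hab
        refine ⟨fun x y => ?_⟩
        have h3 : ∀ x : T.obj.obj (op cab), x = 0 := by
          intro x
          have : x ∈ (⊤ : Submodule ((Cnc a b L).toRing.obj (op cab)) (T.obj.obj (op cab))) :=
            Submodule.mem_top
          rw [← h1] at this
          exact this
        exact (h3 x).trans (h3 y).symm
    have iA : Function.Injective (rA T.obj) := by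
      rw [injective_iff_map_eq_zero]
      intro x hx
      have h1 : x ∈ SIM_.fam T.obj (op cab) ⊥ (op ca) := by
        intro g
        rw [SIM_.hom_eq g (homOfLE cab_le_ca).op]
        exact hx
      rw [hbot (op ca)] at h1
      exact h1
    have iB : Function.Injective (rB T.obj) := by
      rw [injective_iff_map_eq_zero]
      intro x hx
      have h1 : x ∈ SIM_.fam T.obj (op cab) ⊥ (op cb) := by
        intro g
        rw [SIM_.hom_eq g (homOfLE cab_le_cb).op]
        exact hx
      rw [hbot (op cb)] at h1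
      exact h1
    refine SIM_.final T cab (fin cab) (SIM_.mk_simple hab' (fun P => ?_)) ?_
    · have hk := SIM_.key1 a b hLMA hLMB T P
      rcases hk with hk | hk
      · left
        have := hk (op cab)
        rwa [SIM_.fam_self] at this
      · right
        have := hk (op cab)
        rwa [SIM_.fam_self] at this
    · rw [hchi, (LinearEquiv.ofBijective (rA T.obj) ⟨iA, sA⟩).finrank_eq,
        (LinearEquiv.ofBijective (rB T.obj) ⟨iB, sB⟩).finrank_eq]
      ring

end Pool.CRD.Cn
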