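import Pool.Agent.CRD.Cnc.Stmts

/-!
# CRD / Cnc / TFD: modules of rank zero have finite dimensional sections
-/

open CategoryTheory Opposite Limits

namespace Pool.CRD.Cn

namespace TFD_

theorem gen {L A N : Type} [Field L] [CommRing A] [Algebra L A] [AddCommGroup N] [Module A N]
    [Module L N] [IsScalarTower L A N] [Module.Finite A N]
    (hA : ∀ x : A, x ≠ 0 → Module.Finite L (A ⧸ Ideal.span {x}))
    (hN : ∀ z : N, ∃ r : A, r ≠ 0 ∧ r • z = 0) : Module.Finite L N := by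
  classical
  choose r hr hz using hN
  obtain ⟨s, hs⟩ := Module.Finite.fg_top (R := A) (M := N)
  have hf : ∀ z : N, Module.Finite L (A ⧸ Ideal.span {r z}) := fun z => hA _ (hr z)
  let q : ∀ z : N, (A ⧸ Ideal.span {r z}) →ₗ[A] N := fun z =>
    Submodule.liftQ (Ideal.span {r z}) (LinearMap.toSpanSingleton A N z) (by
      rw [Ideal.span, Submodule.span_le, Set.singleton_subset_iff]
      show LinearMap.toSpanSingleton A N z (r z) = 0
      rw [LinearMap.toSpanSingleton_apply, hz])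
  have hq : ∀ (z : N) (a : A), q z (Submodule.Quotient.mk a) = a • z := fun z a => rfl
  let φ : (∀ z : s, A ⧸ Ideal.span {r z.1}) →ₗ[L] N :=
    ∑ z : s, ((q z.1).restrictScalars L).comp (LinearMap.proj z)
  refine Module.Finite.of_surjective φ ?_
  intro y
  have hy : y ∈ Submodule.span A (s : Set N) := by
    rw [hs]
    trivial
  obtain ⟨c, -, hc⟩ := Submodule.mem_span_finset.1 hy
  refine ⟨fun z => Submodule.Quotient.mk (c z.1), ?_⟩
  show (∑ z : s, ((q z.1).restrictScalars L).comp (LinearMap.proj z))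
    (fun z : s => (Submodule.Quotient.mk (c z.1) : A ⧸ Ideal.span {r z.1})) = y
  rw [LinearMap.sum_apply, ← hc, ← Finset.sum_coe_sort s (fun z => c z • z)]
  refine Finset.sum_congr rfl fun z _ => ?_
  exact hq z.1 (c z.1)

/-- torsion on a chart from torsion on the localisation -/
theorem tors {A A' N N' : Type} [CommRing A] [IsDomain A] [CommRing A'] [IsDomain A']
    [AddCommGroup N] [Module A N] [AddCommGroup N'] [Module A' N'] (f : A →+* A') (g : N → N')
    (hg : ∀ (r : A) (x : N), g (r • x) = f r • g x) (t : A) (u : ℕ → A') (ht : f t ≠ 0)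
    (hu : ∀ n, u n ≠ 0)
    (h1 : ∀ z : A', ∃ (n : ℕ) (x : A), f x = u n * z)
    (h2 : ∀ x : N, g x = 0 → ∃ n : ℕ, t ^ n • x = 0)
    (h3 : ∀ z : N', ∃ r : A', r ≠ 0 ∧ r • z = 0) (x : N) : ∃ r : A, r ≠ 0 ∧ r • x = 0 := by
  obtain ⟨r, hr, hrz⟩ := h3 (g x)
  obtain ⟨n, y, hy⟩ := h1 r
  have h4 : g (y • x) = 0 := by
    rw [hg, hy, mul_smul, hrz, smul_zero]
  obtain ⟨m, hm⟩ := h2 _ h4
  have ht0 : t ≠ 0 := by
    rintro rfl
    exact ht (map_zero f)
  have hy0 : y ≠ 0 := by
    rintro rfl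
    rw [map_zero] at hy
    exact mul_ne_zero (hu n) hr hy.symm
  refine ⟨t ^ m * y, mul_ne_zero (pow_ne_zero m ht0) hy0, ?_⟩
  rw [mul_smul, hm]

section

variable {L : Type} [Field L] (a b : Lˣ)

lemma Tn_ne (n : ℤ) [Nontrivial ((Cnc a b L).ring cab)] : Tn (K := L) a b n ≠ 0 := by
  intro h
  have h1 : Tn (K := L) a b n * Tn (K := L) a b (-n) = 1 := by
    have h2 := Tel_mul a b L (k := cab) (n := n) (m := -n) (l := 0)
      (exR_all ⟨Finset.mem_univ _, Finset.mem_univ _⟩ n)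
      (exR_all ⟨Finset.mem_univ _, Finset.mem_univ _⟩ (-n))
      (exR_all ⟨Finset.mem_univ _, Finset.mem_univ _⟩ 0) (by ring)
    exact h2.trans (Tel_zero a b L _)
  rw [h, zero_mul] at h1
  exact zero_ne_one h1

end

end TFD_

open TFD_

theorem tfd_proof (hCDM : Stmt_CDM) (hCFD : Stmt_CFD) (hLMA : Stmt_LMA) (hLMB : Stmt_LMB) :
    Stmt_TFD := by
  intro L _ a b h2 M hM k
  have hfin : ∀ k, Module.Finite ((Cnc a b L).ring k) (sec M.obj k) := fun k => M.property.1 (op k)
  have hdom : ∀ k, IsDomain ((Cnc a b L).ring k) := hCDM L a b h2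
  have h0 : ∀ z : sec M.obj cab, ∃ r : (Cnc a b L).ring cab, r ≠ 0 ∧ r • z = 0 := by
    have h3 : Module.finrank ((Cnc a b L).ring cab) (sec M.obj cab) = 0 := by
      have h4 := hM
      unfold rkC at h4
      exact_mod_cast h4
    have h5 := Module.finrank_eq_rank ((Cnc a b L).ring cab) (sec M.obj cab)
    rw [h3, Nat.cast_zero] at h5
    exact rank_eq_zero_iff.1 h5.symm
  have key : ∀ k, (∀ z : sec M.obj k, ∃ r : (Cnc a b L).ring k, r ≠ 0 ∧ r • z = 0) →
      Module.Finite L (sec M.obj k) := fun k hk => gen (hCFD L a b h2 k) hk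
  obtain rfl | rfl | rfl := cov_cases k
  · refine key _ fun x => ?_
    refine tors ((Cnc a b L).map (homOfLE cab_le_ca).op).hom.toRingHom (rA M.obj)
      (fun r x => rs_smul M.obj _ r x) (TA (K := L) a b) (fun n => Tn (K := L) a b n)
      (Tn_ne a b 1) (fun n => Tn_ne a b n) ?_ (hLMA L L a b M).2 h0 x
    exact (hLMA L L a b ⟨OR (Cnc a b L), isCoh_OR⟩).1
  · refine key _ fun x => ?_
    refine tors ((Cnc a b L).map (homOfLE cab_le_cb).op).hom.toRingHom (rB M.obj)
      (fun r x => rs_smul M.obj _ r x) (TB (K := L) a b) (fun n => Tn (K := L) a b (-n))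
      (Tn_ne a b (-1)) (fun n => Tn_ne a b (-n)) ?_ (hLMB L L a b M).2 h0 x
    exact (hLMB L L a b ⟨OR (Cnc a b L), isCoh_OR⟩).1
  · exact key _ h0

end Pool.CRD.Cn
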