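import Pool.Agent.CRD.Cnc.Stmts

/-!
# CRD / Cnc / TSJ: modules of rank zero, the restrictions are surjective
-/

open CategoryTheory Opposite Limits

namespace Pool.CRD.Cn

namespace TSJ_

theorem surj {L V V' : Type} [Field L] [AddCommGroup V] [Module L V] [AddCommGroup V']
    [Module L V'] [Module.Finite L V] (g : V →ₗ[L] V') (τ : V → V) (τ' : V' →ₗ[L] V')
    (hτ' : Function.Injective τ') (h : ∀ x, g (τ x) = τ' (g x))
    (hz : ∀ z, ∃ (n : ℕ) (x : V), g x = (τ' ^ n) z) : Function.Surjective g := by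
  have hW : ∀ z ∈ LinearMap.range g, τ' z ∈ LinearMap.range g := by
    rintro _ ⟨x, rfl⟩
    exact ⟨τ x, h x⟩
  have hinj : Function.Injective (τ'.restrict hW) := by
    intro x y hxy
    apply Subtype.ext
    apply hτ'
    exact congrArg Subtype.val hxy
  have hsurj : Function.Surjective (τ'.restrict hW) := LinearMap.injective_iff_surjective.1 hinj
  have key : ∀ (n : ℕ) (z : V'), (τ' ^ n) z ∈ LinearMap.range g → z ∈ LinearMap.range g := by
    intro n
    induction n with
    | zero => exact fun z hz => hz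
    | succ n ih =>
      intro z hz
      rw [pow_succ, Module.End.mul_apply] at hz
      obtain ⟨w, hw⟩ := hsurj ⟨τ' z, ih _ hz⟩
      have h1 : τ' w.1 = τ' z := congrArg Subtype.val hw
      rw [← hτ' h1]
      exact w.2
  intro z
  obtain ⟨n, x, hx⟩ := hz z
  exact key n z ⟨x, hx⟩

section

variable {L : Type} [Field L] (a b : Lˣ)

lemma Tn_mul (n m : ℤ) : Tn (K := L) a b n * Tn (K := L) a b m = Tn (K := L) a b (n + m) :=
  Tel_mul a b L (k := cab) (n := n) (m := m) (l := n + m)
    (exR_all ⟨Finset.mem_univ _, Finset.mem_univ _⟩ n)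
    (exR_all ⟨Finset.mem_univ _, Finset.mem_univ _⟩ m)
    (exR_all ⟨Finset.mem_univ _, Finset.mem_univ _⟩ (n + m)) rfl

lemma Tn_zero : Tn (K := L) a b 0 = 1 :=
  Tel_zero a b L (k := cab) (exR_all ⟨Finset.mem_univ _, Finset.mem_univ _⟩ 0)

/-- multiplication by `T ^ n` -/
noncomputable def mulT (M : PMod (Cnc a b L)) (n : ℤ) : sec M cab →ₗ[L] sec M cab where
  toFun z := Tn (K := L) a b n • z
  map_add' x y := smul_add _ x y
  map_smul' c x := smul_comm (Tn (K := L) a b n) c x

lemma mulT_inj (M : PMod (Cnc a b L)) (n : ℤ) : Function.Injective (mulT a b M n) := by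
  intro x y hxy
  have h1 : Tn (K := L) a b n • x = Tn (K := L) a b n • y := hxy
  have h2 := congrArg (fun z => Tn (K := L) a b (-n) • z) h1
  simpa only [smul_smul, Tn_mul, neg_add_cancel, Tn_zero, one_smul] using h2

lemma mulT_pow (M : PMod (Cnc a b L)) (m : ℤ) (n : ℕ) (z : sec M cab) :
    (mulT a b M m ^ n) z = Tn (K := L) a b (n * m) • z := by
  induction n with
  | zero =>
    rw [pow_zero, Module.End.one_apply, Nat.cast_zero, zero_mul, Tn_zero, one_smul]
  | succ n ih =>
    rw [pow_succ', Module.End.mul_apply, ih]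
    show Tn (K := L) a b m • (Tn (K := L) a b (n * m) • z) = _
    rw [smul_smul, Tn_mul]
    congr 2
    push_cast
    ring

end

end TSJ_

open TSJ_

theorem tsj_proof (hTFD : Stmt_TFD) (hLMA : Stmt_LMA) (hLMB : Stmt_LMB) :
    Stmt_TSJ := by
  intro L _ a b h2 M hM
  have hfin := hTFD L a b h2 M hM
  constructor
  · refine surj (rA M.obj) (fun x => TA (K := L) a b • x) (mulT a b M.obj 1)
      (mulT_inj a b M.obj 1) (fun x => rs_smul M.obj _ (TA (K := L) a b) x) fun z => ?_
    obtain ⟨n, x, hx⟩ := (hLMA L L a b M).1 z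
    refine ⟨n, x, ?_⟩
    rw [mulT_pow, mul_one]
    exact hx
  · refine surj (rB M.obj) (fun x => TB (K := L) a b • x) (mulT a b M.obj (-1))
      (mulT_inj a b M.obj (-1)) (fun x => rs_smul M.obj _ (TB (K := L) a b) x) fun z => ?_
    obtain ⟨n, x, hx⟩ := (hLMB L L a b M).1 z
    refine ⟨n, x, ?_⟩
    rw [mulT_pow, mul_neg_one]
    exact hx

end Pool.CRD.Cn
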