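import Pool.Agent.CRD.Cnc.Stmts

/-!
# CRD / Cnc / TWP: the kernel of `O → T ⊞ T'` for two different points
-/

open CategoryTheory Opposite Limits

namespace Pool.CRD.Cn

namespace TWP_

/-- `χ(T) = 1` for a simple torsion module over an algebraically closed field -/
lemma chi_one (hSIM : Stmt_SIM) {K : Type} [Field K] [IsAlgClosed K] (a b : Kˣ)
    (h2 : (2 : K) ≠ 0) [(Cnc a b K).Good] (T : Coh (Cnc a b K)) (hT : Simple T)
    (hr : rkC T.obj = 0) : chiC T.obj = 1 := by
  obtain ⟨k, m, hm, hfin, hchi⟩ := hSIM K a b h2 T hT hr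
  rw [hchi]
  let _ : Field ((Cnc a b K).ring k ⧸ m) := Ideal.Quotient.field m
  have h1 : Function.Bijective (algebraMap K ((Cnc a b K).ring k ⧸ m)) :=
    IsAlgClosed.algebraMap_bijective_of_isIntegral
  have h3 : Module.finrank K ((Cnc a b K).ring k ⧸ m) = 1 := by
    have e := LinearEquiv.ofBijective (Algebra.linearMap K ((Cnc a b K).ring k ⧸ m)) h1
    rw [← e.finrank_eq, Module.finrank_self]
  rw [h3]
  norm_num

/-- a module with positive Euler characteristic has a nonzero section -/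
lemma exists_sec {K : Type} [Field K] (a b : Kˣ) (M : PMod (Cnc a b K)) (h : 0 < chiC M) :
    ∃ (x : sec M ca) (y : sec M cb), rA M x = rB M y ∧ (x ≠ 0 ∨ y ≠ 0) := by
  have h1 : 0 < Module.finrank K (H0 M) := by
    unfold chiC at h
    omega
  have h2 : Nontrivial (H0 M) := Module.nontrivial_of_finrank_pos h1
  obtain ⟨⟨⟨x, y⟩, hz⟩, hne⟩ := exists_ne (0 : H0 M)
  refine ⟨x, y, ?_, ?_⟩
  · have := LinearMap.mem_ker.1 hz
    rw [dC_apply] at this
    exact sub_eq_zero.1 this
  · by_contra hcon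
    push Not at hcon
    apply hne
    apply Subtype.ext
    exact Prod.ext hcon.1 hcon.2

/-- a nonzero morphism from `O` to a module with positive Euler characteristic -/
lemma exists_hom (hHOJ : Stmt_HOJ) {K : Type} [Field K] (a b : Kˣ)
    (M : Coh (Cnc a b K)) (h : 0 < chiC M.obj) : ∃ φ : Oc a b 0 ⟶ M, φ ≠ 0 := by
  obtain ⟨x, y, hxy, hne⟩ := exists_sec a b M.obj h
  have hT : (Tn (K := K) a b 0) = 1 :=
    Tel_zero a b K (exR_all ⟨Finset.mem_univ _, Finset.mem_univ _⟩ 0)
  obtain ⟨φ, h1, h2⟩ := hHOJ K K a b 0 M.obj x y (by rw [hT, one_smul]; exact hxy)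
  refine ⟨ObjectProperty.homMk φ, ?_⟩
  intro h0
  have h3 : φ = 0 := congrArg (fun t => t.hom) h0
  subst h3
  rcases hne with h' | h'
  · exact h' h1.symm
  · exact h' h2.symm

lemma epi_lift {A : Type*} [Category A] [Abelian A] {O T T' : A} [Simple T] [Simple T']
    (φ : O ⟶ T) (φ' : O ⟶ T') [Epi φ] (hφ' : φ' ≠ 0) (h : IsEmpty (T ≅ T')) :
    Epi (biprod.lift φ φ') := by
  have hne : kernel.ι φ ≫ φ' ≠ 0 := by
    intro h0
    have hg : φ ≫ Abelian.epiDesc φ φ' h0 = φ' := Abelian.comp_epiDesc φ φ' h0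
    have hg0 : Abelian.epiDesc φ φ' h0 ≠ 0 := by
      intro h1
      rw [h1, comp_zero] at hg
      exact hφ' hg.symm
    have := isIso_of_hom_simple hg0
    exact h.elim (asIso (Abelian.epiDesc φ φ' h0))
  have h1 : Epi (kernel.ι φ ≫ φ') := epi_of_nonzero_to_simple hne
  refine Preadditive.epi_of_cancel_zero _ ?_
  intro Z g hg
  have h2 : φ ≫ (biprod.inl ≫ g) + φ' ≫ (biprod.inr ≫ g) = 0 := by
    have h3 : g = biprod.desc (biprod.inl ≫ g) (biprod.inr ≫ g) := by ext <;> simp
    rw [h3, biprod.lift_desc] at hg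
    exact hg
  have h3 : (kernel.ι φ ≫ φ') ≫ (biprod.inr ≫ g) = 0 := by
    have h4 := congrArg (fun t => kernel.ι φ ≫ t) h2
    simp only [Preadditive.comp_add, comp_zero] at h4
    rw [← Category.assoc (kernel.ι φ) φ, kernel.condition, zero_comp, zero_add] at h4
    rw [Category.assoc]
    exact h4
  have h4 : biprod.inr ≫ g = 0 := zero_of_epi_comp _ h3
  have h5 : biprod.inl ≫ g = 0 := by
    rw [h4, comp_zero, add_zero] at h2
    exact zero_of_epi_comp _ h2
  ext
  · rw [h5, comp_zero]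
  · rw [h4, comp_zero]

end TWP_

theorem twp_proof (hCDM : Stmt_CDM) (hHOJ : Stmt_HOJ) (hSIM : Stmt_SIM) (hCHA : Stmt_CHA)
    (hRKA : Stmt_RKA) (hOJN : Stmt_OJN) (_hHFD : Stmt_HFD) (hRIG : Stmt_RIG) : Stmt_TWP := by
  intro K _ _ a b h2 _ f hf T T' hT hT' hr hr' hTT
  have hchi : IsAdd (fun M : Coh (Cnc a b K) => chiC M.obj) := fun S hS => hCHA K a b S hS
  have hrk : IsAdd (fun M : Coh (Cnc a b K) => rkC M.obj) := fun S hS => hRKA K a b h2 S hS
  have hc := TWP_.chi_one hSIM a b h2 T hT hr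
  have hc' := TWP_.chi_one hSIM a b h2 T' hT' hr'
  obtain ⟨φ, hφ⟩ := TWP_.exists_hom hHOJ a b T (by rw [hc]; norm_num)
  obtain ⟨φ', hφ'⟩ := TWP_.exists_hom hHOJ a b T' (by rw [hc']; norm_num)
  have hE : Epi φ := epi_of_nonzero_to_simple hφ
  have hp : Epi (biprod.lift φ φ') := TWP_.epi_lift φ φ' hφ' hTT
  have hO := hOJN K a b 0
  have hrJ : rkC (kernel (biprod.lift φ φ')).obj = 1 := by
    have h1 := hrk.epi_eq (biprod.lift φ φ')
    have h3 := hrk.biprod T T'
    simp only at h1 h3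
    rw [h3, hr, hr'] at h1
    have h4 : rkC (Oc a b 0).obj = 1 := hO.2
    rw [h4] at h1
    linarith
  have hcJ : chiC (kernel (biprod.lift φ φ')).obj = -1 := by
    have h1 := hchi.epi_eq (biprod.lift φ φ')
    have h3 := hchi.biprod T T'
    simp only at h1 h3
    rw [h3, hc, hc'] at h1
    have h4 : chiC (Oc a b 0).obj = 2 * 0 + 1 := hO.1
    rw [h4] at h1
    linarith
  have htf : ∀ (k : Cov Bool) (r : (Cnc a b K).ring k)
      (x : sec (kernel (biprod.lift φ φ')).obj k), r • x = 0 → r = 0 ∨ x = 0 := by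
    intro k r x hx
    have hdom := hCDM K a b h2 k
    have hinj := (coh_mono_iff (kernel.ι (biprod.lift φ φ'))).1 inferInstance (op k)
    have h1 : ((kernel.ι (biprod.lift φ φ')).hom.app (op k)).hom (r • x) =
        (r : (Cnc a b K).ring k) •
          (((kernel.ι (biprod.lift φ φ')).hom.app (op k)).hom x : sec (OO a b K 0) k) :=
      map_smul ((kernel.ι (biprod.lift φ φ')).hom.app (op k)).hom r x
    rw [hx, map_zero] at h1
    have h3 : r * (show (Cnc a b K).ring k from
        (((kernel.ι (biprod.lift φ φ')).hom.app (op k)).hom x : sec (OO a b K 0) k)) = 0 :=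
      h1.symm
    rcases mul_eq_zero.1 h3 with h4 | h4
    · exact Or.inl h4
    · right
      apply hinj
      rw [map_zero]
      exact h4
  obtain ⟨e⟩ := hRIG K a b h2 (kernel (biprod.lift φ φ')) (-1) htf hrJ (by
    unfold degC
    rw [hcJ, hrJ]
    norm_num)
  have h1 := hf.epi_eq (biprod.lift φ φ')
  rw [hf.biprod, hf.of_iso e] at h1
  rw [h1]
  ring

end Pool.CRD.Cn
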