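import Pool.Agent.CRD.Cnc.CLA
import Pool.Agent.CRD.Cnc.CLB
import Pool.Agent.CRD.Cnc.CND
import Pool.Agent.CRD.Cnc.CPC
import Pool.Agent.CRD.Cnc.CSM
import Pool.Agent.CRD.Cnc.HOJ
import Pool.Agent.CRD.Cnc.LMA
import Pool.Agent.CRD.Cnc.LMB
import Pool.Agent.CRD.Cnc.CDM
import Pool.Agent.CRD.Cnc.CDD
import Pool.Agent.CRD.Cnc.CFD
import Pool.Agent.CRD.Cnc.RKA
import Pool.Agent.CRD.Cnc.TFD
import Pool.Agent.CRD.Cnc.TSJ
import Pool.Agent.CRD.Cnc.HFD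
import Pool.Agent.CRD.Cnc.CHA
import Pool.Agent.CRD.Cnc.OJN
import Pool.Agent.CRD.Cnc.CTT
import Pool.Agent.CRD.Cnc.SEC
import Pool.Agent.CRD.Cnc.DEV
import Pool.Agent.CRD.Cnc.RR1
import Pool.Agent.CRD.Cnc.RIG
import Pool.Agent.CRD.Cnc.SIM
import Pool.Agent.CRD.Cnc.EVN
import Pool.Agent.CRD.Cnc.DEE
import Pool.Agent.CRD.Cnc.PTS
import Pool.Agent.CRD.Cnc.TWP
import Pool.Agent.CRD.Cnc.ADF
import Pool.Agent.CRD.Cnc.REL

/-!
# CRD / Cnc: all statements about the conic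
-/

namespace Pool.CRD.Cn

theorem aCLA : Stmt_CLA := cla_proof
theorem aCLB : Stmt_CLB := clb_proof
theorem aCND : Stmt_CND := cnd_proof aCLA aCLB
theorem aCPC : Stmt_CPC := cpc_proof aCLA aCLB
theorem aCSM : Stmt_CSM := csm_proof aCLA
theorem aHOJ : Stmt_HOJ := hoj_proof
theorem aLMA : Stmt_LMA := lma_proof aCLA
theorem aLMB : Stmt_LMB := lmb_proof aCLB
theorem aCDM : Stmt_CDM := cdm_proof
theorem aCDD : Stmt_CDD := cdd_proof aCDM aCLA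
theorem aCFD : Stmt_CFD := cfd_proof aCDM
theorem aRKA : Stmt_RKA := rka_proof aCDM
theorem aTFD : Stmt_TFD := tfd_proof aCDM aCFD aLMA aLMB
theorem aTSJ : Stmt_TSJ := tsj_proof aTFD aLMA aLMB
theorem aHFD : Stmt_HFD := hfd_proof aLMA aLMB
theorem aCHA : Stmt_CHA := cha_proof aHFD
theorem aOJN : Stmt_OJN := ojn_proof
theorem aCTT : Stmt_CTT := ctt_proof aTFD aTSJ
theorem aSEC : Stmt_SEC := sec_proof aCDM aLMA aLMB aHOJ
theorem aDEV : Stmt_DEV := dev_proof aCDM aRKA aTFD aSEC aHOJ aOJN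
theorem aRR1 : Stmt_RR1 := rr1_proof aDEV aCHA aCTT aTFD aOJN aRKA
theorem aRIG : Stmt_RIG := rig_proof aCDM aHFD aCHA aRKA aOJN aCTT aRR1 aHOJ aLMA aLMB
theorem aSIM : Stmt_SIM := sim_proof aTFD aTSJ aCTT aLMA aLMB
theorem aEVN : Stmt_EVN := evn_proof
theorem aDEE : Stmt_DEE := dee_proof aDEV aSIM aEVN aCHA aRKA aOJN
theorem aPTS : Stmt_PTS := pts_proof aCDM aTFD aTSJ aHOJ aOJN aCHA aRKA aLMA aLMB aCLA aCLB
theorem aTWP : Stmt_TWP := twp_proof aCDM aHOJ aSIM aCHA aRKA aOJN aHFD aRIG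
theorem aADF : Stmt_ADF := adf_proof aDEV aPTS aTWP aSIM aCHA aRKA aOJN
theorem aREL : Stmt_REL := rel_proof aCDM aRKA aTFD aTSJ aSIM aRIG aLMA aLMB

end Pool.CRD.Cn
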