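import Pool.Agent.CRD.Cnc.Stmts

open CategoryTheory Opposite Limits

namespace Pool.CRD.Cn

namespace CLA_

theorem away_of {R S : Type} [CommRing R] [CommRing S] (f : R →+* S) (t : R)
    (ht : IsUnit (f t)) (hs : ∀ z : S, ∃ (n : ℕ) (x : R), z * f t ^ n = f x)
    (hi : Function.Injective f) :
    letI := f.toAlgebra
    IsLocalization.Away t S := by
  letI := f.toAlgebra
  refine ⟨?_, ?_, ?_⟩
  · rintro ⟨y, n, rfl⟩
    change IsUnit (f (t ^ n))
    rw [map_pow]
    exact ht.pow n
  · intro z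
    obtain ⟨n, x, hx⟩ := hs z
    refine ⟨(x, ⟨t ^ n, n, rfl⟩), ?_⟩
    change z * f (t ^ n) = f x
    rw [map_pow]
    exact hx
  · intro x y hxy
    refine ⟨1, ?_⟩
    rw [hi hxy]

/-- exponents of a Laurent polynomial are bounded below -/
theorem bdd_below {B : Type} [CommRing B] (f : LaurentPolynomial B) :
    ∃ n : ℕ, ∀ k : ℕ, n ≤ k → f ∈ LpIn {m : ℤ | -(k : ℤ) ≤ m} := by
  classical
  obtain ⟨c, hc⟩ := ((f.coeff.support : Finset ℤ) : Set ℤ).toFinite.bddBelow
  refine ⟨c.natAbs, fun k hk m hm => ?_⟩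
  by_contra h
  have h1 := hc (Finsupp.mem_support_iff.2 h)
  have h2 : m < -(k : ℤ) := lt_of_not_ge hm
  omega

theorem mem_ca {B : Type} [CommRing B] (f : LaurentPolynomial B) (k : ℕ)
    (h : f ∈ LpIn {m : ℤ | -(k : ℤ) ≤ m}) :
    f * LaurentPolynomial.T k ∈ LpIn {m : ℤ | 0 ≤ m} := by
  refine LpIn.mul (s := {m : ℤ | -(k : ℤ) ≤ m}) (t := {(k : ℤ)}) (fun x hx y hy => ?_) h
    (single_mem_LpIn (by simp) _)
  rw [Set.mem_singleton_iff] at hy
  subst hy
  have : -(k : ℤ) ≤ x := hx
  change 0 ≤ x + k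
  omega

theorem exR_ca {m : ℤ} (h : 0 ≤ m) : m ∈ exR ca :=
  ⟨fun _ => h, fun h' => absurd (Finset.mem_singleton_self false) h'⟩

theorem exI_ca {m : ℤ} (h : 0 ≤ m) : m ∈ exI ca :=
  ⟨fun _ => h, fun h' => absurd (Finset.mem_singleton_self false) h'⟩

/-- value of an element of the ring of `U_ab` -/
noncomputable def vC {K B : Type} [CommRing K] [CommRing B] [Algebra K B] {a b : Bˣ}
    (z : (Cnc a b K).ring cab) : ConT a b := (show conSub a b K cab from z).1

/-- value of an element of the ring of `U_a` -/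
noncomputable def vA {K B : Type} [CommRing K] [CommRing B] [Algebra K B] {a b : Bˣ}
    (z : (Cnc a b K).ring ca) : ConT a b := (show conSub a b K ca from z).1

theorem vC_inj {K B : Type} [CommRing K] [CommRing B] [Algebra K B] {a b : Bˣ}
    {z w : (Cnc a b K).ring cab} (h : vC z = vC w) : z = w := Subtype.ext h

theorem vA_inj {K B : Type} [CommRing K] [CommRing B] [Algebra K B] {a b : Bˣ}
    {z w : (Cnc a b K).ring ca} (h : vA z = vA w) : z = w := Subtype.ext h

end CLA_

open CLA_ in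
theorem cla_proof : Stmt_CLA := by
  intro K B _ _ _ a b
  set f := ((Cnc a b K).map (homOfLE cab_le_ca).op).hom.toRingHom with hf
  have hv : ∀ x : (Cnc a b K).ring ca, vC (f x) = vA x := fun _ => rfl
  have hmul : ∀ z w : (Cnc a b K).ring cab, vC (z * w) = vC z * vC w := fun _ _ => rfl
  have ht : ∀ n : ℕ, vC (f (TA (K := K) a b) ^ n) =
      algebraMap (LaurentPolynomial B) (ConT a b) (LaurentPolynomial.T n) := by
    intro n
    have h1 : vC (f (TA (K := K) a b) ^ n) =
      (algebraMap (LaurentPolynomial B) (ConT a b) (LaurentPolynomial.T 1)) ^ n := by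
      induction n with
      | zero => rw [pow_zero, pow_zero]; rfl
      | succ n ih => rw [pow_succ, pow_succ, hmul, ih]; rfl
    rw [h1, ← map_pow, LaurentPolynomial.T_pow, mul_one]
  refine away_of f (TA (K := K) a b) ?_ ?_ ?_
  · exact (Tun a b K (k := cab) ⟨Finset.mem_univ _, Finset.mem_univ _⟩ 1).isUnit
  · intro z
    obtain ⟨n1, h1⟩ := bdd_below (vC z).re
    obtain ⟨n2, h2⟩ := bdd_below (vC z).im
    have h3 := mem_ca _ _ (h1 (max n1 n2) (le_max_left _ _))
    have h4 := mem_ca _ _ (h2 (max n1 n2) (le_max_right _ _))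
    have h5 : vC z * algebraMap (LaurentPolynomial B) (ConT a b)
        (LaurentPolynomial.T ((max n1 n2 : ℕ) : ℤ)) ∈ conSub a b K ca := by
      refine ⟨?_, ?_⟩
      · rw [QuadraticAlgebra.re_mul]
        refine add_mem (LpIn.mono (fun m hm => exR_ca hm) h3) ?_
        change conQ a b * _ * 0 ∈ _
        rw [mul_zero]
        exact zero_mem _
      · rw [QuadraticAlgebra.im_mul, zero_mul, zero_mul, add_zero]
        refine add_mem ?_ (LpIn.mono (fun m hm => exI_ca hm) h4)
        change _ * 0 ∈ _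
        rw [mul_zero]
        exact zero_mem _
    refine ⟨max n1 n2, (show (Cnc a b K).ring ca from (⟨_, h5⟩ : conSub a b K ca)), ?_⟩
    apply vC_inj
    rw [hv, hmul, ht]
    rfl
  · intro x y hxy
    apply vA_inj
    rw [← hv, ← hv, hxy]

end Pool.CRD.Cn
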