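import Pool.Agent.CRD.Cnc.Stmts

/-!
# CRD / Cnc, module HFD: finiteness of the cohomology
-/

open CategoryTheory Opposite Limits

namespace Pool.CRD.Cn

namespace HFD_

section Abs

variable {L V : Type} [Field L] [AddCommGroup V] [Module L V]

/-- the span of the forward orbit of `S` -/
def orb (t : Module.End L V) (S : Set V) : Submodule L V :=
  Submodule.span L {v | ∃ s ∈ S, ∃ k : ℕ, v = (t ^ k) s}

theorem orb_stable (t : Module.End L V) (S : Set V) (v : V) (hv : v ∈ orb t S) :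
    t v ∈ orb t S := by
  have h : orb t S ≤ (orb t S).comap t := by
    unfold orb
    rw [Submodule.span_le]
    rintro _ ⟨s, hs, k, rfl⟩
    apply Submodule.subset_span
    exact ⟨s, hs, k + 1, by rw [pow_succ']; rfl⟩
  exact h hv

theorem pow_stable (t : Module.End L V) (W : Submodule L V) (hW : ∀ v ∈ W, t v ∈ W) (k : ℕ) :
    ∀ v ∈ W, (t ^ k) v ∈ W := by
  induction k with
  | zero => intro v hv; exact hv
  | succ k ih =>
    intro v hv
    rw [pow_succ']
    exact hW _ (ih v hv)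

theorem aeval_stable (t : Module.End L V) (W : Submodule L V) (hW : ∀ v ∈ W, t v ∈ W)
    (f : Polynomial L) (v : V) (hv : v ∈ W) : Polynomial.aeval t f v ∈ W := by
  rw [Polynomial.aeval_eq_sum_range, LinearMap.sum_apply]
  refine Submodule.sum_mem _ fun i _ => ?_
  rw [LinearMap.smul_apply]
  exact Submodule.smul_mem _ _ (pow_stable t W hW i v hv)

/-- Hilbert's basis theorem: stable subspaces of finitely generated ones are finitely
generated -/
theorem noeth (t : Module.End L V) (S : Set V) (hS : S.Finite) (U : Submodule L V)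
    (hU : U ≤ orb t S) (ht : ∀ u ∈ U, t u ∈ U) :
    ∃ S' : Set V, S'.Finite ∧ S' ⊆ U ∧ U = orb t S' := by
  let _ : Module (Polynomial L) V :=
    Module.compHom V (Polynomial.aeval t : Polynomial L →ₐ[L] Module.End L V).toRingHom
  have hsm : ∀ (f : Polynomial L) (v : V), f • v = Polynomial.aeval t f v := fun _ _ => rfl
  let P : Submodule (Polynomial L) V := Submodule.span (Polynomial L) S
  have hP : P.FG := Submodule.fg_def.2 ⟨S, hS, rfl⟩
  have hN : IsNoetherian (Polynomial L) P := isNoetherian_of_fg_of_noetherian P hP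
  let U' : Submodule (Polynomial L) V :=
    { carrier := U
      add_mem' := fun ha hb => U.add_mem ha hb
      zero_mem' := U.zero_mem
      smul_mem' := fun f v hv => aeval_stable t U ht f v hv }
  have hle : U' ≤ P := by
    let P0 : Submodule L V :=
      { carrier := P
        add_mem' := fun ha hb => P.add_mem ha hb
        zero_mem' := P.zero_mem
        smul_mem' := by
          intro c v hv
          have h2 := P.smul_mem (Polynomial.C c) hv
          rw [hsm, Polynomial.aeval_C] at h2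
          exact h2 }
    have h1 : orb t S ≤ P0 := by
      unfold orb
      rw [Submodule.span_le]
      rintro _ ⟨s, hs, k, rfl⟩
      have h2 := P.smul_mem (Polynomial.X ^ k) (Submodule.subset_span hs)
      rw [hsm, map_pow, Polynomial.aeval_X] at h2
      exact h2
    intro u hu
    exact h1 (hU hu)
  obtain ⟨S', hS'1, hS'2⟩ := Submodule.fg_def.1 ((isNoetherian_submodule.1 hN) U' hle)
  refine ⟨S', hS'1, ?_, ?_⟩
  · intro s hs
    have h3 : s ∈ U' := by
      rw [← hS'2]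
      exact Submodule.subset_span hs
    exact h3
  · apply le_antisymm
    · intro u hu
      have h3 : u ∈ Submodule.span (Polynomial L) S' := by
        rw [hS'2]
        exact hu
      induction h3 using Submodule.span_induction with
      | mem x hx => exact Submodule.subset_span ⟨x, hx, 0, rfl⟩
      | zero => exact Submodule.zero_mem _
      | add x y hx hy h4 h5 =>
        refine Submodule.add_mem _ (h4 ?_) (h5 ?_)
        · rw [hS'2] at hx
          exact hx
        · rw [hS'2] at hy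
          exact hy
      | smul f x hx h4 =>
        rw [hsm]
        refine aeval_stable t _ (orb_stable t S') f x (h4 ?_)
        rw [hS'2] at hx
        exact hx
    · unfold orb
      rw [Submodule.span_le]
      rintro _ ⟨s, hs, k, rfl⟩
      have h3 : s ∈ U' := by
        rw [← hS'2]
        exact Submodule.subset_span hs
      exact pow_stable t U ht k s h3

variable (τ : ℤ → V →ₗ[L] V) (h0 : ∀ v, τ 0 v = v) (hadd : ∀ m n v, τ (m + n) v = τ m (τ n v))

include h0 hadd in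
theorem pow_tau (k : ℕ) (v : V) : ((τ 1 : Module.End L V) ^ k) v = τ k v := by
  induction k with
  | zero => simp [h0]
  | succ k ih =>
    rw [pow_succ']
    change τ 1 ((τ 1 ^ k) v) = _
    rw [ih, ← hadd]
    congr 2
    push_cast
    ring

include h0 hadd in
/-- two opposite lattices: `K / (Ka + Kb)` is finite dimensional -/
theorem latt (Ka Kb K : Submodule L V) (S : Set V) (hS : S.Finite) (hKa : Ka = orb (τ 1) S)
    (hle : Ka ≤ K) (hKb : ∀ v ∈ Kb, τ (-1) v ∈ Kb) (ha : ∀ v ∈ K, ∃ n : ℕ, τ n v ∈ Ka)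
    (hb : ∀ v ∈ K, ∃ n : ℕ, τ (-n) v ∈ Kb) :
    ∃ D : Submodule L V, FiniteDimensional L D ∧ K ≤ (Ka ⊔ Kb) ⊔ D := by
  have hKb' : ∀ (n : ℕ), ∀ v ∈ Kb, τ (-n) v ∈ Kb := by
    intro n
    induction n with
    | zero =>
      intro v hv
      rw [Nat.cast_zero, neg_zero, h0]
      exact hv
    | succ n ih =>
      intro v hv
      have h1 : (-((n + 1 : ℕ) : ℤ)) = -1 + -(n : ℤ) := by
        push_cast
        ring
      rw [h1, hadd]
      exact hKb _ (ih v hv)
  have hKa' : ∀ (n : ℕ), ∀ v ∈ Ka, τ n v ∈ Ka := by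
    intro n v hv
    rw [← pow_tau τ h0 hadd]
    exact pow_stable _ Ka (by rw [hKa]; exact orb_stable _ S) n v hv
  have hSK : ∀ s ∈ S, s ∈ Ka := by
    intro s hs
    rw [hKa]
    exact Submodule.subset_span ⟨s, hs, 0, rfl⟩
  have hN : ∀ᶠ N : ℕ in Filter.atTop, ∀ s ∈ S, τ (-N) s ∈ Kb := by
    rw [Filter.eventually_all_finite hS]
    intro s hs
    obtain ⟨n, hn⟩ := hb s (hle (hSK s hs))
    filter_upwards [Filter.eventually_ge_atTop n] with N hN
    have h1 : (-(N : ℤ)) = -((N - n : ℕ) : ℤ) + -(n : ℤ) := by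
      push_cast [hN]
      ring
    rw [h1, hadd]
    exact hKb' _ _ hn
  obtain ⟨N, hN⟩ := hN.exists
  let E : Set V := ⋃ m ∈ Finset.range N, (fun s => τ (-(m : ℤ)) s) '' S
  have hE : E.Finite := by
    apply Set.Finite.biUnion (Finset.finite_toSet _)
    intro m _
    exact hS.image _
  refine ⟨Submodule.span L E, FiniteDimensional.span_of_finite L hE, ?_⟩
  intro v hv
  obtain ⟨n, hn⟩ := ha v hv
  have h1 : v = τ (-n) (τ n v) := by
    rw [← hadd, neg_add_cancel, h0]
  have h2 : orb (τ 1) S ≤ ((Ka ⊔ Kb) ⊔ Submodule.span L E).comap (τ (-n)) := by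
    unfold orb
    rw [Submodule.span_le]
    rintro _ ⟨s, hs, k, rfl⟩
    rw [SetLike.mem_coe, Submodule.mem_comap, pow_tau τ h0 hadd, ← hadd]
    by_cases h3 : n ≤ k
    · have h4 : -(n : ℤ) + k = ((k - n : ℕ) : ℤ) := by
        push_cast [h3]
        ring
      rw [h4]
      exact Submodule.mem_sup_left (Submodule.mem_sup_left (hKa' _ _ (hSK s hs)))
    · push Not at h3
      have h4 : -(n : ℤ) + k = -((n - k : ℕ) : ℤ) := by
        push_cast [h3.le]
        ring
      rw [h4]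
      by_cases h5 : n - k < N
      · apply Submodule.mem_sup_right
        apply Submodule.subset_span
        simp only [E, Set.mem_iUnion]
        exact ⟨n - k, Finset.mem_coe.2 (Finset.mem_range.2 h5), s, hs, rfl⟩
      · push Not at h5
        apply Submodule.mem_sup_left
        apply Submodule.mem_sup_right
        have h6 : -((n - k : ℕ) : ℤ) = -((n - k - N : ℕ) : ℤ) + -(N : ℤ) := by
          push_cast [h5]
          ring
        rw [h6, hadd]
        exact hKb' _ _ (hN s hs)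
  rw [h1]
  rw [hKa] at hn
  exact h2 hn

end Abs

section Abs2

variable {L V Va Vb : Type} [Field L] [AddCommGroup V] [Module L V] [AddCommGroup Va]
  [Module L Va] [AddCommGroup Vb] [Module L Vb]

theorem map_orb (tA : Module.End L Va) (t : Module.End L V) (r : Va →ₗ[L] V)
    (h : ∀ x, r (tA x) = t (r x)) (S : Set Va) : (orb tA S).map r = orb t (r '' S) := by
  have h1 : ∀ (k : ℕ) (x : Va), r ((tA ^ k) x) = (t ^ k) (r x) := by
    intro k
    induction k with
    | zero => intro x; rfl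
    | succ k ih =>
      intro x
      rw [pow_succ', pow_succ']
      change r (tA ((tA ^ k) x)) = t ((t ^ k) (r x))
      rw [h, ih]
  unfold orb
  rw [Submodule.map_span]
  congr 1
  ext v
  constructor
  · rintro ⟨_, ⟨s, hs, k, rfl⟩, rfl⟩
    exact ⟨r s, ⟨s, hs, rfl⟩, k, h1 k s⟩
  · rintro ⟨_, ⟨s, hs, rfl⟩, k, rfl⟩
    exact ⟨(tA ^ k) s, ⟨s, hs, k, rfl⟩, h1 k s⟩

/-- the shift on `(ι × ℤ) →₀ L` -/
noncomputable def sh (L ι : Type) [Field L] (n : ℤ) : ((ι × ℤ) →₀ L) →ₗ[L] ((ι × ℤ) →₀ L) :=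
  Finsupp.lmapDomain L L (fun p => (p.1, p.2 + n))

theorem sh_single {ι : Type} (n : ℤ) (p : ι × ℤ) (c : L) :
    sh L ι n (Finsupp.single p c) = Finsupp.single (p.1, p.2 + n) c := by
  unfold sh
  rw [Finsupp.lmapDomain_apply, Finsupp.mapDomain_single]

theorem sh_zero {ι : Type} (v : (ι × ℤ) →₀ L) : sh L ι 0 v = v := by
  have h : sh L ι 0 = LinearMap.id := by
    apply Finsupp.lhom_ext
    intro p c
    rw [sh_single, add_zero, LinearMap.id_apply]
  rw [h, LinearMap.id_apply]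

theorem sh_add {ι : Type} (m n : ℤ) (v : (ι × ℤ) →₀ L) :
    sh L ι (m + n) v = sh L ι m (sh L ι n v) := by
  have h : sh L ι (m + n) = sh L ι m ∘ₗ sh L ι n := by
    apply Finsupp.lhom_ext
    intro p c
    rw [sh_single, LinearMap.comp_apply, sh_single, sh_single]
    congr 2
    ring
  rw [h, LinearMap.comp_apply]

/-- exponents in a set -/
noncomputable def ex (L ι : Type) [Field L] (s : Set ℤ) : Submodule L ((ι × ℤ) →₀ L) :=
  Finsupp.supported L L {p : ι × ℤ | p.2 ∈ s}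

theorem ex_le {ι : Type} {s : Set ℤ} {W : Submodule L ((ι × ℤ) →₀ L)}
    (h : ∀ (i : ι) (k : ℤ), k ∈ s → Finsupp.single (i, k) (1 : L) ∈ W) : ex L ι s ≤ W := by
  unfold ex
  rw [Finsupp.supported_eq_span_single, Submodule.span_le]
  rintro _ ⟨⟨i, k⟩, hk, rfl⟩
  exact h i k hk

theorem single_mem_ex {ι : Type} {s : Set ℤ} (i : ι) (k : ℤ) (hk : k ∈ s) (c : L) :
    Finsupp.single (i, k) c ∈ ex L ι s :=
  Finsupp.single_mem_supported L c hk

theorem ex_disj {ι : Type} {s s' : Set ℤ} (h : ∀ k, k ∈ s → k ∉ s') (v : (ι × ℤ) →₀ L)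
    (h1 : v ∈ ex L ι s) (h2 : v ∈ ex L ι s') : v = 0 := by
  unfold ex at h1 h2
  rw [Finsupp.mem_supported] at h1 h2
  ext p
  rw [Finsupp.zero_apply]
  by_contra hp
  have h3 : p ∈ v.support := Finsupp.mem_support_iff.2 hp
  exact h _ (h1 h3) (h2 h3)

/-- finiteness of `H^0`: the syzygies of `M` have finite `H^1` -/
theorem h0fin (tA : Module.End L Va) (tB : Module.End L Vb) (τ : ℤ → V →ₗ[L] V)
    (h0 : ∀ v, τ 0 v = v) (hadd : ∀ m n v, τ (m + n) v = τ m (τ n v))
    (rA : Va →ₗ[L] V) (rB : Vb →ₗ[L] V) (hA : ∀ x, rA (tA x) = τ 1 (rA x))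
    (hB : ∀ y, rB (tB y) = τ (-1) (rB y)) (SA : Set Va) (hSA : SA.Finite)
    (hSA2 : orb tA SA = ⊤) (SB : Set Vb) (hSB : SB.Finite) (hSB2 : orb tB SB = ⊤)
    (iA : ∀ v, ∃ (n : ℕ) (x : Va), rA x = τ n v) (iB : ∀ v, ∃ (n : ℕ) (y : Vb), rB y = τ (-n) v)
    (kA : ∀ x, rA x = 0 → ∃ n : ℕ, (tA ^ n) x = 0)
    (kB : ∀ y, rB y = 0 → ∃ n : ℕ, (tB ^ n) y = 0) :
    FiniteDimensional L
      (LinearMap.ker (rA ∘ₗ LinearMap.fst L Va Vb - rB ∘ₗ LinearMap.snd L Va Vb)) := by
  have hAn : ∀ (n : ℕ) (x : Va), rA ((tA ^ n) x) = τ n (rA x) := by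
    intro n
    induction n with
    | zero =>
      intro x
      rw [pow_zero, Nat.cast_zero, h0]
      rfl
    | succ n ih =>
      intro x
      rw [pow_succ']
      change rA (tA ((tA ^ n) x)) = _
      rw [hA, ih, ← hadd]
      congr 2
      push_cast
      ring
  have hBn : ∀ (n : ℕ) (x : Vb), rB ((tB ^ n) x) = τ (-n) (rB x) := by
    intro n
    induction n with
    | zero =>
      intro x
      rw [pow_zero, Nat.cast_zero, neg_zero, h0]
      rfl
    | succ n ih =>
      intro x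
      rw [pow_succ']
      change rB (tB ((tB ^ n) x)) = _
      rw [hB, ih, ← hadd]
      congr 2
      push_cast
      ring
  have hN1 : ∀ᶠ N : ℕ in Filter.atTop, ∀ x ∈ SA, ∃ y : Vb, rB y = τ (-N) (rA x) := by
    rw [Filter.eventually_all_finite hSA]
    intro x _
    obtain ⟨n, y, hy⟩ := iB (rA x)
    filter_upwards [Filter.eventually_ge_atTop n] with N hN
    refine ⟨(tB ^ (N - n)) y, ?_⟩
    rw [hBn, hy, ← hadd]
    congr 2
    push_cast [hN]
    ring
  have hN2 : ∀ᶠ N : ℕ in Filter.atTop, ∀ y ∈ SB, ∃ x : Va, rA x = τ N (rB y) := by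
    rw [Filter.eventually_all_finite hSB]
    intro y _
    obtain ⟨n, x, hx⟩ := iA (rB y)
    filter_upwards [Filter.eventually_ge_atTop n] with N hN
    refine ⟨(tA ^ (N - n)) x, ?_⟩
    rw [hAn, hx, ← hadd]
    congr 2
    push_cast [hN]
    ring
  obtain ⟨N, hN3, hN1, hN2⟩ := ((Filter.eventually_ge_atTop 1).and (hN1.and hN2)).exists
  choose! y1 hy1 using hN1
  choose! x2 hx2 using hN2
  let ι : Type := SA ⊕ SB
  have hfinA : Finite SA := hSA
  have hfinB : Finite SB := hSB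
  have hι : Finite ι := inferInstanceAs (Finite (SA ⊕ SB))
  let u : ι → Va := Sum.elim (fun x => (x : Va)) (fun y => x2 (y : Vb))
  let w : ι → Vb := Sum.elim (fun x => y1 (x : Va)) (fun y => (y : Vb))
  have huw : ∀ i : ι, rB (w i) = τ (-N) (rA (u i)) := by
    rintro (⟨x, hx⟩ | ⟨y, hy⟩)
    · exact hy1 x hx
    · change rB y = τ (-N) (rA (x2 y))
      rw [hx2 y hy, ← hadd, neg_add_cancel, h0]
  let π : ((ι × ℤ) →₀ L) →ₗ[L] V := Finsupp.linearCombination L (fun p => τ p.2 (rA (u p.1)))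
  let φa : ((ι × ℤ) →₀ L) →ₗ[L] Va :=
    Finsupp.linearCombination L (fun p => (tA ^ p.2.toNat) (u p.1))
  let φb : ((ι × ℤ) →₀ L) →ₗ[L] Vb :=
    Finsupp.linearCombination L (fun p => (tB ^ (-(N : ℤ) - p.2).toNat) (w p.1))
  have hπ1 : ∀ p, π (Finsupp.single p 1) = τ p.2 (rA (u p.1)) := by
    intro p
    simp only [π, Finsupp.linearCombination_single, one_smul]
  have hφa1 : ∀ p, φa (Finsupp.single p 1) = (tA ^ p.2.toNat) (u p.1) := by
    intro p
    simp only [φa, Finsupp.linearCombination_single, one_smul]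
  have hφb1 : ∀ p, φb (Finsupp.single p 1) = (tB ^ (-(N : ℤ) - p.2).toNat) (w p.1) := by
    intro p
    simp only [φb, Finsupp.linearCombination_single, one_smul]
  let PF : Submodule L ((ι × ℤ) →₀ L) := ex L ι {k | 0 ≤ k}
  let QF : Submodule L ((ι × ℤ) →₀ L) := ex L ι {k | k ≤ -(N : ℤ)}
  have hπτ : ∀ (n : ℤ) (f : (ι × ℤ) →₀ L), π (sh L ι n f) = τ n (π f) := by
    intro n f
    have h : π ∘ₗ sh L ι n = τ n ∘ₗ π := by
      apply Finsupp.lhom_ext'
      intro p
      apply LinearMap.ext_ring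
      simp only [LinearMap.comp_apply, Finsupp.lsingle_apply]
      rw [sh_single, hπ1, hπ1, ← hadd, add_comm]
    exact LinearMap.congr_fun h f
  have hra : ∀ f ∈ PF, rA (φa f) = π f := by
    have h : PF ≤ LinearMap.eqLocus (rA ∘ₗ φa) π := by
      apply ex_le
      intro i k hk
      rw [LinearMap.mem_eqLocus, LinearMap.comp_apply, hφa1, hπ1, hAn]
      congr 2
      exact Int.toNat_of_nonneg hk
    intro f hf
    exact h hf
  have hrb : ∀ f ∈ QF, rB (φb f) = π f := by
    have h : QF ≤ LinearMap.eqLocus (rB ∘ₗ φb) π := by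
      apply ex_le
      intro i k hk
      have hk' : k ≤ -(N : ℤ) := hk
      rw [LinearMap.mem_eqLocus, LinearMap.comp_apply, hφb1, hπ1, hBn, huw, ← hadd]
      congr 2
      rw [Int.toNat_of_nonneg (by omega)]
      ring
    intro f hf
    exact h hf
  have hPst : ∀ f ∈ PF, sh L ι 1 f ∈ PF := by
    have h : PF ≤ PF.comap (sh L ι 1) := by
      apply ex_le
      intro i k hk
      rw [Submodule.mem_comap, sh_single]
      exact single_mem_ex _ _ (by
        have hk' : (0 : ℤ) ≤ k := hk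
        change (0 : ℤ) ≤ k + 1
        omega) _
    exact h
  have hQst : ∀ f ∈ QF, sh L ι (-1) f ∈ QF := by
    have h : QF ≤ QF.comap (sh L ι (-1)) := by
      apply ex_le
      intro i k hk
      rw [Submodule.mem_comap, sh_single]
      exact single_mem_ex _ _ (by
        have hk' : k ≤ -(N : ℤ) := hk
        change k + -1 ≤ -(N : ℤ)
        omega) _
    exact h
  have hφaτ : ∀ f ∈ PF, φa (sh L ι 1 f) = tA (φa f) := by
    have h : PF ≤ LinearMap.eqLocus (φa ∘ₗ sh L ι 1) (tA ∘ₗ φa) := by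
      apply ex_le
      intro i k hk
      have hk' : (0 : ℤ) ≤ k := hk
      rw [LinearMap.mem_eqLocus, LinearMap.comp_apply, LinearMap.comp_apply, sh_single, hφa1,
        hφa1]
      have h1 : (k + 1).toNat = k.toNat + 1 := by omega
      change (tA ^ (k + 1).toNat) (u i) = tA ((tA ^ k.toNat) (u i))
      rw [h1, pow_succ']
      rfl
    intro f hf
    exact h hf
  have hφbτ : ∀ f ∈ QF, φb (sh L ι (-1) f) = tB (φb f) := by
    have h : QF ≤ LinearMap.eqLocus (φb ∘ₗ sh L ι (-1)) (tB ∘ₗ φb) := by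
      apply ex_le
      intro i k hk
      have hk' : k ≤ -(N : ℤ) := hk
      rw [LinearMap.mem_eqLocus, LinearMap.comp_apply, LinearMap.comp_apply, sh_single, hφb1,
        hφb1]
      have h1 : (-(N : ℤ) - (k + -1)).toNat = (-(N : ℤ) - k).toNat + 1 := by omega
      change (tB ^ (-(N : ℤ) - (k + -1)).toNat) (w i) = tB ((tB ^ (-(N : ℤ) - k).toNat) (w i))
      rw [h1, pow_succ']
      rfl
    intro f hf
    exact h hf
  have hsa : ∀ x, ∃ f ∈ PF, φa f = x := by
    intro x
    have hx : x ∈ orb tA SA := by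
      rw [hSA2]
      exact Submodule.mem_top
    have h : orb tA SA ≤ PF.map φa := by
      unfold orb
      rw [Submodule.span_le]
      rintro _ ⟨s, hs, k, rfl⟩
      refine ⟨Finsupp.single (Sum.inl ⟨s, hs⟩, (k : ℤ)) 1, single_mem_ex _ _ ?_ _, ?_⟩
      · exact Int.natCast_nonneg k
      · rw [hφa1]
        rfl
    exact h hx
  have hsb : ∀ y, ∃ f ∈ QF, φb f = y := by
    intro y
    have hy : y ∈ orb tB SB := by
      rw [hSB2]
      exact Submodule.mem_top
    have h : orb tB SB ≤ QF.map φb := by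
      unfold orb
      rw [Submodule.span_le]
      rintro _ ⟨s, hs, k, rfl⟩
      refine ⟨Finsupp.single (Sum.inr ⟨s, hs⟩, -(N : ℤ) - k) 1, single_mem_ex _ _ ?_ _, ?_⟩
      · change -(N : ℤ) - k ≤ -(N : ℤ)
        omega
      · rw [hφb1]
        have h1 : (-(N : ℤ) - (-(N : ℤ) - k)).toNat = k := by omega
        change (tB ^ (-(N : ℤ) - (-(N : ℤ) - k)).toNat) s = (tB ^ k) s
        rw [h1]
    exact h hy
  have hsum : ∀ (n : ℤ) (f : (ι × ℤ) →₀ L),
      sh L ι n f = f.sum (fun p c => Finsupp.single (p.1, p.2 + n) c) := fun _ _ => rfl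
  have hPev : ∀ f : (ι × ℤ) →₀ L, ∃ n : ℕ, sh L ι n f ∈ PF := by
    intro f
    refine ⟨f.support.sup (fun p => (-p.2).toNat), ?_⟩
    rw [hsum]
    refine Submodule.sum_mem _ fun p hp => single_mem_ex _ _ ?_ _
    have h1 := Finset.le_sup (f := fun p : ι × ℤ => (-p.2).toNat) hp
    change (0 : ℤ) ≤ p.2 + _
    have h2 : (-p.2).toNat ≤ f.support.sup (fun p => (-p.2).toNat) := h1
    omega
  have hQev : ∀ f : (ι × ℤ) →₀ L, ∃ n : ℕ, sh L ι (-n) f ∈ QF := by
    intro f
    refine ⟨f.support.sup (fun p => (p.2 + N).toNat), ?_⟩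
    rw [hsum]
    refine Submodule.sum_mem _ fun p hp => single_mem_ex _ _ ?_ _
    have h1 := Finset.le_sup (f := fun p : ι × ℤ => (p.2 + N).toNat) hp
    change p.2 + -_ ≤ -(N : ℤ)
    have h2 : (p.2 + N).toNat ≤ f.support.sup (fun p => (p.2 + N).toNat) := h1
    omega
  have hPFst : ∀ (n : ℕ) (f : (ι × ℤ) →₀ L), f ∈ PF →
      sh L ι n f ∈ PF ∧ φa (sh L ι n f) = (tA ^ n) (φa f) := by
    intro n
    induction n with
    | zero =>
      intro f hf
      rw [Nat.cast_zero, sh_zero]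
      exact ⟨hf, rfl⟩
    | succ n ih =>
      intro f hf
      have h1 : ((n + 1 : ℕ) : ℤ) = 1 + (n : ℤ) := by
        push_cast
        ring
      obtain ⟨h2, h3⟩ := ih f hf
      rw [h1, sh_add]
      refine ⟨hPst _ h2, ?_⟩
      rw [hφaτ _ h2, h3, pow_succ']
      rfl
  have hQFst : ∀ (n : ℕ) (f : (ι × ℤ) →₀ L), f ∈ QF →
      sh L ι (-n) f ∈ QF ∧ φb (sh L ι (-n) f) = (tB ^ n) (φb f) := by
    intro n
    induction n with
    | zero =>
      intro f hf
      rw [Nat.cast_zero, neg_zero, sh_zero]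
      exact ⟨hf, rfl⟩
    | succ n ih =>
      intro f hf
      have h1 : (-((n + 1 : ℕ) : ℤ)) = -1 + -(n : ℤ) := by
        push_cast
        ring
      obtain ⟨h2, h3⟩ := ih f hf
      rw [h1, sh_add]
      refine ⟨hQst _ h2, ?_⟩
      rw [hφbτ _ h2, h3, pow_succ']
      rfl
  let Ka : Submodule L ((ι × ℤ) →₀ L) := PF ⊓ LinearMap.ker φa
  let Kb : Submodule L ((ι × ℤ) →₀ L) := QF ⊓ LinearMap.ker φb
  let S0 : Set ((ι × ℤ) →₀ L) := Set.range (fun i : ι => Finsupp.single (i, (0 : ℤ)) (1 : L))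
  have hPF : PF ≤ orb (sh L ι 1) S0 := by
    apply ex_le
    intro i k hk
    have hk' : (0 : ℤ) ≤ k := hk
    apply Submodule.subset_span
    refine ⟨Finsupp.single (i, (0 : ℤ)) 1, ⟨i, rfl⟩, k.toNat, ?_⟩
    rw [pow_tau (sh L ι) sh_zero sh_add, sh_single, zero_add, Int.toNat_of_nonneg hk']
  obtain ⟨S', hS'1, hS'2, hS'3⟩ := noeth (sh L ι 1) S0 (Set.finite_range _) Ka
    (inf_le_left.trans hPF) (by
      rintro f ⟨hf1, hf2⟩
      refine ⟨hPst f hf1, ?_⟩
      have hf3 : φa f = 0 := hf2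
      rw [SetLike.mem_coe, LinearMap.mem_ker, hφaτ f hf1, hf3, map_zero])
  obtain ⟨D, hD1, hD2⟩ := latt (sh L ι) sh_zero sh_add Ka Kb (LinearMap.ker π) S' hS'1 hS'3
    (by
      rintro f ⟨hf1, hf2⟩
      have hf3 : φa f = 0 := hf2
      rw [LinearMap.mem_ker, ← hra f hf1, hf3, map_zero])
    (by
      rintro f ⟨hf1, hf2⟩
      refine ⟨hQst f hf1, ?_⟩
      have hf3 : φb f = 0 := hf2
      rw [SetLike.mem_coe, LinearMap.mem_ker, hφbτ f hf1, hf3, map_zero])
    (by
      intro f hf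
      have hf2 : π f = 0 := hf
      obtain ⟨n, hn⟩ := hPev f
      obtain ⟨m, hm⟩ := kA (φa (sh L ι n f)) (by
        rw [hra _ hn, hπτ, hf2, map_zero])
      refine ⟨m + n, ?_⟩
      obtain ⟨h1, h2⟩ := hPFst m _ hn
      rw [Nat.cast_add, sh_add]
      exact ⟨h1, by rw [SetLike.mem_coe, LinearMap.mem_ker, h2, hm]⟩)
    (by
      intro f hf
      have hf2 : π f = 0 := hf
      obtain ⟨n, hn⟩ := hQev f
      obtain ⟨m, hm⟩ := kB (φb (sh L ι (-n) f)) (by
        rw [hrb _ hn, hπτ, hf2, map_zero])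
      refine ⟨m + n, ?_⟩
      obtain ⟨h1, h2⟩ := hQFst m _ hn
      rw [Nat.cast_add, neg_add, sh_add]
      exact ⟨h1, by rw [SetLike.mem_coe, LinearMap.mem_ker, h2, hm]⟩)
  obtain ⟨σa, hσa⟩ := LinearMap.exists_rightInverse_of_surjective (φa ∘ₗ PF.subtype) (by
    rw [LinearMap.range_eq_top]
    intro x
    obtain ⟨f, hf1, hf2⟩ := hsa x
    exact ⟨⟨f, hf1⟩, hf2⟩)
  obtain ⟨σb, hσb⟩ := LinearMap.exists_rightInverse_of_surjective (φb ∘ₗ QF.subtype) (by
    rw [LinearMap.range_eq_top]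
    intro x
    obtain ⟨f, hf1, hf2⟩ := hsb x
    exact ⟨⟨f, hf1⟩, hf2⟩)
  have hσa' : ∀ x, φa (σa x : (ι × ℤ) →₀ L) = x := fun x => LinearMap.congr_fun hσa x
  have hσb' : ∀ x, φb (σb x : (ι × ℤ) →₀ L) = x := fun x => LinearMap.congr_fun hσb x
  let H := LinearMap.ker (rA ∘ₗ LinearMap.fst L Va Vb - rB ∘ₗ LinearMap.snd L Va Vb)
  let Wd : Submodule L (((ι × ℤ) →₀ L) ⧸ (Ka ⊔ Kb)) := D.map (Ka ⊔ Kb).mkQ
  let δ : (Va × Vb) →ₗ[L] (((ι × ℤ) →₀ L) ⧸ (Ka ⊔ Kb)) :=
    (Ka ⊔ Kb).mkQ ∘ₗ (PF.subtype ∘ₗ σa ∘ₗ LinearMap.fst L Va Vb -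
      QF.subtype ∘ₗ σb ∘ₗ LinearMap.snd L Va Vb)
  have hδ : ∀ x y, δ (x, y) = (Ka ⊔ Kb).mkQ ((σa x : (ι × ℤ) →₀ L) - σb y) := fun _ _ => rfl
  have hH : ∀ x y, (x, y) ∈ H → rA x = rB y := by
    intro x y h
    exact sub_eq_zero.1 h
  have hrange : ∀ z : H, δ z ∈ Wd := by
    rintro ⟨⟨x, y⟩, hz⟩
    have h1 := hH x y hz
    have h2 : ((σa x : (ι × ℤ) →₀ L) - σb y) ∈ LinearMap.ker π := by
      rw [LinearMap.mem_ker, map_sub, ← hra _ (σa x).2, ← hrb _ (σb y).2, hσa', hσb', h1,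
        sub_self]
    obtain ⟨a, ha, d, hd, had⟩ := Submodule.mem_sup.1 (hD2 h2)
    change δ (x, y) ∈ Wd
    rw [hδ, ← had, map_add]
    have h3 : (Ka ⊔ Kb).mkQ a = 0 := by
      rw [Submodule.mkQ_apply, Submodule.Quotient.mk_eq_zero]
      exact ha
    rw [h3, zero_add]
    exact ⟨d, hd, rfl⟩
  have hinj : ∀ z : H, δ z = 0 → z = 0 := by
    rintro ⟨⟨x, y⟩, hz⟩ h4
    have h5 : (Ka ⊔ Kb).mkQ ((σa x : (ι × ℤ) →₀ L) - σb y) = 0 := h4
    rw [Submodule.mkQ_apply, Submodule.Quotient.mk_eq_zero] at h5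
    obtain ⟨a, ha, b, hb, hab⟩ := Submodule.mem_sup.1 h5
    have h6 : (σa x : (ι × ℤ) →₀ L) - a = σb y + b := by
      have h7 : (σa x : (ι × ℤ) →₀ L) - a - (σb y + b) = 0 := by
        rw [sub_sub, add_comm a, add_assoc, add_comm b a, hab]
        abel
      exact sub_eq_zero.1 h7
    have h8 : (σa x : (ι × ℤ) →₀ L) - a = 0 := by
      apply ex_disj (s := {k | 0 ≤ k}) (s' := {k | k ≤ -(N : ℤ)})
      · intro k hk1 hk2
        have hk3 : (0 : ℤ) ≤ k := hk1
        have hk4 : k ≤ -(N : ℤ) := hk2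
        omega
      · exact Submodule.sub_mem _ (σa x).2 ha.1
      · rw [h6]
        exact Submodule.add_mem _ (σb y).2 hb.1
    have h9 : x = 0 := by
      rw [← hσa' x, sub_eq_zero.1 h8]
      exact ha.2
    have h10 : y = 0 := by
      rw [h8] at h6
      rw [← hσb' y, eq_neg_of_add_eq_zero_left h6.symm, map_neg]
      have h11 : φb b = 0 := hb.2
      rw [h11, neg_zero]
    apply Subtype.ext
    change (x, y) = (0, 0)
    rw [h9, h10]
  have hfd : FiniteDimensional L Wd := inferInstance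
  let δ' : H →ₗ[L] Wd := LinearMap.codRestrict Wd (δ ∘ₗ H.subtype) hrange
  apply FiniteDimensional.of_injective δ'
  rw [← LinearMap.ker_eq_bot, LinearMap.ker_eq_bot']
  intro z hz
  apply hinj z
  exact congrArg Subtype.val hz

end Abs2

section App

variable {L : Type} [Field L] (a b : Lˣ)

theorem lp_span {N : Type} [AddCommGroup N] [Module L N] (f : LaurentPolynomial L) (s : Set ℤ)
    (hf : f ∈ LpIn s) (φ : LaurentPolynomial L →ₗ[L] N) (W : Submodule L N)
    (h : ∀ n ∈ s, φ (LaurentPolynomial.T n) ∈ W) : φ f ∈ W := by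
  have h1 : f = f.coeff.sum AddMonoidAlgebra.single := (AddMonoidAlgebra.sum_coeff_single f).symm
  rw [h1, Finsupp.sum, map_sum]
  refine Submodule.sum_mem _ fun n hn => ?_
  have h2 : n ∈ s := by
    by_contra h3
    exact (Finsupp.mem_support_iff.1 hn) (hf n h3)
  have h3 : (AddMonoidAlgebra.single n (f.coeff n) : LaurentPolynomial L) =
      f.coeff n • (LaurentPolynomial.T n : LaurentPolynomial L) := by
    unfold LaurentPolynomial.T
    rw [AddMonoidAlgebra.smul_single, smul_eq_mul, mul_one]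
  rw [h3, map_smul]
  exact Submodule.smul_mem _ _ (h n h2)

/-- real part inclusion -/
noncomputable def inR : LaurentPolynomial L →ₗ[L] ConT a b where
  toFun f := ⟨f, 0⟩
  map_add' f g := by
    apply QuadraticAlgebra.ext
    · rfl
    · change (0 : LaurentPolynomial L) = 0 + 0
      rw [add_zero]
  map_smul' c f := by
    apply QuadraticAlgebra.ext
    · rfl
    · change (0 : LaurentPolynomial L) = c • 0
      rw [smul_zero]

/-- imaginary part inclusion -/
noncomputable def inI : LaurentPolynomial L →ₗ[L] ConT a b where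
  toFun f := ⟨0, f⟩
  map_add' f g := by
    apply QuadraticAlgebra.ext
    · change (0 : LaurentPolynomial L) = 0 + 0
      rw [add_zero]
    · rfl
  map_smul' c f := by
    apply QuadraticAlgebra.ext
    · change (0 : LaurentPolynomial L) = c • 0
      rw [smul_zero]
    · rfl

theorem gen_chart {k : Cov Bool} (te we : conSub a b L k)
    (h1 : ∀ n ∈ exR k, ∃ j : ℕ, inR a b (LaurentPolynomial.T n) = ((te ^ j : conSub a b L k)
      : ConT a b))
    (h2 : ∀ n ∈ exI k, ∃ j : ℕ, inI a b (LaurentPolynomial.T n) = ((te ^ j * we : conSub a b L k)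
      : ConT a b)) (z : conSub a b L k) :
    z ∈ Submodule.span L {r : conSub a b L k | ∃ j : ℕ, r = te ^ j ∨ r = te ^ j * we} := by
  set E : Set (conSub a b L k) := {r | ∃ j : ℕ, r = te ^ j ∨ r = te ^ j * we} with hE
  let ν : conSub a b L k →ₗ[L] ConT a b := (conSub a b L k).val.toLinearMap
  have h3 : (z : ConT a b) ∈ (Submodule.span L E).map ν := by
    have h4 : (z : ConT a b) = inR a b (z : ConT a b).re + inI a b (z : ConT a b).im := by
      apply QuadraticAlgebra.ext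
      · change _ = (z : ConT a b).re + 0
        rw [add_zero]
      · change _ = 0 + (z : ConT a b).im
        rw [zero_add]
    rw [h4]
    apply Submodule.add_mem
    · apply lp_span _ _ z.2.1
      intro n hn
      obtain ⟨j, hj⟩ := h1 n hn
      exact ⟨te ^ j, Submodule.subset_span ⟨j, Or.inl rfl⟩, hj.symm⟩
    · apply lp_span _ _ z.2.2
      intro n hn
      obtain ⟨j, hj⟩ := h2 n hn
      exact ⟨te ^ j * we, Submodule.subset_span ⟨j, Or.inr rfl⟩, hj.symm⟩
  obtain ⟨z', hz', hz2⟩ := h3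
  have h5 : z' = z := Subtype.ext hz2
  rw [← h5]
  exact hz'

theorem orb_top {k : Cov Bool} (M : PMod (Cnc a b L))
    (hfin : Module.Finite ((Cnc a b L).ring k) (sec M k)) (te we : (Cnc a b L).ring k)
    (hspan : ∀ z : (Cnc a b L).ring k, z ∈ Submodule.span L
      {r : (Cnc a b L).ring k | ∃ j : ℕ, r = te ^ j ∨ r = te ^ j * we}) :
    ∃ S : Set (sec M k), S.Finite ∧ orb (Algebra.lsmul L L (sec M k) te) S = ⊤ := by
  obtain ⟨G, hG⟩ := Module.finite_def.1 hfin
  let S : Set (sec M k) := (G : Set (sec M k)) ∪ (fun g => we • g) '' (G : Set (sec M k))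
  refine ⟨S, G.finite_toSet.union (G.finite_toSet.image _), ?_⟩
  rw [eq_top_iff]
  have key : ∀ g ∈ G, ∀ z : (Cnc a b L).ring k,
      z • g ∈ orb (Algebra.lsmul L L (sec M k) te) S := by
    intro g hg z
    let φ : (Cnc a b L).ring k →ₗ[L] sec M k := (LinearMap.toSpanSingleton
      ((Cnc a b L).ring k) (sec M k) g).restrictScalars L
    have h1 : Submodule.span L {r : (Cnc a b L).ring k | ∃ j : ℕ, r = te ^ j ∨ r = te ^ j * we}
        ≤ (orb (Algebra.lsmul L L (sec M k) te) S).comap φ := by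
      rw [Submodule.span_le]
      rintro _ ⟨j, rfl | rfl⟩
      · apply Submodule.subset_span
        refine ⟨g, Or.inl hg, j, ?_⟩
        rw [← map_pow]
        rfl
      · apply Submodule.subset_span
        refine ⟨we • g, Or.inr ⟨g, hg, rfl⟩, j, ?_⟩
        rw [← map_pow]
        change (te ^ j * we) • g = te ^ j • we • g
        rw [mul_smul]
    exact h1 (hspan z)
  intro x _
  have hx : x ∈ Submodule.span ((Cnc a b L).ring k) (G : Set (sec M k)) := by
    rw [hG]
    exact Submodule.mem_top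
  obtain ⟨f, -, hf⟩ := Submodule.mem_span_finset.1 hx
  rw [← hf]
  exact Submodule.sum_mem _ fun g hg => key g hg (f g)

theorem exR_ca {n : ℤ} (h : n ∈ exR ca) : 0 ≤ n :=
  h.1 (by simp [ca, Cov.one])

theorem exI_ca {n : ℤ} (h : n ∈ exI ca) : 0 ≤ n :=
  h.1 (by simp [ca, Cov.one])

theorem exR_cb {n : ℤ} (h : n ∈ exR cb) : n ≤ 0 :=
  h.2 (by simp [cb, Cov.one])

theorem exI_cb {n : ℤ} (h : n ∈ exI cb) : n ≤ -1 :=
  h.2 (by simp [cb, Cov.one])

/-- the element `T^n ω` -/
noncomputable def Wel {k : Cov Bool} {n : ℤ} (h : n ∈ exI k) : conSub a b L k :=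
  ⟨⟨0, LaurentPolynomial.T n⟩, zero_mem _, single_mem_LpIn h _⟩

theorem pow_val {k : Cov Bool} (e : conSub a b L k) (c : ℤ)
    (he : (e : ConT a b) = inR a b (LaurentPolynomial.T c)) (j : ℕ) :
    ((e ^ j : conSub a b L k) : ConT a b) = inR a b (LaurentPolynomial.T (j * c)) := by
  have h1 : inR a b (LaurentPolynomial.T c) =
      algebraMap (LaurentPolynomial L) (ConT a b) (LaurentPolynomial.T c) := rfl
  have h2 : inR a b (LaurentPolynomial.T (j * c)) =
      algebraMap (LaurentPolynomial L) (ConT a b) (LaurentPolynomial.T (j * c)) := rfl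
  rw [Subalgebra.coe_pow, he, h1, ← map_pow, LaurentPolynomial.T_pow, h2]

theorem mul_val {k : Cov Bool} (e w : conSub a b L k) (c d : ℤ)
    (he : (e : ConT a b) = inR a b (LaurentPolynomial.T c))
    (hw : (w : ConT a b) = inI a b (LaurentPolynomial.T d)) :
    ((e * w : conSub a b L k) : ConT a b) = inI a b (LaurentPolynomial.T (c + d)) := by
  rw [Subalgebra.coe_mul, he, hw, LaurentPolynomial.T_add]
  apply QuadraticAlgebra.ext
  · rw [QuadraticAlgebra.re_mul]
    change LaurentPolynomial.T c * 0 + conQ a b * 0 * LaurentPolynomial.T d = 0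
    rw [mul_zero, mul_zero, zero_mul, add_zero]
  · rw [QuadraticAlgebra.im_mul]
    change LaurentPolynomial.T c * LaurentPolynomial.T d + 0 * 0 +
      0 * 0 * LaurentPolynomial.T d = LaurentPolynomial.T c * LaurentPolynomial.T d
    rw [mul_zero, zero_mul, add_zero, add_zero]

theorem wa_mem : (0 : ℤ) ∈ exI ca :=
  ⟨fun _ => le_rfl, fun h => absurd (by simp [ca, Cov.one]) h⟩

theorem wb_mem : (-1 : ℤ) ∈ exI cb :=
  ⟨fun h => absurd (by simp [cb, Cov.one]) h, fun _ => le_rfl⟩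

/-- `T` on `U_a` -/
noncomputable def ta : conSub a b L ca := TA (K := L) a b

/-- `1/T` on `U_b` -/
noncomputable def tb : conSub a b L cb := TB (K := L) a b

theorem ta_val : ((ta a b : conSub a b L ca) : ConT a b) = inR a b (LaurentPolynomial.T 1) := rfl

theorem tb_val : ((tb a b : conSub a b L cb) : ConT a b) = inR a b (LaurentPolynomial.T (-1)) :=
  rfl

theorem gen_ca (z : conSub a b L ca) : z ∈ Submodule.span L
    {r : conSub a b L ca | ∃ j : ℕ, r = ta a b ^ j ∨ r = ta a b ^ j * Wel a b wa_mem} := by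
  apply gen_chart
  · intro n hn
    have h := exR_ca hn
    refine ⟨n.toNat, ?_⟩
    rw [pow_val a b _ 1 (ta_val a b), Int.toNat_of_nonneg h, mul_one]
  · intro n hn
    have h := exI_ca hn
    refine ⟨n.toNat, ?_⟩
    rw [mul_val a b _ _ (n.toNat * 1) 0 (pow_val a b _ 1 (ta_val a b) _) rfl,
      Int.toNat_of_nonneg h,
      mul_one, add_zero]

theorem gen_cb (z : conSub a b L cb) : z ∈ Submodule.span L
    {r : conSub a b L cb | ∃ j : ℕ, r = tb a b ^ j ∨ r = tb a b ^ j * Wel a b wb_mem} := by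
  apply gen_chart
  · intro n hn
    have h := exR_cb hn
    refine ⟨(-n).toNat, ?_⟩
    rw [pow_val a b _ (-1) (tb_val a b), Int.toNat_of_nonneg (by omega)]
    congr 2
    ring
  · intro n hn
    have h := exI_cb hn
    refine ⟨(-n - 1).toNat, ?_⟩
    rw [mul_val a b _ _ ((-n - 1).toNat * (-1)) (-1) (pow_val a b _ (-1) (tb_val a b) _) rfl,
      Int.toNat_of_nonneg (by omega)]
    congr 2
    ring

theorem Tn_zero : Tn (K := L) a b 0 = 1 :=
  Tel_zero a b L (exR_all ⟨Finset.mem_univ _, Finset.mem_univ _⟩ 0)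

theorem Tn_add (m n : ℤ) : Tn (K := L) a b (m + n) = Tn a b m * Tn a b n :=
  (Tel_mul a b L (exR_all ⟨Finset.mem_univ _, Finset.mem_univ _⟩ m)
    (exR_all ⟨Finset.mem_univ _, Finset.mem_univ _⟩ n)
    (exR_all ⟨Finset.mem_univ _, Finset.mem_univ _⟩ (m + n)) rfl).symm

end App

end HFD_

theorem hfd_proof (hLMA : Stmt_LMA) (hLMB : Stmt_LMB) : Stmt_HFD := by
  intro L _ a b M
  obtain ⟨lA1, lA2⟩ := hLMA L L a b M
  obtain ⟨lB1, lB2⟩ := hLMB L L a b M
  obtain ⟨SA, hSA, hSA2⟩ := HFD_.orb_top a b M.obj (M.property.1 (op ca)) (TA a b)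
    (HFD_.Wel a b HFD_.wa_mem : conSub a b L ca) (HFD_.gen_ca a b)
  obtain ⟨SB, hSB, hSB2⟩ := HFD_.orb_top a b M.obj (M.property.1 (op cb)) (TB a b)
    (HFD_.Wel a b HFD_.wb_mem : conSub a b L cb) (HFD_.gen_cb a b)
  let tA : Module.End L (sec M.obj ca) := Algebra.lsmul L L (sec M.obj ca) (TA (K := L) a b)
  let tB : Module.End L (sec M.obj cb) := Algebra.lsmul L L (sec M.obj cb) (TB (K := L) a b)
  let τ : ℤ → sec M.obj cab →ₗ[L] sec M.obj cab := fun n =>
    Algebra.lsmul L L (sec M.obj cab) (Tn (K := L) a b n)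
  have h0 : ∀ v, τ 0 v = v := by
    intro v
    change Tn (K := L) a b 0 • v = v
    rw [HFD_.Tn_zero, one_smul]
  have hadd : ∀ m n v, τ (m + n) v = τ m (τ n v) := by
    intro m n v
    change Tn (K := L) a b (m + n) • v = Tn (K := L) a b m • Tn (K := L) a b n • v
    rw [HFD_.Tn_add, mul_smul]
  have hA : ∀ x, rA M.obj (tA x) = τ 1 (rA M.obj x) := by
    intro x
    exact rs_smul M.obj (homOfLE cab_le_ca).op (TA (K := L) a b) x
  have hB : ∀ x, rB M.obj (tB x) = τ (-1) (rB M.obj x) := by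
    intro x
    exact rs_smul M.obj (homOfLE cab_le_cb).op (TB (K := L) a b) x
  have iA : ∀ v, ∃ (n : ℕ) (x : sec M.obj ca), rA M.obj x = τ n v := lA1
  have iB : ∀ v, ∃ (n : ℕ) (x : sec M.obj cb), rB M.obj x = τ (-n) v := lB1
  have kA : ∀ x, rA M.obj x = 0 → ∃ n : ℕ, (tA ^ n) x = 0 := by
    intro x hx
    obtain ⟨n, hn⟩ := lA2 x hx
    refine ⟨n, ?_⟩
    rw [← map_pow]
    exact hn
  have kB : ∀ x, rB M.obj x = 0 → ∃ n : ℕ, (tB ^ n) x = 0 := by
    intro x hx
    obtain ⟨n, hn⟩ := lB2 x hx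
    refine ⟨n, ?_⟩
    rw [← map_pow]
    exact hn
  refine ⟨?_, ?_⟩
  · exact HFD_.h0fin tA tB τ h0 hadd (rA M.obj) (rB M.obj) hA hB SA hSA hSA2 SB hSB hSB2
      iA iB kA kB
  · have hKa : LinearMap.range (rA M.obj) = HFD_.orb (τ 1) (rA M.obj '' SA) := by
      rw [LinearMap.range_eq_map, ← hSA2]
      exact HFD_.map_orb tA (τ 1) (rA M.obj) hA SA
    obtain ⟨D, hD1, hD2⟩ := HFD_.latt τ h0 hadd (LinearMap.range (rA M.obj))
      (LinearMap.range (rB M.obj)) ⊤ (rA M.obj '' SA) (hSA.image _) hKa le_top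
      (by
        rintro _ ⟨y, rfl⟩
        exact ⟨tB y, hB y⟩)
      (by
        intro v _
        obtain ⟨n, x, hx⟩ := iA v
        exact ⟨n, x, hx⟩)
      (by
        intro v _
        obtain ⟨n, x, hx⟩ := iB v
        exact ⟨n, x, hx⟩)
    apply Module.Finite.of_surjective ((LinearMap.range (dC M.obj)).mkQ ∘ₗ D.subtype)
    intro z
    obtain ⟨v, rfl⟩ := Submodule.mkQ_surjective _ z
    obtain ⟨c, hc, d, hd, hcd⟩ := Submodule.mem_sup.1 (hD2 (Submodule.mem_top (x := v)))
    obtain ⟨_, ⟨x, rfl⟩, _, ⟨y, rfl⟩, hxy⟩ := Submodule.mem_sup.1 hc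
    refine ⟨⟨d, hd⟩, ?_⟩
    change (LinearMap.range (dC M.obj)).mkQ d = (LinearMap.range (dC M.obj)).mkQ v
    rw [← hcd, map_add, right_eq_add, Submodule.mkQ_apply, Submodule.Quotient.mk_eq_zero]
    refine ⟨(x, -y), ?_⟩
    rw [dC_apply, map_neg, sub_neg_eq_add, hxy]

end Pool.CRD.Cn
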